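import Mathlib

set_option autoImplicit false

/-! Bounds for the coefficients of polynomials from bounds for their values. -/

open Polynomial

namespace Pool.Agent.K1H93.NF

/-- discrete Fourier transform -/
lemma dft (p : ℂ[X]) (n : ℕ) (hn : p.natDegree < n) (ζ : ℂ) (hζ : IsPrimitiveRoot ζ n) (R : ℝ)
    (i : ℕ) (hi : i < n) :
    ∑ j ∈ Finset.range n, p.eval (R * ζ ^ j) * (ζ ^ j)⁻¹ ^ i = n * (p.coeff i * R ^ i) := by
  have hζ0 : ζ ≠ 0 := hζ.ne_zero (by omega)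
  have h1 : ∀ j, p.eval (R * ζ ^ j) * (ζ ^ j)⁻¹ ^ i =
      ∑ m ∈ Finset.range n, p.coeff m * R ^ m * (ζ ^ m * (ζ ^ i)⁻¹) ^ j := by
    intro j
    rw [eval_eq_sum_range' hn, Finset.sum_mul]
    apply Finset.sum_congr rfl
    intro m _
    have e1 : (ζ ^ m * (ζ ^ i)⁻¹) ^ j = (ζ ^ j) ^ m * (ζ ^ j)⁻¹ ^ i := by
      rw [mul_pow, inv_pow, inv_pow, ← pow_mul, ← pow_mul, ← pow_mul, ← pow_mul, mul_comm m j,
        mul_comm i j]
    rw [e1, mul_pow]
    ring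
  simp_rw [h1]
  rw [Finset.sum_comm]
  rw [Finset.sum_eq_single i]
  · have e2 : ζ ^ i * (ζ ^ i)⁻¹ = 1 := mul_inv_cancel₀ (pow_ne_zero _ hζ0)
    simp only [e2, one_pow, mul_one]
    rw [Finset.sum_const, Finset.card_range, nsmul_eq_mul]
  · intro m hm hmi
    rw [← Finset.mul_sum]
    have hx : ζ ^ m * (ζ ^ i)⁻¹ ≠ 1 := by
      intro h
      apply hmi
      have h2 : ζ ^ m = ζ ^ i := by
        rw [mul_inv_eq_one₀ (pow_ne_zero _ hζ0)] at h
        exact h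
      exact hζ.pow_inj (Finset.mem_range.1 hm) hi h2
    have hxn : (ζ ^ m * (ζ ^ i)⁻¹) ^ n = 1 := by
      rw [mul_pow, inv_pow, ← pow_mul, ← pow_mul, mul_comm m, mul_comm i, pow_mul, pow_mul,
        hζ.pow_eq_one, one_pow, one_pow, inv_one, mul_one]
    rw [geom_sum_eq hx, hxn, sub_self, zero_div, mul_zero]
  · intro h
    exact absurd (Finset.mem_range.2 hi) h

lemma coeff_radius (p : ℂ[X]) (M : ℝ) (κ : ℕ) (h : ∀ x, ‖p.eval x‖ ≤ M * max 1 ‖x‖ ^ κ) (i : ℕ)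
    (R : ℝ) (hR : 1 ≤ R) : ‖p.coeff i‖ * R ^ i ≤ M * R ^ κ := by
  by_cases hi : i ≤ p.natDegree
  · obtain ⟨n, hn⟩ : ∃ n, n = p.natDegree + 1 := ⟨_, rfl⟩
    have hn0 : n ≠ 0 := by omega
    obtain ⟨ζ, hζ⟩ : ∃ ζ : ℂ, IsPrimitiveRoot ζ n := ⟨_, Complex.isPrimitiveRoot_exp n hn0⟩
    have h1 := dft p n (by omega) ζ hζ R i (by omega)
    have hζ1 : ‖ζ‖ = 1 := hζ.norm'_eq_one hn0
    have h2 : ‖(n : ℂ) * (p.coeff i * (R : ℂ) ^ i)‖ = n * (‖p.coeff i‖ * R ^ i) := by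
      rw [norm_mul, norm_mul, norm_pow, Complex.norm_natCast, Complex.norm_real,
        Real.norm_of_nonneg (by linarith)]
    have h3 : ‖∑ j ∈ Finset.range n, p.eval (R * ζ ^ j) * (ζ ^ j)⁻¹ ^ i‖ ≤ n * (M * R ^ κ) := by
      refine (norm_sum_le _ _).trans ?_
      have : ∀ j ∈ Finset.range n, ‖p.eval (R * ζ ^ j) * (ζ ^ j)⁻¹ ^ i‖ ≤ M * R ^ κ := by
        intro j _
        rw [norm_mul, norm_pow, norm_inv, norm_pow, hζ1, one_pow, inv_one, one_pow, mul_one]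
        refine (h _).trans (le_of_eq ?_)
        rw [norm_mul, norm_pow, hζ1, one_pow, mul_one, Complex.norm_real,
          Real.norm_of_nonneg (by linarith), max_eq_right hR]
      refine (Finset.sum_le_sum this).trans ?_
      rw [Finset.sum_const, Finset.card_range, nsmul_eq_mul]
    rw [h1, h2] at h3
    have hnpos : (0 : ℝ) < n := by exact_mod_cast Nat.pos_of_ne_zero hn0
    exact le_of_mul_le_mul_left h3 hnpos
  · rw [coeff_eq_zero_of_natDegree_lt (by omega), norm_zero, zero_mul]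
    have h1 := h (R : ℂ)
    rw [Complex.norm_real, Real.norm_of_nonneg (by linarith), max_eq_right hR] at h1
    exact (norm_nonneg _).trans h1

lemma coeff_bound (p : ℂ[X]) (M : ℝ) (κ : ℕ) (h : ∀ x, ‖p.eval x‖ ≤ M * max 1 ‖x‖ ^ κ) :
    p.natDegree ≤ κ ∧ ∀ i, ‖p.coeff i‖ ≤ M := by
  constructor
  · by_contra hκ
    push Not at hκ
    obtain ⟨i, hi⟩ : ∃ i, i = p.natDegree := ⟨_, rfl⟩
    rw [← hi] at hκ
    have hc : p.coeff i ≠ 0 := by
      rw [hi]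
      intro h0
      have hp : p = 0 := leadingCoeff_eq_zero.1 h0
      rw [hp, natDegree_zero] at hi
      omega
    have hc' : 0 < ‖p.coeff i‖ := norm_pos_iff.2 hc
    obtain ⟨R, hR1, hR2⟩ : ∃ R : ℝ, 1 ≤ R ∧ M < ‖p.coeff i‖ * R :=
      ⟨max 1 (M / ‖p.coeff i‖ + 1), le_max_left _ _, by
        have : M / ‖p.coeff i‖ + 1 ≤ max 1 (M / ‖p.coeff i‖ + 1) := le_max_right _ _
        calc M < ‖p.coeff i‖ * (M / ‖p.coeff i‖ + 1) := by field_simp; linarith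
          _ ≤ _ := mul_le_mul_of_nonneg_left this hc'.le⟩
    have h1 := coeff_radius p M κ h i R hR1
    obtain ⟨j, rfl⟩ : ∃ j, i = κ + 1 + j := ⟨i - (κ + 1), by omega⟩
    have hRpos : 0 < R ^ κ := by positivity
    have hRj : 1 ≤ R ^ j := one_le_pow₀ hR1
    have h2 : ‖p.coeff (κ + 1 + j)‖ * R ≤ M := by
      have h3 : ‖p.coeff (κ + 1 + j)‖ * R * R ^ κ ≤ M * R ^ κ := by
        calc ‖p.coeff (κ + 1 + j)‖ * R * R ^ κ ≤ ‖p.coeff (κ + 1 + j)‖ * R * R ^ κ * R ^ j :=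
              le_mul_of_one_le_right (by positivity) hRj
          _ = ‖p.coeff (κ + 1 + j)‖ * R ^ (κ + 1 + j) := by ring
          _ ≤ _ := h1
      exact le_of_mul_le_mul_right h3 hRpos
    linarith
  · intro i
    have := coeff_radius p M κ h i 1 le_rfl
    simpa using this

end Pool.Agent.K1H93.NF
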