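import Mathlib

set_option autoImplicit false

/-! The covering `Z ^ n = q` over all embeddings of a number field. -/

open NumberField Polynomial

namespace Pool.Agent.K1H93.NF

section

variable {k : Type} [Field k] [NumberField k] {m : ℕ}

open Classical in
/-- dual systems of integers of `k` -/
def DualId (M : Type) [Field M] [CharZero M] (ω ω' : Fin m → 𝓞 k) (Δ : ℕ) : Prop :=
  (∀ i j, ∑ σ : k →+* M, σ (ω' i) * σ (ω j) = if i = j then (Δ : M) else 0) ∧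
    ∀ σ τ : k →+* M, ∑ i, σ (ω i) * τ (ω' i) = if σ = τ then (Δ : M) else 0

variable {L M : Type} [Field L] [Field M] [Algebra L M] [CharZero M]

/-- the element of `M` given by the coordinates `q i` in `L` -/
noncomputable def qs (ω : Fin m → 𝓞 k) (q : Fin m → L) (σ : k →+* M) : M :=
  ∑ i, algebraMap L M (q i) * σ (ω i)

/-- `Δ` times the coordinates of `Z` -/
noncomputable def th (ω' : Fin m → 𝓞 k) (Z : (k →+* M) → M) (i : Fin m) : M :=
  ∑ σ : k →+* M, σ (ω' i) * Z σ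

lemma th_mul {ω ω' : Fin m → 𝓞 k} {Δ : ℕ} (h : DualId M ω ω' Δ) (Z : (k →+* M) → M)
    (σ : k →+* M) : ∑ i, th ω' Z i * σ (ω i) = Δ * Z σ := by
  classical
  simp only [th, Finset.sum_mul]
  rw [Finset.sum_comm]
  rw [Finset.sum_eq_single σ]
  · have h1 := h.2 σ σ
    rw [if_pos rfl] at h1
    rw [← h1, Finset.sum_mul]
    apply Finset.sum_congr rfl
    intro i _
    ring
  · intro τ _ hτ
    have h1 := h.2 σ τ
    rw [if_neg (Ne.symm hτ)] at h1
    have h2 : ∑ i, τ (ω' i) * Z τ * σ (ω i) = (∑ i, σ (ω i) * τ (ω' i)) * Z τ := by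
      rw [Finset.sum_mul]
      apply Finset.sum_congr rfl
      intro i _
      ring
    rw [h2, h1, zero_mul]
  · intro h1
    exact absurd (Finset.mem_univ _) h1

/-- automorphisms permute the embeddings -/
lemma emb (Ψ : M →ₐ[L] M) {n : ℕ} (ω ω' : Fin m → 𝓞 k) (q : Fin m → L) (Z : (k →+* M) → M)
    (hZ : ∀ σ, Z σ ^ n = qs ω q σ) : ∃ Z' : (k →+* M) → M, (∀ τ, Z' τ ^ n = qs ω q τ) ∧
      ∀ i, Ψ (th ω' Z i) = th ω' Z' i := by
  classical
  have hinj : Function.Injective (fun σ : k →+* M => (Ψ : M →+* M).comp σ) := by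
    intro σ τ h
    apply RingHom.ext
    intro x
    have := congrArg (fun f : k →+* M => f x) h
    exact (Ψ : M →+* M).injective this
  obtain ⟨e, he⟩ : ∃ e : (k →+* M) ≃ (k →+* M), ∀ σ, e σ = (Ψ : M →+* M).comp σ :=
    ⟨Equiv.ofBijective _ (Finite.injective_iff_bijective.1 hinj), fun σ => rfl⟩
  refine ⟨fun τ => Ψ (Z (e.symm τ)), fun τ => ?_, fun i => ?_⟩
  · obtain ⟨σ, rfl⟩ := e.surjective τ
    beta_reduce
    rw [Equiv.symm_apply_apply, ← map_pow, hZ, qs, qs, map_sum]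
    apply Finset.sum_congr rfl
    intro i _
    rw [map_mul, AlgHom.commutes, he]
    rfl
  · rw [th, th, map_sum, ← Equiv.sum_comp e (fun τ => τ (ω' i) * Ψ (Z (e.symm τ)))]
    apply Finset.sum_congr rfl
    intro σ _
    rw [map_mul, Equiv.symm_apply_apply, he]
    rfl

variable [IsAlgClosed M] [Algebra.IsAlgebraic L M]

/-- the field of the covering -/
noncomputable def EE (L : Type) [Field L] [Algebra L M] (ω' : Fin m → 𝓞 k)
    (Z : (k →+* M) → M) : IntermediateField L M :=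
  IntermediateField.adjoin L (Set.range (th ω' Z))

lemma th_mem (ω' : Fin m → 𝓞 k) (Z : (k →+* M) → M) (i : Fin m) : th ω' Z i ∈ EE L ω' Z :=
  IntermediateField.subset_adjoin _ _ ⟨i, rfl⟩

instance EE_fin (ω' : Fin m → 𝓞 k) (Z : (k →+* M) → M) : FiniteDimensional L (EE L ω' Z) := by
  apply IntermediateField.finiteDimensional_adjoin
  intro x _
  exact (Algebra.IsAlgebraic.isAlgebraic x).isIntegral

lemma ext_EE {ω' : Fin m → 𝓞 k} {Z : (k →+* M) → M} {ψ ψ' : EE L ω' Z →ₐ[L] M}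
    (h : ∀ i, ψ ⟨th ω' Z i, th_mem ω' Z i⟩ = ψ' ⟨th ω' Z i, th_mem ω' Z i⟩) : ψ = ψ' := by
  apply IntermediateField.algHom_ext_of_eq_adjoin (F := L) (S := EE L ω' Z)
    (s := Set.range (th ω' Z)) rfl
  rintro _ ⟨i, rfl⟩
  exact h i

lemma emb_EE {n : ℕ} (ω ω' : Fin m → 𝓞 k) (q : Fin m → L) (Z : (k →+* M) → M)
    (hZ : ∀ σ, Z σ ^ n = qs ω q σ) (ψ : EE L ω' Z →ₐ[L] M) :
    ∃ Ψ : M →ₐ[L] M, (∀ z : EE L ω' Z, Ψ z = ψ z) ∧
    ∃ Z' : (k →+* M) → M, (∀ τ, Z' τ ^ n = qs ω q τ) ∧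
      ∀ i, ψ ⟨th ω' Z i, th_mem ω' Z i⟩ = th ω' Z' i := by
  have : Algebra.IsAlgebraic (EE L ω' Z) M := Algebra.IsAlgebraic.tower_top (K := L) _
  obtain ⟨Ψ, hΨ⟩ := IsAlgClosed.surjective_domRestrict_of_isAlgebraic (K := L)
    (L := EE L ω' Z) (M := M) (E := M) ψ
  have h1 : ∀ z : EE L ω' Z, Ψ z = ψ z := by
    intro z
    rw [← hΨ]
    rfl
  obtain ⟨Z', h2, h3⟩ := emb Ψ ω ω' q Z hZ
  exact ⟨Ψ, h1, Z', h2, fun i => by rw [← h3, ← h1]⟩

/-- the degree of the covering -/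
lemma finrank_EE {n : ℕ} (hn : 0 < n) (ω ω' : Fin m → 𝓞 k) (q : Fin m → L) (Z : (k →+* M) → M)
    (hZ : ∀ σ, Z σ ^ n = qs ω q σ) [CharZero L] :
    Module.finrank L (EE L ω' Z) ≤ n ^ Module.finrank ℚ k := by
  classical
  have h0 : Fintype.card (EE L ω' Z →ₐ[L] M) = Module.finrank L (EE L ω' Z) :=
    AlgHom.card L (EE L ω' Z) M
  rw [← h0]
  choose Ψ hΨ Z' hZ' hθ using emb_EE (L := L) ω ω' q Z hZ
  let T : (k →+* M) → Finset M := fun τ => (nthRoots n (qs ω q τ)).toFinset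
  have hmem : ∀ ψ τ, Z' ψ τ ∈ T τ := by
    intro ψ τ
    rw [Multiset.mem_toFinset, mem_nthRoots hn]
    exact hZ' ψ τ
  let f : (EE L ω' Z →ₐ[L] M) → ∀ τ : k →+* M, T τ := fun ψ τ => ⟨Z' ψ τ, hmem ψ τ⟩
  have hf : Function.Injective f := by
    intro ψ ψ' h
    apply ext_EE
    intro i
    rw [hθ, hθ]
    congr 1
    funext τ
    exact congrArg Subtype.val (congrFun h τ)
  refine (Fintype.card_le_of_injective f hf).trans ?_
  rw [Fintype.card_pi]
  have h1 : ∀ τ : k →+* M, Fintype.card (T τ) ≤ n := by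
    intro τ
    rw [Fintype.card_coe]
    exact (Multiset.toFinset_card_le _).trans (card_nthRoots _ _)
  refine (Finset.prod_le_prod' fun τ _ => h1 τ).trans ?_
  rw [Finset.prod_const, Finset.card_univ, NumberField.Embeddings.card]

end

section

variable {k : Type} [Field k] [NumberField k] {m : ℕ} {L M : Type} [Field L] [Field M]
  [Algebra L M] [CharZero M] [IsAlgClosed M]

/-- `n`-th roots with prescribed images -/
lemma exists_Z {n : ℕ} (hn : 0 < n) (S : Subring M) (hroot : ∀ z : M, z ^ n ∈ S → z ∈ S)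
    (φ : S →+* ℂ) (x : M) (hx : x ∈ S) (Q : ℂ) (hQ : Q ^ n = φ ⟨x, hx⟩) :
    ∃ (Z : M) (hZ : Z ∈ S), Z ^ n = x ∧ φ ⟨Z, hZ⟩ = Q := by
  obtain ⟨Z0, hZ0⟩ := IsAlgClosed.exists_pow_nat_eq x hn
  have hZ0S : Z0 ∈ S := hroot _ (by rw [hZ0]; exact hx)
  have h1 : φ ⟨Z0, hZ0S⟩ ^ n = Q ^ n := by
    rw [hQ, ← map_pow]
    congr 1
    exact Subtype.ext hZ0
  by_cases h0 : φ ⟨Z0, hZ0S⟩ = 0
  · refine ⟨Z0, hZ0S, hZ0, ?_⟩
    rw [h0, zero_pow (by omega)] at h1
    rw [h0, eq_zero_of_pow_eq_zero h1.symm]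
  · have : NeZero n := ⟨by omega⟩
    have : NeZero (n : M) := ⟨by exact_mod_cast (by omega : n ≠ 0)⟩
    have : NeZero (n : ℂ) := ⟨by exact_mod_cast (by omega : n ≠ 0)⟩
    obtain ⟨ζ, hζ⟩ := HasEnoughRootsOfUnity.exists_primitiveRoot M n
    have hζS : ζ ∈ S := hroot _ (by rw [hζ.pow_eq_one]; exact S.one_mem)
    have hcyc : IsPrimitiveRoot (φ ⟨ζ, hζS⟩) n := by
      rw [← isRoot_cyclotomic_iff]
      have h2 : (cyclotomic n ℤ).eval₂ (Int.castRingHom S) ⟨ζ, hζS⟩ = 0 := by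
        apply Subtype.val_injective
        have h3 := hom_eval₂ (cyclotomic n ℤ) (Int.castRingHom S) S.subtype ⟨ζ, hζS⟩
        have h4 : (cyclotomic n ℤ).eval₂ (S.subtype.comp (Int.castRingHom S)) ζ = 0 := by
          have h5 := (isRoot_cyclotomic_iff (n := n) (R := M)).2 hζ
          rw [IsRoot.def, ← map_cyclotomic_int, eval_map] at h5
          rw [← h5]
          congr 1
        exact h3.trans h4
      have h3 := hom_eval₂ (cyclotomic n ℤ) (Int.castRingHom S) φ ⟨ζ, hζS⟩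
      rw [h2, map_zero] at h3
      rw [IsRoot.def, ← map_cyclotomic_int, eval_map, h3]
      congr 1
      exact Subsingleton.elim _ _
    obtain ⟨i, -, hi⟩ := hcyc.eq_pow_of_pow_eq_one (ξ := Q / φ ⟨Z0, hZ0S⟩) (by
      rw [div_pow, h1]
      exact div_self (by rw [← h1]; exact pow_ne_zero _ h0))
    refine ⟨ζ ^ i * Z0, S.mul_mem (S.pow_mem hζS i) hZ0S, ?_, ?_⟩
    · rw [mul_pow, hZ0, ← pow_mul, mul_comm i n, pow_mul, hζ.pow_eq_one, one_pow, one_mul]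
    · have h2 : (⟨ζ ^ i * Z0, S.mul_mem (S.pow_mem hζS i) hZ0S⟩ : S) =
          ⟨ζ, hζS⟩ ^ i * ⟨Z0, hZ0S⟩ := rfl
      rw [h2, map_mul, map_pow, hi, div_mul_cancel₀ _ h0]

end

end Pool.Agent.K1H93.NF
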