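import Pool.Agent.K1H93.NF.Hom
import Pool.Agent.K1H93.NF.Cvr

set_option autoImplicit false

/-! The covering: integral points and growth. -/

open Polynomial NumberField

namespace Pool.Agent.K1H93.NF

open Pool.Agent.H322R2 Pool.Agent.K1H93.TG

variable {k : Type} [Field k] [NumberField k] {m : ℕ} {M : Type} [Field M] [CharZero M]

/-- integers of `k` are integral over `ℤ[α]` -/
lemma emb_mem_Sc (α : M) (σ : k →+* M) (z : 𝓞 k) : σ z ∈ Sc α := by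
  apply int_mem_Sc
  have h1 : IsIntegral ℤ (z : k) := z.isIntegral_coe
  obtain ⟨p, hp, hpz⟩ := h1
  refine ⟨p, hp, ?_⟩
  have h2 := hom_eval₂ p (algebraMap ℤ k) σ (z : k)
  rw [hpz, map_zero] at h2
  rw [h2]
  congr 1
  exact Subsingleton.elim _ _

/-- the homomorphism of the integers of `k` to `ℂ` given by an embedding in `M` and a homomorphism of
the integral closure -/
noncomputable def rho {α : M} (ψ : Sc α →+* ℂ) (σ : k →+* M) : 𝓞 k →+* ℂ :=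
  ψ.comp ((σ.comp (algebraMap (𝓞 k) k)).codRestrict (Sc α) (fun z => emb_mem_Sc α σ z))

lemma rho_apply {α : M} (ψ : Sc α →+* ℂ) (σ : k →+* M) (z : 𝓞 k) :
    rho ψ σ z = ψ ⟨σ z, emb_mem_Sc α σ z⟩ := rfl

variable {L : Type} [Field L] [Algebra L M]

lemma qs_mem_Sc {α : L} (ω : Fin m → 𝓞 k) (q : Fin m → L) (hq : ∀ i, q i ∈ Sc α) (σ : k →+* M) :
    qs ω q σ ∈ Sc (algebraMap L M α) :=
  sum_mem fun i _ => mul_mem (map_Sc _ (hq i)) (emb_mem_Sc _ σ (ω i))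

lemma psi_qs {α : L} (ω : Fin m → 𝓞 k) (q : Fin m → L) (hq : ∀ i, q i ∈ Sc α) (σ : k →+* M)
    (ψ : Sc (algebraMap L M α) →+* ℂ) :
    ψ ⟨qs ω q σ, qs_mem_Sc ω q hq σ⟩ =
      ∑ i, ψ ⟨algebraMap L M (q i), map_Sc _ (hq i)⟩ * rho ψ σ (ω i) := by
  have h1 : (⟨qs ω q σ, qs_mem_Sc ω q hq σ⟩ : Sc (algebraMap L M α)) =
      ∑ i, ⟨algebraMap L M (q i), map_Sc _ (hq i)⟩ * ⟨σ (ω i), emb_mem_Sc _ σ (ω i)⟩ := by
    apply Subtype.ext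
    push_cast
    rfl
  rw [h1, map_sum]
  apply Finset.sum_congr rfl
  intro i _
  rw [map_mul, rho_apply]

lemma psi_th {α : M} (ω' : Fin m → 𝓞 k) (Z : (k →+* M) → M) (hZ : ∀ σ, Z σ ∈ Sc α)
    (ψ : Sc α →+* ℂ) (i : Fin m) (h : th ω' Z i ∈ Sc α) :
    ψ ⟨th ω' Z i, h⟩ = ∑ σ : k →+* M, rho ψ σ (ω' i) * ψ ⟨Z σ, hZ σ⟩ := by
  have h1 : (⟨th ω' Z i, h⟩ : Sc α) =
      ∑ σ : k →+* M, ⟨σ (ω' i), emb_mem_Sc _ σ (ω' i)⟩ * ⟨Z σ, hZ σ⟩ := by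
    apply Subtype.ext
    push_cast
    rfl
  rw [h1, map_sum]
  apply Finset.sum_congr rfl
  intro i _
  rw [map_mul, rho_apply]

lemma th_mem_Sc {α : M} (ω' : Fin m → 𝓞 k) (Z : (k →+* M) → M) (hZ : ∀ σ, Z σ ∈ Sc α)
    (i : Fin m) : th ω' Z i ∈ Sc α :=
  sum_mem fun σ _ => mul_mem (emb_mem_Sc _ σ _) (hZ σ)

theorem cover [IsAlgClosed M] {ω ω' : Fin m → 𝓞 k} {Δ : ℕ} (hd : DualId M ω ω' Δ) {n : ℕ}
    (hn : 0 < n) (α : L) (q : Fin m → L) (hq : ∀ i, q i ∈ Sc α)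
    (ψ : Sc (algebraMap L M α) →+* ℂ) (b : Fin m → ℤ)
    (hpt : ∀ ρ : 𝓞 k →+* ℂ, (∑ j, (b j : ℂ) * ρ (ω j)) ^ n =
      ∑ i, ψ ⟨algebraMap L M (q i), map_Sc _ (hq i)⟩ * ρ (ω i)) :
    ∃ Z : (k →+* M) → M, (∀ σ, Z σ ^ n = qs ω q σ) ∧ (∀ σ, Z σ ∈ Sc (algebraMap L M α)) ∧
      ∀ i (h : th ω' Z i ∈ Sc (algebraMap L M α)), ψ ⟨th ω' Z i, h⟩ = Δ * b i := by
  classical
  choose Z hZ1 hZ2 hZ3 using fun σ : k →+* M => exists_Z hn (Sc (algebraMap L M α))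
    (fun z hz => root_mem_Sc _ hn hz) ψ (qs ω q σ) (qs_mem_Sc ω q hq σ)
    (∑ j, (b j : ℂ) * rho ψ σ (ω j)) (by rw [psi_qs ω q hq, hpt])
  refine ⟨Z, hZ2, hZ1, fun i h => ?_⟩
  rw [psi_th ω' Z hZ1 ψ i h]
  have h1 : ∀ σ : k →+* M, rho ψ σ (ω' i) * ψ ⟨Z σ, hZ1 σ⟩ =
      ∑ j, (b j : ℂ) * (rho ψ σ (ω' i) * rho ψ σ (ω j)) := by
    intro σ
    rw [hZ3, Finset.mul_sum]
    apply Finset.sum_congr rfl
    intro j _
    ring
  rw [Finset.sum_congr rfl fun σ _ => h1 σ, Finset.sum_comm, Finset.sum_eq_single i]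
  · rw [← Finset.mul_sum]
    have h2 : ∑ σ : k →+* M, rho ψ σ (ω' i) * rho ψ σ (ω i) = Δ := by
      have h3 : ψ (∑ σ : k →+* M, ⟨σ (ω' i), emb_mem_Sc _ σ (ω' i)⟩ *
          ⟨σ (ω i), emb_mem_Sc _ σ (ω i)⟩) = ψ (Δ : Sc (algebraMap L M α)) := by
        congr 1
        apply Subtype.ext
        push_cast
        have := hd.1 i i
        rwa [if_pos rfl] at this
      rw [map_sum, map_natCast] at h3
      rw [← h3]
      apply Finset.sum_congr rfl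
      intro σ _
      rw [map_mul, rho_apply, rho_apply]
    rw [h2, mul_comm]
  · intro j _ hj
    rw [← Finset.mul_sum]
    have h2 : ∑ σ : k →+* M, rho ψ σ (ω' i) * rho ψ σ (ω j) = 0 := by
      have h3 : ψ (∑ σ : k →+* M, ⟨σ (ω' i), emb_mem_Sc _ σ (ω' i)⟩ *
          ⟨σ (ω j), emb_mem_Sc _ σ (ω j)⟩) = ψ (0 : Sc (algebraMap L M α)) := by
        congr 1
        apply Subtype.ext
        push_cast
        have := hd.1 i j
        rwa [if_neg (Ne.symm hj)] at this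
      rw [map_sum, map_zero] at h3
      rw [← h3]
      apply Finset.sum_congr rfl
      intro σ _
      rw [map_mul, rho_apply, rho_apply]
    rw [h2, mul_zero]
  · intro h0
    exact absurd (Finset.mem_univ _) h0

/-- the constant of the growth -/
noncomputable def HH (ω ω' : Fin m → 𝓞 k) : ℝ :=
  Module.finrank ℚ k * ((∑ i, hs (ω' i : k)) * (1 + ∑ i, hs (ω i : k)))

theorem growth [IsAlgClosed M] {ω ω' : Fin m → 𝓞 k} {n : ℕ}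
    (hn : 0 < n) (α : L) (q : Fin m → L) (hq : ∀ i, q i ∈ Sc α)
    (ψ : Sc (algebraMap L M α) →+* ℂ) (Z : (k →+* M) → M) (hZ : ∀ σ, Z σ ^ n = qs ω q σ)
    (hZS : ∀ σ, Z σ ∈ Sc (algebraMap L M α)) (T : ℝ) (hT : 1 ≤ T)
    (hqT : ∀ i, ‖ψ ⟨algebraMap L M (q i), map_Sc _ (hq i)⟩‖ ≤ T) (i : Fin m)
    (h : th ω' Z i ∈ Sc (algebraMap L M α)) : ‖ψ ⟨th ω' Z i, h⟩‖ ≤ HH ω ω' * T := by
  have hT0 : (0 : ℝ) ≤ T := by linarith
  have h1 : ∀ σ : k →+* M, ‖ψ ⟨Z σ, hZS σ⟩‖ ≤ (1 + ∑ i, hs (ω i : k)) * T := by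
    intro σ
    have h2 : ‖ψ ⟨Z σ, hZS σ⟩‖ ^ n ≤ (∑ i, hs (ω i : k)) * T := by
      rw [← norm_pow, ← map_pow]
      have h3 : (⟨Z σ, hZS σ⟩ : Sc (algebraMap L M α)) ^ n =
          ⟨qs ω q σ, qs_mem_Sc ω q hq σ⟩ := Subtype.ext (hZ σ)
      rw [h3, psi_qs ω q hq, Finset.sum_mul]
      refine (norm_sum_le _ _).trans (Finset.sum_le_sum fun j _ => ?_)
      rw [norm_mul, mul_comm]
      exact mul_le_mul (norm_hom_le _ _) (hqT j) (norm_nonneg _) (hs_nonneg _)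
    have h0 : 0 ≤ ∑ i, hs (ω i : k) := Finset.sum_nonneg fun i _ => hs_nonneg _
    rcases le_total ‖ψ ⟨Z σ, hZS σ⟩‖ 1 with h4 | h4
    · refine h4.trans ?_
      nlinarith [mul_nonneg h0 hT0]
    · have h5 : ‖ψ ⟨Z σ, hZS σ⟩‖ ≤ ‖ψ ⟨Z σ, hZS σ⟩‖ ^ n :=
        le_self_pow₀ h4 (by omega)
      nlinarith
  rw [psi_th ω' Z hZS ψ i h]
  refine (norm_sum_le _ _).trans ?_
  have h2 : ∀ σ : k →+* M, ‖rho ψ σ (ω' i) * ψ ⟨Z σ, hZS σ⟩‖ ≤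
      (∑ i, hs (ω' i : k)) * ((1 + ∑ i, hs (ω i : k)) * T) := by
    intro σ
    rw [norm_mul]
    apply mul_le_mul _ (h1 σ) (norm_nonneg _) (Finset.sum_nonneg fun i _ => hs_nonneg _)
    refine (norm_hom_le _ _).trans ?_
    exact Finset.single_le_sum (f := fun i => hs (ω' i : k)) (fun _ _ => hs_nonneg _)
      (Finset.mem_univ i)
  refine (Finset.sum_le_sum fun σ _ => h2 σ).trans ?_
  rw [Finset.sum_const, Finset.card_univ, NumberField.Embeddings.card, nsmul_eq_mul, HH]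
  apply le_of_eq
  ring

end Pool.Agent.K1H93.NF
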