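import Pool.Agent.K1H93.NF.Cau
import Pool.Agent.K1H93.TG.Mat
import Pool.Agent.H322R2.Ev

set_option autoImplicit false

/-! Bounds for the coefficients of a monic polynomial from bounds for its complex zeros. -/

open Polynomial

namespace Pool.Agent.K1H93.NF

open Pool.Agent.H322R2 Pool.Agent.K1H93.TG

lemma evf_eval (p : ℤ[X]) (x : ℂ) : evf x p = (p.map (Int.castRingHom ℂ)).eval x := by
  rw [evf, coe_eval₂RingHom, eval_map]

lemma growth_coeff (G : ℤ[X][X]) (hG : G.Monic) (B : ℝ) (κ : ℕ) (hB : 1 ≤ B)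
    (h : ∀ x t : ℂ, ev x t G = 0 → ‖t‖ ≤ B * max 1 ‖x‖ ^ κ) (x : ℂ) (j : ℕ) :
    ‖evf x (G.coeff j)‖ ≤ (2 * B) ^ G.natDegree * max 1 ‖x‖ ^ (κ * G.natDegree) := by
  have hm1 : (1 : ℝ) ≤ max 1 ‖x‖ := le_max_left _ _
  have h1 := coeff_le_of_roots_le (p := G) (f := evf x) (B := B * max 1 ‖x‖ ^ κ) j hG
    (IsAlgClosed.splits _) (by
      intro z hz
      apply h x z
      rw [ev_apply]
      have := (mem_roots'.1 hz).2
      rwa [IsRoot.def, eval_map] at this)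
  rw [coeff_map] at h1
  refine h1.trans ?_
  have hb1 : 1 ≤ B * max 1 ‖x‖ ^ κ := one_le_mul_of_one_le_of_one_le hB (one_le_pow₀ hm1)
  have h2 : ((G.natDegree.choose j : ℕ) : ℝ) ≤ 2 ^ G.natDegree := by
    have := Nat.choose_le_two_pow G.natDegree j
    exact_mod_cast this
  calc (B * max 1 ‖x‖ ^ κ) ^ (G.natDegree - j) * (G.natDegree.choose j : ℝ)
      ≤ (B * max 1 ‖x‖ ^ κ) ^ G.natDegree * 2 ^ G.natDegree := by
        apply mul_le_mul _ h2 (Nat.cast_nonneg _) (by positivity)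
        exact pow_le_pow_right₀ hb1 (Nat.sub_le _ _)
    _ = (2 * B) ^ G.natDegree * max 1 ‖x‖ ^ (κ * G.natDegree) := by
        rw [mul_pow, mul_pow, ← pow_mul]; ring

lemma growth_ID (G : ℤ[X][X]) (hG : G.Monic) (B : ℝ) (κ : ℕ) (hB : 1 ≤ B)
    (h : ∀ x t : ℂ, ev x t G = 0 → ‖t‖ ≤ B * max 1 ‖x‖ ^ κ) :
    ID (κ * G.natDegree) G ∧
    pn (pn zn) G ≤ (G.natDegree + 1) * ((κ * G.natDegree + 1) * (2 * B) ^ G.natDegree) := by
  have key : ∀ j, (G.coeff j).natDegree ≤ κ * G.natDegree ∧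
      ∀ i, |((G.coeff j).coeff i : ℝ)| ≤ (2 * B) ^ G.natDegree := by
    intro j
    have h1 := coeff_bound ((G.coeff j).map (Int.castRingHom ℂ)) ((2 * B) ^ G.natDegree)
      (κ * G.natDegree) (by
        intro x
        rw [← evf_eval]
        exact growth_coeff G hG B κ hB h x j)
    rw [natDegree_map_eq_of_injective (RingHom.injective_int _)] at h1
    refine ⟨h1.1, fun i => ?_⟩
    have h2 := h1.2 i
    rw [coeff_map] at h2
    have h3 : ‖(Int.castRingHom ℂ) ((G.coeff j).coeff i)‖ = |((G.coeff j).coeff i : ℝ)| := by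
      rw [eq_intCast, Complex.norm_intCast]
    rwa [h3] at h2
  refine ⟨fun j => (key j).1, ?_⟩
  have hpow : (0 : ℝ) ≤ (2 * B) ^ G.natDegree := by positivity
  have h4 : ∀ j, pn zn (G.coeff j) ≤ (κ * G.natDegree + 1) * (2 * B) ^ G.natDegree := by
    intro j
    rw [pn_eq_range zn (G.coeff j) (Nat.lt_succ_of_le (key j).1)]
    have : ∀ i ∈ Finset.range (κ * G.natDegree + 1), zn ((G.coeff j).coeff i) ≤
        (2 * B) ^ G.natDegree := by
      intro i _
      rw [zn_apply]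
      exact (key j).2 i
    refine (Finset.sum_le_sum this).trans ?_
    rw [Finset.sum_const, Finset.card_range, nsmul_eq_mul]
    push_cast
    exact le_rfl
  rw [pn_eq_range _ G (Nat.lt_succ_self _)]
  refine (Finset.sum_le_sum (fun j _ => h4 j)).trans ?_
  rw [Finset.sum_const, Finset.card_range, nsmul_eq_mul]
  push_cast
  exact le_rfl

/-- extension of homomorphisms to integral extensions -/
theorem ext_hom {R S : Type} [CommRing R] [CommRing S] [Algebra R S] [FaithfulSMul R S]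
    [Algebra.IsIntegral R S] (φ : R →+* ℂ) : ∃ ψ : S →+* ℂ, ∀ r, ψ (algebraMap R S r) = φ r := by
  obtain ⟨P, hPφ⟩ : ∃ P : Ideal R, P = RingHom.ker φ := ⟨_, rfl⟩
  have hP : P.IsPrime := by rw [hPφ]; exact RingHom.ker_isPrime φ
  obtain ⟨⟨Q, hQ, hQP⟩⟩ := Ideal.nonempty_primesOver (S := S) P
  have hD1 : IsDomain (R ⧸ P) := Ideal.Quotient.isDomain P
  have hD2 : IsDomain (S ⧸ Q) := Ideal.Quotient.isDomain Q
  obtain ⟨φ', hφ'⟩ : ∃ φ' : (R ⧸ P) →+* ℂ, ∀ r, φ' (Ideal.Quotient.mk P r) = φ r :=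
    ⟨Ideal.Quotient.lift P φ (fun a ha => by rw [hPφ] at ha; exact ha), fun r => rfl⟩
  have hinj : Function.Injective φ' := by
    rw [injective_iff_map_eq_zero]
    intro a ha
    obtain ⟨r, rfl⟩ := Ideal.Quotient.mk_surjective a
    rw [hφ'] at ha
    rw [Ideal.Quotient.eq_zero_iff_mem, hPφ]
    exact ha
  let _ : Algebra (R ⧸ P) ℂ := φ'.toAlgebra
  have h1 : FaithfulSMul (R ⧸ P) ℂ := (faithfulSMul_iff_algebraMap_injective _ _).2 hinj
  have h2 : Algebra.IsIntegral (R ⧸ P) (S ⧸ Q) := by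
    constructor
    intro z
    obtain ⟨x, rfl⟩ := Ideal.Quotient.mk_surjective z
    obtain ⟨f, hf, hfx⟩ := Algebra.IsIntegral.isIntegral (R := R) x
    refine ⟨f.map (Ideal.Quotient.mk P), hf.map _, ?_⟩
    rw [eval₂_map]
    have h3 : (algebraMap (R ⧸ P) (S ⧸ Q)).comp (Ideal.Quotient.mk P) =
        (Ideal.Quotient.mk Q).comp (algebraMap R S) := by
      ext r; rfl
    rw [h3, ← hom_eval₂, hfx, map_zero]
  have h4 : Module.IsTorsionFree (R ⧸ P) (S ⧸ Q) := Module.isTorsionFree_iff_faithfulSMul.2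
    (Ideal.Quotient.instFaithfulSMul Q P)
  have h5 : Module.IsTorsionFree (R ⧸ P) ℂ := Module.isTorsionFree_iff_faithfulSMul.2 h1
  let ψ0 : (S ⧸ Q) →ₐ[R ⧸ P] ℂ := IsAlgClosed.lift
  refine ⟨(ψ0 : (S ⧸ Q) →+* ℂ).comp (Ideal.Quotient.mk Q), fun r => ?_⟩
  rw [← hφ' r]
  exact ψ0.commutes (Ideal.Quotient.mk P r)

end Pool.Agent.K1H93.NF
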