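import Mathlib

set_option autoImplicit false

/-! A primitive element `∑ t ^ i θ i` with a small natural number `t`. -/

open Polynomial IntermediateField

namespace Pool.Agent.K1H93.NF

lemma exists_prim (K E : Type) [Field K] [Field E] [CharZero K] [Algebra K E] [FiniteDimensional K E]
    (r : ℕ) (θ : Fin r → E) (hgen : IntermediateField.adjoin K (Set.range θ) = ⊤) :
    ∃ t : ℕ, t ≤ Module.finrank K E * r ∧ K⟮∑ i : Fin r, (t : E) ^ (i : ℕ) * θ i⟯ = ⊤ := by
  classical
  have : CharZero E := charZero_of_injective_algebraMap (algebraMap K E).injective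
  obtain ⟨Mc, _, _, _⟩ : ∃ (Mc : Type) (_ : Field Mc) (_ : Algebra K Mc), IsAlgClosed Mc :=
    ⟨AlgebraicClosure K, inferInstance, inferInstance, inferInstance⟩
  have hMc : CharZero Mc := charZero_of_injective_algebraMap (algebraMap K Mc).injective
  have hcard : Fintype.card (E →ₐ[K] Mc) = Module.finrank K E := AlgHom.card K E Mc
  have hne : Nonempty (E →ₐ[K] Mc) := by
    rw [← Fintype.card_pos_iff, hcard]
    exact Module.finrank_pos
  obtain ⟨φ⟩ := hne
  have hsplit : ∀ x : E, ((minpoly K x).map (algebraMap K Mc)).Splits := fun x =>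
    IsAlgClosed.splits _
  obtain ⟨P, hP⟩ : ∃ P : (E →ₐ[K] Mc) → Mc[X], ∀ ψ, P ψ = ∑ i : Fin r, C (φ (θ i) - ψ (θ i)) *
      X ^ (i : ℕ) := ⟨_, fun _ => rfl⟩
  have hPdeg : ∀ ψ, (P ψ).natDegree ≤ r := by
    intro ψ
    rw [hP]
    apply natDegree_sum_le_of_forall_le
    intro i _
    exact (natDegree_C_mul_X_pow_le _ _).trans i.2.le
  have hPcoeff : ∀ ψ (i : Fin r), (P ψ).coeff i = φ (θ i) - ψ (θ i) := by
    intro ψ i
    rw [hP, finsetSum_coeff, Finset.sum_eq_single i]
    · rw [coeff_C_mul, coeff_X_pow, if_pos rfl, mul_one]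
    · intro j _ hj
      rw [coeff_C_mul, coeff_X_pow, if_neg (fun h => hj (Fin.ext h.symm)), mul_zero]
    · intro h; exact absurd (Finset.mem_univ _) h
  have hPne : ∀ ψ, ψ ≠ φ → P ψ ≠ 0 := by
    intro ψ hψ h0
    apply hψ
    have h1 : ∀ i, φ (θ i) = ψ (θ i) := by
      intro i
      have := hPcoeff ψ i
      rw [h0, coeff_zero] at this
      exact (sub_eq_zero.1 this.symm)
    have h2 : ∀ z ∈ IntermediateField.adjoin K (Set.range θ), φ z = ψ z := by
      intro z hz
      induction hz using IntermediateField.adjoin_induction with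
      | mem x hx => obtain ⟨i, rfl⟩ := hx; exact h1 i
      | algebraMap x => rw [AlgHom.commutes, AlgHom.commutes]
      | add x y _ _ hx hy => rw [map_add, map_add, hx, hy]
      | inv x _ hx => rw [map_inv₀, map_inv₀, hx]
      | mul x y _ _ hx hy => rw [map_mul, map_mul, hx, hy]
    ext z
    exact (h2 z (hgen ▸ IntermediateField.mem_top)).symm
  obtain ⟨bad, hbad⟩ : ∃ bad : Finset Mc, bad =
      (Finset.univ.erase φ).biUnion (fun ψ => (P ψ).roots.toFinset) := ⟨_, rfl⟩
  have hbc : bad.card ≤ Module.finrank K E * r := by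
    rw [hbad]
    refine (Finset.card_biUnion_le).trans ?_
    have h1 : ∀ ψ ∈ Finset.univ.erase φ, (P ψ).roots.toFinset.card ≤ r := fun ψ _ =>
      (Multiset.toFinset_card_le _).trans ((card_roots' _).trans (hPdeg ψ))
    refine (Finset.sum_le_sum h1).trans ?_
    rw [Finset.sum_const, smul_eq_mul]
    apply Nat.mul_le_mul_right
    rw [← hcard, Fintype.card]
    exact Finset.card_le_card (Finset.erase_subset _ _)
  obtain ⟨t, ht, htb⟩ : ∃ t : ℕ, t ≤ Module.finrank K E * r ∧ (t : Mc) ∉ bad := by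
    by_contra hcon
    push Not at hcon
    have h1 : (Finset.range (Module.finrank K E * r + 1)).image (fun t : ℕ => (t : Mc)) ⊆ bad := by
      intro z hz
      obtain ⟨t, ht, rfl⟩ := Finset.mem_image.1 hz
      rw [Finset.mem_range] at ht
      exact hcon t (by omega)
    have h2 := Finset.card_le_card h1
    rw [Finset.card_image_of_injective _ Nat.cast_injective, Finset.card_range] at h2
    omega
  refine ⟨t, ht, ?_⟩
  rw [Field.primitive_element_iff_algHom_eq_of_eval K Mc hsplit _ φ]
  intro ψ hψ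
  by_contra hne
  apply htb
  rw [hbad, Finset.mem_biUnion]
  refine ⟨ψ, Finset.mem_erase.2 ⟨fun h => hne h.symm, Finset.mem_univ _⟩, ?_⟩
  rw [Multiset.mem_toFinset, mem_roots (hPne ψ (fun h => hne h.symm)), IsRoot.def, hP,
    eval_finsetSum]
  rw [map_sum, map_sum, ← sub_eq_zero, ← Finset.sum_sub_distrib] at hψ
  rw [← hψ]
  apply Finset.sum_congr rfl
  intro i _
  rw [eval_mul, eval_C, eval_pow, eval_X, map_mul, map_mul, map_pow, map_pow, map_natCast,
    map_natCast]
  ring

end Pool.Agent.K1H93.NF
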