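import Pool.Agent.Y910.G.P5
import Pool.Agent.K1H93.TG.Cov
import Pool.Agent.K1H93.NF.Mon
import Pool.Agent.K1H93.NF.Prm

set_option autoImplicit false

/-! The bound for the integer points on space curves. -/

open Polynomial IntermediateField

namespace Pool.Agent.K1H93.NF

open Pool.Agent.H322R2 Pool.Agent.K1H93.TG

/-- `ℚ(X)` as the fraction field of `ℤ[X]` -/
abbrev FF : Type := FractionRing ℤ[X]

/-- `ℚ(X) → E`, `X ↦ α` -/
noncomputable def liftF {E : Type} [Field E] (α : E) (hα : Function.Injective (evf α)) : FF →+* E :=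
  IsFractionRing.lift (g := evf α) hα

lemma liftF_apply {E : Type} [Field E] (α : E) (hα : Function.Injective (evf α)) (p : ℤ[X]) :
    liftF α hα (algebraMap ℤ[X] FF p) = evf α p := by
  rw [liftF, IsFractionRing.lift_algebraMap]

lemma evf_aeval {E : Type} [Field E] [Algebra ℚ E] (α : E) (p : ℤ[X]) :
    evf α p = aeval α (p.map (Int.castRingHom ℚ)) := by
  rw [aeval_def, eval₂_map, evf, coe_eval₂RingHom]
  congr 1
  exact RingHom.ext_int _ _

lemma evf_inj {E : Type} [Field E] [Algebra ℚ E] (α : E) (hα : Transcendental ℚ α) :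
    Function.Injective (evf α) := by
  rw [injective_iff_map_eq_zero]
  intro p hp
  rw [evf_aeval] at hp
  have h1 := transcendental_iff_injective.1 hα
  have h2 : p.map (Int.castRingHom ℚ) = 0 := h1 (by rw [hp, map_zero])
  exact (Polynomial.map_eq_zero_iff (RingHom.injective_int _)).1 h2

lemma clear (w : MvPolynomial (Fin 2) ℚ) : ∃ (m : ℤ) (w' : MvPolynomial (Fin 2) ℤ), m ≠ 0 ∧
    MvPolynomial.map (Int.castRingHom ℚ) w' = MvPolynomial.C (m : ℚ) * w := by
  induction w using MvPolynomial.induction_on with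
  | C a =>
    refine ⟨a.den, MvPolynomial.C a.num, by exact_mod_cast a.den_nz, ?_⟩
    rw [MvPolynomial.map_C, ← MvPolynomial.C_mul]
    congr 1
    rw [eq_intCast, Int.cast_natCast, mul_comm]
    exact (Rat.mul_den_eq_num a).symm
  | add p q hp hq =>
    obtain ⟨m, p', hm, hp'⟩ := hp
    obtain ⟨n, q', hn, hq'⟩ := hq
    refine ⟨m * n, MvPolynomial.C n * p' + MvPolynomial.C m * q', mul_ne_zero hm hn, ?_⟩
    rw [map_add, map_mul, map_mul, MvPolynomial.map_C, MvPolynomial.map_C, hp', hq', eq_intCast,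
      eq_intCast]
    push_cast
    rw [MvPolynomial.C_mul]
    ring
  | mul_X p i hp =>
    obtain ⟨m, p', hm, hp'⟩ := hp
    refine ⟨m, p' * MvPolynomial.X i, hm, ?_⟩
    rw [map_mul, MvPolynomial.map_X, hp', mul_assoc]

section

variable {E : Type} [Field E] [Algebra ℚ E]

/-- evaluation of rational polynomials in `θ` (first variable) and `α` (second variable) -/
noncomputable def piE (α θ : E) : MvPolynomial (Fin 2) ℚ →ₐ[ℚ] E := MvPolynomial.aeval ![θ, α]

lemma piE_map (α θ : E) (P : MvPolynomial (Fin 2) ℤ) :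
    piE α θ (MvPolynomial.map (Int.castRingHom ℚ) P) = ev α θ (toB ℤ P) := by
  rw [ev_toB]
  have : (piE α θ : MvPolynomial (Fin 2) ℚ →+* E).comp (MvPolynomial.map (Int.castRingHom ℚ)) =
      MvPolynomial.eval₂Hom (Int.castRingHom E) ![θ, α] := by
    apply MvPolynomial.ringHom_ext
    · intro q
      simp
    · intro i
      simp [piE]
  exact congrArg (fun φ : MvPolynomial (Fin 2) ℤ →+* E => φ P) this

end

theorem space (N κ r : ℕ) (hN : 1 ≤ N) :
    ∃ (C0 : ℕ) (c0 : IntermediateField ℚ ℝ → ℕ), 1 ≤ C0 ∧ (∀ M, 1 ≤ c0 M) ∧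
      ∀ (E : Type) [Field E] [Algebra ℚ E] (α : E) (hα : Transcendental ℚ α) (θ : Fin r → E)
        (S : Subring E) (hαS : α ∈ S) (hθS : ∀ i, θ i ∈ S),
      (∀ z ∈ S, ∃ G : ℤ[X][X], G.Monic ∧ ev α z G = 0) →
      IntermediateField.adjoin ℚ (insert α (Set.range θ)) = ⊤ →
      @Module.finrank FF E _ _ (liftF α (evf_inj α hα)).toAlgebra.toModule ≤ N →
      ∀ B : ℕ, 1 ≤ B →
      (∀ φ : S →+* ℂ, ∀ i, ‖φ ⟨θ i, hθS i⟩‖ ≤ B * max 1 ‖φ ⟨α, hαS⟩‖ ^ κ) →
      ∀ (p : S →+* ℂ) (a : ℤ) (b : Fin r → ℤ), p ⟨α, hαS⟩ = a → (∀ i, p ⟨θ i, hθS i⟩ = b i) →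
      a.natAbs ≤ (C0 * B) ^ C0 ∨
      ∃ A : ValuationSubring E, (∀ A' : ValuationSubring E,
        (∀ q : ℚ, algebraMap ℚ E q ∈ A') → α ∉ A' → A' = A) ∧
        ∃ g : ℚ[X], g.Monic ∧ Irreducible g ∧
          Nonempty (IsLocalRing.ResidueField A ≃+* AdjoinRoot g) ∧
          ∃ η : ℝ, aeval η g = 0 ∧ (g.natDegree ≤ 2 ∨ a.natAbs ≤ (c0 ℚ⟮η⟯ * B) ^ C0) := by
  choose C1 c1 hC using Pool.Agent.Y910.G.main
  obtain ⟨D2, hD2⟩ : ∃ D2, D2 = N + κ * N := ⟨_, rfl⟩
  obtain ⟨C2, hC2⟩ : ∃ C2, C2 = 1 + ∑ d ∈ Finset.range (D2 + 1), C1 d := ⟨_, rfl⟩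
  obtain ⟨c2, hc2⟩ : ∃ c2 : IntermediateField ℚ ℝ → ℕ, c2 = fun M =>
    1 + ∑ d ∈ Finset.range (D2 + 1), c1 d M := ⟨_, rfl⟩
  obtain ⟨T, hT⟩ : ∃ T, T = 1 + r * (N * r + 1) ^ r := ⟨_, rfl⟩
  obtain ⟨M1, hM1⟩ : ∃ M1, M1 = (N + 1) * (κ * N + 1) * (2 * T) := ⟨_, rfl⟩
  have hT1 : 1 ≤ T := by rw [hT]; exact Nat.le_add_right _ _
  have hM1' : 1 ≤ M1 := by
    rw [hM1]
    exact Nat.mul_pos (Nat.mul_pos (by omega) (by omega)) (by omega)
  refine ⟨C2 * M1 + N * C2, fun M => c2 M * M1, ?_, ?_, ?_⟩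
  · have : 0 < C2 * M1 := Nat.mul_pos (by omega) (by omega)
    omega
  · intro M
    have : 1 ≤ c2 M := by rw [hc2]; exact Nat.le_add_right 1 _
    exact Nat.mul_pos this (by omega)
  intro E _ _ α hα θ S hαS hθS hint hgen hdeg B hB hgrow p a b hpa hpb
  have hinj := evf_inj α hα
  let _ : Algebra FF E := (liftF α (evf_inj α hα)).toAlgebra
  let _ : Algebra ℤ[X] E := (evf α).toAlgebra
  have htower : IsScalarTower ℤ[X] FF E := by
    apply IsScalarTower.of_algebraMap_eq
    intro q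
    exact (liftF_apply α hinj q).symm
  have hchar : CharZero FF := by
    have : CharZero ℤ[X] := inferInstance
    exact charZero_of_injective_algebraMap (IsFractionRing.injective ℤ[X] FF)
  have hcharE : CharZero E := algebraRat.charZero E
  have htf : Module.IsTorsionFree ℤ[X] E := Module.isTorsionFree_iff_algebraMap_injective.2 hinj
  have hintS : ∀ z ∈ S, IsIntegral ℤ[X] z := by
    intro z hz
    obtain ⟨G, hG, hz⟩ := hint z hz
    exact ⟨G, hG, hz⟩
  have hgenF : IntermediateField.adjoin FF (Set.range θ) = ⊤ := by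
    rw [eq_top_iff]
    rintro z -
    have hz : z ∈ IntermediateField.adjoin ℚ (insert α (Set.range θ)) := by
      rw [hgen]; exact IntermediateField.mem_top
    have hαm : α ∈ IntermediateField.adjoin FF (Set.range θ) := by
      have h1 : algebraMap FF E (algebraMap ℤ[X] FF X) = α := by
        have := liftF_apply α hinj X
        rw [evf_X] at this
        exact this
      rw [← h1]
      exact (IntermediateField.adjoin FF (Set.range θ)).algebraMap_mem _
    induction hz using IntermediateField.adjoin_induction with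
    | mem x hx =>
      rcases hx with rfl | hx
      · exact hαm
      · exact IntermediateField.subset_adjoin _ _ hx
    | algebraMap x =>
      have : algebraMap ℚ E x = ((x : ℚ) : E) := by rw [eq_ratCast]
      rw [this]
      exact SubfieldClass.ratCast_mem _ x
    | add x y _ _ hx hy => exact add_mem hx hy
    | inv x _ hx => exact inv_mem hx
    | mul x y _ _ hx hy => exact mul_mem hx hy
  have hfd : FiniteDimensional FF E := by
    have h1 : FiniteDimensional FF (IntermediateField.adjoin FF (Set.range θ)) := by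
      apply IntermediateField.finiteDimensional_adjoin
      rintro x ⟨i, rfl⟩
      exact (hintS _ (hθS i)).tower_top
    rw [hgenF] at h1
    exact (IntermediateField.topEquiv (F := FF) (E := E)).toLinearEquiv.finiteDimensional
  obtain ⟨t, ht, hprim⟩ := exists_prim FF E r θ hgenF
  obtain ⟨v, hv⟩ : ∃ v, v = ∑ i : Fin r, (t : E) ^ (i : ℕ) * θ i := ⟨_, rfl⟩
  rw [← hv] at hprim
  have hvS : v ∈ S := by
    rw [hv]
    exact sum_mem fun i _ => mul_mem (pow_mem (natCast_mem S t) _) (hθS i)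
  have hvint : IsIntegral ℤ[X] v := hintS v hvS
  obtain ⟨G, hG⟩ : ∃ G, G = minpoly ℤ[X] v := ⟨_, rfl⟩
  have hGm : G.Monic := by rw [hG]; exact minpoly.monic hvint
  have hGv : ev α v G = 0 := by rw [hG]; exact minpoly.aeval ℤ[X] v
  have hGdvd : ∀ W : ℤ[X][X], ev α v W = 0 → G ∣ W := by
    intro W hW
    rw [hG]
    exact minpoly.isIntegrallyClosed_dvd hvint hW
  have hGdeg : G.natDegree = Module.finrank FF E := by
    have h1 := minpoly.isIntegrallyClosed_eq_field_fractions FF E hvint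
    have h2 : (minpoly FF v).natDegree = G.natDegree := by
      have h3 : minpoly FF v = (minpoly ℤ[X] v).map (algebraMap ℤ[X] FF) := h1
      rw [h3, ← hG, hGm.natDegree_map]
    rw [← h2, ← adjoin.finrank hvint.tower_top, hprim, IntermediateField.finrank_top']
  have hGN : G.natDegree ≤ N := by rw [hGdeg]; exact hdeg
  have hG1 : 1 ≤ G.natDegree := by rw [hGdeg]; exact Module.finrank_pos
  -- growth
  have hgrowG : ∀ x s : ℂ, ev x s G = 0 → ‖s‖ ≤ ((T * B : ℕ) : ℝ) * max 1 ‖x‖ ^ κ := by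
    intro x s hxs
    obtain ⟨u, hu⟩ : ∃ u : AdjoinRoot G →+* S, ∀ W : ℤ[X][X],
        u (AdjoinRoot.mk G W) = ev (⟨α, hαS⟩ : S) ⟨v, hvS⟩ W := by
      refine ⟨AdjoinRoot.lift (evf (⟨α, hαS⟩ : S)) ⟨v, hvS⟩ ?_, fun W => ?_⟩
      · apply Subtype.ext
        have := map_ev S.subtype (⟨α, hαS⟩ : S) ⟨v, hvS⟩ G
        exact this.trans hGv
      · rw [AdjoinRoot.lift_mk]; rfl
    have huc : ∀ W : ℤ[X][X], ((u (AdjoinRoot.mk G W) : S) : E) = ev α v W := by
      intro W
      rw [hu]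
      exact map_ev S.subtype (⟨α, hαS⟩ : S) ⟨v, hvS⟩ W
    have huinj : Function.Injective u := by
      rw [injective_iff_map_eq_zero]
      intro z hz
      obtain ⟨W, rfl⟩ := AdjoinRoot.mk_surjective z
      rw [AdjoinRoot.mk_eq_zero]
      apply hGdvd
      rw [← huc, hz]; rfl
    let _ : Algebra (AdjoinRoot G) S := u.toAlgebra
    have hfs : FaithfulSMul (AdjoinRoot G) S := (faithfulSMul_iff_algebraMap_injective _ _).2 huinj
    have hui : Algebra.IsIntegral (AdjoinRoot G) S := by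
      constructor
      rintro ⟨z, hz⟩
      obtain ⟨W, hW, hWz⟩ := hint z hz
      refine ⟨W.map (AdjoinRoot.of G), hW.map _, ?_⟩
      rw [eval₂_map]
      have h1 : (algebraMap (AdjoinRoot G) S).comp (AdjoinRoot.of G) = evf (⟨α, hαS⟩ : S) := by
        apply RingHom.ext
        intro q
        change u (AdjoinRoot.of G q) = _
        have := hu (C q)
        rw [ev_C] at this
        exact this
      rw [h1]
      apply Subtype.ext
      have := map_ev S.subtype (⟨α, hαS⟩ : S) ⟨z, hz⟩ W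
      exact this.trans hWz
    obtain ⟨φ0, hφ0⟩ : ∃ φ0 : AdjoinRoot G →+* ℂ, ∀ W : ℤ[X][X],
        φ0 (AdjoinRoot.mk G W) = ev x s W :=
      ⟨AdjoinRoot.lift (evf x) s hxs, fun W => AdjoinRoot.lift_mk (i := evf x) (a := s) hxs W⟩
    obtain ⟨ψ, hψ⟩ := ext_hom (S := S) φ0
    have hψα : ψ ⟨α, hαS⟩ = x := by
      have h1 := hψ (AdjoinRoot.mk G (C X))
      rw [hφ0, ev_C, evf_X] at h1
      rw [← h1]
      congr 1
      apply Subtype.ext
      have h2 := huc (C X)
      rw [ev_C, evf_X] at h2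
      exact h2.symm
    have hψv : ψ ⟨v, hvS⟩ = s := by
      have h1 := hψ (AdjoinRoot.mk G X)
      rw [hφ0, ev_X] at h1
      rw [← h1]
      congr 1
      apply Subtype.ext
      have h2 := huc X
      rw [ev_X] at h2
      exact h2.symm
    have hsum : s = ∑ i : Fin r, (t : ℂ) ^ (i : ℕ) * ψ ⟨θ i, hθS i⟩ := by
      rw [← hψv]
      have h1 : (⟨v, hvS⟩ : S) = ∑ i : Fin r, (t : S) ^ (i : ℕ) * ⟨θ i, hθS i⟩ := by
        apply Subtype.ext
        push_cast
        exact hv
      rw [h1, map_sum]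
      apply Finset.sum_congr rfl
      intro i _
      rw [map_mul, map_pow, map_natCast]
    rw [hsum]
    refine (norm_sum_le _ _).trans ?_
    have hm0 : (0 : ℝ) ≤ max 1 ‖x‖ ^ κ := by positivity
    have htN : t ≤ N * r := ht.trans (Nat.mul_le_mul_right _ hdeg)
    have hterm : ∀ i : Fin r, ‖(t : ℂ) ^ (i : ℕ) * ψ ⟨θ i, hθS i⟩‖ ≤
        (((N * r + 1) ^ r : ℕ) : ℝ) * (B * max 1 ‖x‖ ^ κ) := by
      intro i
      rw [norm_mul, norm_pow, Complex.norm_natCast]
      apply mul_le_mul _ _ (norm_nonneg _) (Nat.cast_nonneg _)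
      · have h1 : t ^ (i : ℕ) ≤ (N * r + 1) ^ r :=
          (Nat.pow_le_pow_left (by omega) _).trans (Nat.pow_le_pow_right (by omega) i.2.le)
        exact_mod_cast h1
      · have := hgrow ψ i
        rwa [hψα] at this
    refine (Finset.sum_le_sum fun i _ => hterm i).trans ?_
    rw [Finset.sum_const, Finset.card_univ, Fintype.card_fin, nsmul_eq_mul]
    have h2 : ((r * (N * r + 1) ^ r : ℕ) : ℝ) ≤ T := by
      rw [hT]; push_cast; linarith
    calc (r : ℝ) * ((((N * r + 1) ^ r : ℕ) : ℝ) * (B * max 1 ‖x‖ ^ κ))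
        = ((r * (N * r + 1) ^ r : ℕ) : ℝ) * (B * max 1 ‖x‖ ^ κ) := by push_cast; ring
      _ ≤ T * (B * max 1 ‖x‖ ^ κ) := mul_le_mul_of_nonneg_right h2 (by positivity)
      _ = _ := by push_cast; ring
  have hTB : (1 : ℝ) ≤ ((T * B : ℕ) : ℝ) := by exact_mod_cast Nat.mul_pos hT1 hB
  obtain ⟨hGID, hGpn⟩ := growth_ID G hGm _ κ hTB hgrowG
  -- the plane curve
  obtain ⟨P, hP⟩ : ∃ P, P = (toB ℤ).symm G := ⟨_, rfl⟩
  have hPG : toB ℤ P = G := by rw [hP, AlgEquiv.apply_symm_apply]
  have hk : ∀ w, piE α v w = 0 ↔ MvPolynomial.map (Int.castRingHom ℚ) P ∣ w := by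
    intro w
    constructor
    · intro hw
      obtain ⟨m, w', hm, hw'⟩ := clear w
      have h1 : piE α v (MvPolynomial.map (Int.castRingHom ℚ) w') = 0 := by
        rw [hw', map_mul, hw, mul_zero]
      rw [piE_map] at h1
      have h2 := hGdvd _ h1
      rw [← hPG] at h2
      have h3 : P ∣ w' := (map_dvd_iff (toB ℤ)).1 h2
      have h4 := map_dvd (MvPolynomial.map (σ := Fin 2) (Int.castRingHom ℚ)) h3
      rw [hw'] at h4
      have hm' : IsUnit (MvPolynomial.C (m : ℚ) : MvPolynomial (Fin 2) ℚ) :=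
        (isUnit_iff_ne_zero.2 (by exact_mod_cast hm)).map MvPolynomial.C
      exact (hm'.dvd_mul_left).1 h4
    · rintro ⟨q, rfl⟩
      rw [map_mul, piE_map, hPG, hGv, zero_mul]
  have hP0 : P ≠ 0 := by
    rintro rfl
    rw [map_zero] at hPG
    exact hGm.ne_zero hPG.symm
  have hPq0 : MvPolynomial.map (Int.castRingHom ℚ) P ≠ 0 := by
    intro h0
    apply hP0
    apply MvPolynomial.map_injective _ (RingHom.injective_int (Int.castRingHom ℚ))
    rw [h0, map_zero]
  have hPprime : Prime (MvPolynomial.map (Int.castRingHom ℚ) P) := by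
    refine ⟨hPq0, ?_, ?_⟩
    · intro hu
      have h1 : piE α v 1 = 0 := (hk 1).2 hu.dvd
      rw [map_one] at h1
      exact one_ne_zero h1
    · intro x y hxy
      rw [← hk, map_mul, mul_eq_zero] at hxy
      rcases hxy with h | h
      · exact Or.inl ((hk x).1 h)
      · exact Or.inr ((hk y).1 h)
  have hs2 : ∀ z : E, ∃ w1 w2, piE α v w2 ≠ 0 ∧ piE α v w2 * z = piE α v w1 := by
    intro z
    have hz : z ∈ FF⟮v⟯ := by rw [hprim]; exact IntermediateField.mem_top
    have hcl : z ∈ Subfield.closure (Set.range (piE α v)) := by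
      induction hz using IntermediateField.adjoin_induction with
      | mem x hx =>
        rw [Set.mem_singleton_iff.1 hx]
        apply Subfield.subset_closure
        exact ⟨MvPolynomial.X 0, by rw [piE, MvPolynomial.aeval_X]; rfl⟩
      | algebraMap x =>
        obtain ⟨p, q, hq, rfl⟩ := IsFractionRing.div_surjective (A := ℤ[X]) x
        rw [map_div₀]
        have hp : ∀ p : ℤ[X], algebraMap FF E (algebraMap ℤ[X] FF p) ∈
            Subfield.closure (Set.range (piE α v)) := by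
          intro p
          apply Subfield.subset_closure
          refine ⟨MvPolynomial.map (Int.castRingHom ℚ) ((toB ℤ).symm (C p)), ?_⟩
          rw [piE_map, AlgEquiv.apply_symm_apply, ev_C]
          exact (liftF_apply α hinj p).symm
        exact div_mem (hp p) (hp q)
      | add x y _ _ hx hy => exact add_mem hx hy
      | inv x _ hx => exact inv_mem hx
      | mul x y _ _ hx hy => exact mul_mem hx hy
    rw [Subfield.mem_closure_iff] at hcl
    obtain ⟨y1, hy1, y2, hy2, hy⟩ := hcl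
    have hrange : Subring.closure (Set.range (piE α v)) =
        ((piE α v : MvPolynomial (Fin 2) ℚ →ₐ[ℚ] E) : MvPolynomial (Fin 2) ℚ →+* E).range := by
      have : Set.range (piE α v) =
          (((piE α v : MvPolynomial (Fin 2) ℚ →ₐ[ℚ] E) :
            MvPolynomial (Fin 2) ℚ →+* E).range : Set E) := rfl
      rw [this, Subring.closure_eq]
    rw [hrange] at hy1 hy2
    obtain ⟨W1, rfl⟩ := hy1
    obtain ⟨W2, rfl⟩ := hy2
    by_cases h0 : piE α v W2 = 0
    · refine ⟨0, 1, ?_, ?_⟩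
      · rw [map_one]; exact one_ne_zero
      · rw [← hy]
        change _ * (piE α v W1 / piE α v W2) = _
        rw [h0, div_zero, mul_zero, map_zero]
    · refine ⟨W1, W2, h0, ?_⟩
      rw [← hy]
      change _ * (piE α v W1 / piE α v W2) = _
      field_simp
  -- the integer point
  obtain ⟨b0, hb0⟩ : ∃ b0 : ℤ, b0 = ∑ i : Fin r, (t : ℤ) ^ (i : ℕ) * b i := ⟨_, rfl⟩
  have hpv : p ⟨v, hvS⟩ = b0 := by
    have h1 : (⟨v, hvS⟩ : S) = ∑ i : Fin r, (t : S) ^ (i : ℕ) * ⟨θ i, hθS i⟩ := by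
      apply Subtype.ext
      push_cast
      exact hv
    rw [h1, map_sum, hb0]
    push_cast
    apply Finset.sum_congr rfl
    intro i _
    rw [map_mul, map_pow, map_natCast, hpb]
  have hzero : MvPolynomial.eval ![b0, a] P = 0 := by
    have h1 : ev (⟨α, hαS⟩ : S) ⟨v, hvS⟩ G = 0 := by
      apply Subtype.ext
      exact (map_ev S.subtype (⟨α, hαS⟩ : S) ⟨v, hvS⟩ G).trans hGv
    have h2 := map_ev p (⟨α, hαS⟩ : S) ⟨v, hvS⟩ G
    rw [h1, map_zero, hpa, hpv] at h2
    have h3 := map_ev (Int.castRingHom ℂ) a b0 G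
    rw [eq_intCast, eq_intCast, eq_intCast, ← h2] at h3
    have h4 : ev a b0 G = 0 := by exact_mod_cast h3
    have h5 := ev_toB (S := ℤ) b0 a P
    rw [hPG, h4] at h5
    rw [MvPolynomial.eval, MvPolynomial.coe_eval₂Hom]
    exact h5.symm
  have hdegP : P.totalDegree ≤ D2 := by
    rw [hP, hD2]
    refine (totalDegree_symm_toB_le G G.natDegree (κ * G.natDegree) le_rfl hGID).trans ?_
    have := Nat.mul_le_mul_left κ hGN
    omega
  have hlen : len P ≤ (M1 * B) ^ N := by
    have h1 : (len P : ℝ) ≤ (((N + 1) * ((κ * N + 1) * (2 * (T * B)) ^ N) : ℕ) : ℝ) := by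
      rw [hP]
      refine (len_symm_toB_le G).trans (hGpn.trans ?_)
      have hGNR : (G.natDegree : ℝ) ≤ N := by exact_mod_cast hGN
      have hκ0 : (0 : ℝ) ≤ κ := Nat.cast_nonneg _
      have h2 : (1 : ℝ) ≤ 2 * ((T * B : ℕ) : ℝ) := by linarith
      have h3 : (2 * ((T * B : ℕ) : ℝ)) ^ G.natDegree ≤ (2 * ((T * B : ℕ) : ℝ)) ^ N :=
        pow_le_pow_right₀ h2 hGN
      have h4 : (κ : ℝ) * G.natDegree ≤ κ * N := mul_le_mul_of_nonneg_left hGNR hκ0
      push_cast at h3 ⊢
      apply mul_le_mul (by linarith) _ (by positivity) (by positivity)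
      exact mul_le_mul (by linarith) h3 (by positivity) (by positivity)
    have h2 : len P ≤ (N + 1) * ((κ * N + 1) * (2 * (T * B)) ^ N) := by exact_mod_cast h1
    refine h2.trans ?_
    rw [hM1]
    calc (N + 1) * ((κ * N + 1) * (2 * (T * B)) ^ N)
        = ((N + 1) * (κ * N + 1)) * (2 * T * B) ^ N := by rw [← mul_assoc 2 T B]; ring
      _ ≤ ((N + 1) * (κ * N + 1)) ^ N * (2 * T * B) ^ N :=
        Nat.mul_le_mul_right _ (Nat.le_self_pow (by omega) _)
      _ = _ := by rw [← mul_pow]; ring_nf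
  have hC1 : C1 P.totalDegree ≤ C2 := by
    rw [hC2]
    have := Finset.single_le_sum (f := C1) (fun _ _ => Nat.zero_le _)
      (Finset.mem_range.2 (show P.totalDegree < D2 + 1 by omega))
    omega
  have hc1 : ∀ M, c1 P.totalDegree M ≤ c2 M := by
    intro M
    rw [hc2]
    have := Finset.single_le_sum (f := fun d => c1 d M) (fun _ _ => Nat.zero_le _)
      (Finset.mem_range.2 (show P.totalDegree < D2 + 1 by omega))
    exact this.trans (Nat.le_add_left _ _)
  have hlen1 := Pool.Agent.Y910.G.len_pos hP0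
  have hfinal : ∀ k k' : ℕ, 1 ≤ k' → k ≤ k' → (k * len P) ^ C1 P.totalDegree ≤
      (k' * M1 * B) ^ (C2 * M1 + N * C2) := by
    intro k k' hk' hkk
    have h1 : k * len P ≤ (k' * M1 * B) ^ N := by
      calc k * len P ≤ k' * (M1 * B) ^ N := Nat.mul_le_mul hkk hlen
        _ ≤ k' ^ N * (M1 * B) ^ N := Nat.mul_le_mul_right _ (Nat.le_self_pow (by omega) _)
        _ = _ := by rw [← mul_pow, mul_assoc]
    have hpos : 1 ≤ k' * M1 * B := Nat.mul_pos (Nat.mul_pos hk' (by omega)) hB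
    calc (k * len P) ^ C1 P.totalDegree ≤ ((k' * M1 * B) ^ N) ^ C1 P.totalDegree :=
          Nat.pow_le_pow_left h1 _
      _ = (k' * M1 * B) ^ (N * C1 P.totalDegree) := by rw [← pow_mul]
      _ ≤ _ := Nat.pow_le_pow_right hpos
          ((Nat.mul_le_mul_left N hC1).trans (Nat.le_add_left _ _))
  rcases hC P.totalDegree P rfl hPprime.irreducible E (piE α v) hk hs2 b0 a hzero with
    h | ⟨A, hA, g, hg1, hg2, hg3, η, hη, h⟩
  · left
    refine (h.2.trans (hfinal _ C2 (by omega) hC1)).trans ?_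
    apply Nat.pow_le_pow_left
    exact Nat.mul_le_mul_right _ (Nat.le_add_right _ _)
  · right
    refine ⟨A, ?_, g, hg1, hg2, hg3, η, hη, ?_⟩
    · intro A' hA'1 hA'2
      refine (hA A').1 ⟨hA'1, fun h => hA'2 ?_⟩
      have h1 : piE α v (MvPolynomial.X 1) = α := by rw [piE, MvPolynomial.aeval_X]; rfl
      rw [← h1]
      exact h.2
    · rcases h with h | h
      · exact Or.inl h
      · right
        have hc2' : 1 ≤ c2 ℚ⟮η⟯ := by rw [hc2]; exact Nat.le_add_right 1 _
        exact h.2.trans (hfinal _ (c2 ℚ⟮η⟯) hc2' (hc1 _))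

end Pool.Agent.K1H93.NF
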