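import Pool.Agent.K1H93.NF.Res
import Pool.Agent.K1H93.NF.Grw
import Pool.Agent.K1H93.NF.Spc

set_option autoImplicit false

/-! The bound for the integer points that lift to the covering. -/

open Polynomial NumberField IntermediateField

namespace Pool.Agent.K1H93.NF

open Pool.Agent.H322R2 Pool.Agent.K1H93.TG

lemma ev_memS {E : Type} [Field E] (S : Subring E) {x y : E} (hx : x ∈ S) (hy : y ∈ S)
    (W : ℤ[X][X]) : ev x y W ∈ S := by
  have := map_ev S.subtype ⟨x, hx⟩ ⟨y, hy⟩ W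
  change _ = ev x y W at this
  rw [← this]
  exact (ev (⟨x, hx⟩ : S) ⟨y, hy⟩ W).2

lemma finrank_FF_base {L : Type} [Field L] [Algebra ℚ L] (α β : L) (hα : Transcendental ℚ α)
    (G : ℤ[X][X]) (hG : G.Monic) (D : ℕ) (hD : G.natDegree ≤ D) (hz : ev α β G = 0)
    (hgen : ∀ z : L, ∃ W1 W2 : ℤ[X][X], ev α β W2 ≠ 0 ∧ ev α β W2 * z = ev α β W1) :
    @Module.finrank FF L _ _ (liftF α (evf_inj α hα)).toAlgebra.toModule ≤ D := by
  have hinj := evf_inj α hα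
  let _ : Algebra FF L := (liftF α (evf_inj α hα)).toAlgebra
  have hcomp : (algebraMap FF L).comp (algebraMap ℤ[X] FF) = evf α :=
    RingHom.ext fun p => liftF_apply α hinj p
  have hroot : aeval β (G.map (algebraMap ℤ[X] FF)) = 0 := by
    rw [aeval_def, eval₂_map, hcomp]
    exact hz
  have hmon : (G.map (algebraMap ℤ[X] FF)).Monic := hG.map _
  have hint : IsIntegral FF β := ⟨_, hmon, hroot⟩
  have hevmem : ∀ W : ℤ[X][X], ev α β W ∈ FF⟮β⟯ := by
    intro W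
    apply ev_memS FF⟮β⟯.toSubring
    · have h1 : algebraMap FF L (algebraMap ℤ[X] FF X) = α := by
        have := liftF_apply α hinj X
        rw [evf_X] at this
        exact this
      rw [← h1]
      exact FF⟮β⟯.algebraMap_mem _
    · exact mem_adjoin_simple_self FF β
  have htop : FF⟮β⟯ = ⊤ := by
    rw [eq_top_iff]
    rintro z -
    obtain ⟨W1, W2, h0, h1⟩ := hgen z
    have h2 : z = ev α β W1 / ev α β W2 := by
      rw [eq_div_iff h0, mul_comm]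
      exact h1
    rw [h2]
    exact div_mem (hevmem _) (hevmem _)
  have h1 : Module.finrank FF FF⟮β⟯ = (minpoly FF β).natDegree := adjoin.finrank hint
  rw [htop, IntermediateField.finrank_top'] at h1
  rw [h1]
  have h2 := natDegree_le_of_dvd (minpoly.dvd FF β hroot) hmon.ne_zero
  rw [hG.natDegree_map] at h2
  exact h2.trans hD

lemma transc_map {L E : Type} [Field L] [Field E] [Algebra ℚ L] [Algebra ℚ E] (j : L →+* E) (α : L)
    (hα : Transcendental ℚ α) : Transcendental ℚ (j α) := by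
  rw [transcendental_iff] at hα ⊢
  intro p hp
  apply hα p
  apply j.injective
  rw [map_zero, ← hp, aeval_def, hom_eval₂, aeval_def]
  congr 1
  exact Subsingleton.elim _ _

lemma finrank_FF_tower {L E : Type} [Field L] [Algebra ℚ L] [Field E] [Algebra ℚ E] [Algebra L E]
    (α : L) (hα : Transcendental ℚ α) (hα' : Transcendental ℚ (algebraMap L E α)) (D K : ℕ)
    (h1 : @Module.finrank FF L _ _ (liftF α (evf_inj α hα)).toAlgebra.toModule ≤ D)
    (h2 : Module.finrank L E ≤ K) :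
    @Module.finrank FF E _ _ (liftF (algebraMap L E α) (evf_inj _ hα')).toAlgebra.toModule ≤
      D * K := by
  let _ : Algebra FF L := (liftF α (evf_inj α hα)).toAlgebra
  let _ : Algebra FF E := (liftF (algebraMap L E α) (evf_inj _ hα')).toAlgebra
  have : IsScalarTower FF L E := by
    apply IsScalarTower.of_algebraMap_eq'
    apply IsLocalization.ringHom_ext (nonZeroDivisors ℤ[X])
    apply RingHom.ext
    intro p
    change liftF (algebraMap L E α) (evf_inj _ hα') (algebraMap ℤ[X] FF p) =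
      algebraMap L E (liftF α (evf_inj α hα) (algebraMap ℤ[X] FF p))
    rw [liftF_apply, liftF_apply, map_evf]
  rw [← Module.finrank_mul_finrank FF L E]
  exact Nat.mul_le_mul h1 h2

lemma val_iff {L M : Type} [Field L] [Field M] [Algebra L M] (A : ValuationSubring L)
    (O : ValuationSubring M) (h : ∀ z : L, algebraMap L M z ∈ O ↔ z ∈ A) (z : L) :
    O.valuation (algebraMap L M z) < 1 ↔ A.valuation z < 1 := by
  rw [← ValuationSubring.mem_nonunits_iff, ← ValuationSubring.mem_nonunits_iff]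
  have h1 : z = (z⁻¹)⁻¹ := (inv_inv z).symm
  rw [h1, map_inv₀, O.inv_mem_nonunits_iff, A.inv_mem_nonunits_iff, h, map_eq_zero]

section

variable {k : Type} [Field k] [NumberField k] {m : ℕ} {L M : Type} [Field L] [Field M]
  [Algebra L M] [CharZero M] [IsAlgClosed M] [Algebra.IsAlgebraic L M]

/-- the generators of the covering -/
noncomputable def gn (β : L) (ω' : Fin m → 𝓞 k) (Z : (k →+* M) → M) :
    Fin (m + 1) → EE L ω' Z :=
  Fin.cons (algebraMap L (EE L ω' Z) β) (fun i => ⟨th ω' Z i, th_mem ω' Z i⟩)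

lemma gn_zero (β : L) (ω' : Fin m → 𝓞 k) (Z : (k →+* M) → M) :
    gn β ω' Z 0 = algebraMap L (EE L ω' Z) β := rfl

lemma gn_succ (β : L) (ω' : Fin m → 𝓞 k) (Z : (k →+* M) → M) (i : Fin m) :
    gn β ω' Z i.succ = ⟨th ω' Z i, th_mem ω' Z i⟩ := rfl

lemma th_mem_ScE {α : L} (ω' : Fin m → 𝓞 k) (Z : (k →+* M) → M)
    (hZ : ∀ σ, Z σ ∈ Sc (algebraMap L M α)) (i : Fin m) :
    (⟨th ω' Z i, th_mem ω' Z i⟩ : EE L ω' Z) ∈ Sc (algebraMap L (EE L ω' Z) α) := by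
  rw [mem_Sc]
  obtain ⟨G, hG, h⟩ := mem_Sc.1 (th_mem_Sc ω' Z hZ i)
  refine ⟨G, hG, ?_⟩
  apply (EE L ω' Z).val.injective
  have h1 := map_ev ((EE L ω' Z).val : EE L ω' Z →+* M) (algebraMap L (EE L ω' Z) α)
    ⟨th ω' Z i, th_mem ω' Z i⟩ G
  rw [map_zero]
  exact h1.trans h

lemma gn_mem {α β : L} (hβ : β ∈ Sc α) (ω' : Fin m → 𝓞 k) (Z : (k →+* M) → M)
    (hZ : ∀ σ, Z σ ∈ Sc (algebraMap L M α)) (i : Fin (m + 1)) :
    gn β ω' Z i ∈ Sc (algebraMap L (EE L ω' Z) α) := by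
  refine Fin.cases ?_ (fun i => ?_) i
  · rw [gn_zero]
    exact map_Sc _ hβ
  · rw [gn_succ]
    exact th_mem_ScE ω' Z hZ i

lemma gn_gen (α β : L) (ω' : Fin m → 𝓞 k) (Z : (k →+* M) → M) [Algebra ℚ (EE L ω' Z)]
    (hgen : ∀ z : L, ∃ W1 W2 : ℤ[X][X], ev α β W2 ≠ 0 ∧ ev α β W2 * z = ev α β W1) :
    IntermediateField.adjoin ℚ (insert (algebraMap L (EE L ω' Z) α) (Set.range (gn β ω' Z))) = ⊤ := by
  obtain ⟨K, hK⟩ : ∃ K, K = IntermediateField.adjoin ℚ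
    (insert (algebraMap L (EE L ω' Z) α) (Set.range (gn β ω' Z))) := ⟨_, rfl⟩
  rw [← hK]
  have hα : algebraMap L (EE L ω' Z) α ∈ K := by
    rw [hK]
    exact subset_adjoin _ _ (Set.mem_insert _ _)
  have hg : ∀ i, gn β ω' Z i ∈ K := by
    intro i
    rw [hK]
    exact subset_adjoin _ _ (Set.mem_insert_of_mem _ ⟨i, rfl⟩)
  have hev : ∀ W : ℤ[X][X], algebraMap L (EE L ω' Z) (ev α β W) ∈ K := by
    intro W
    rw [map_ev]
    exact ev_memS K.toSubring hα (hg 0) W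
  have hL : ∀ z : L, algebraMap L (EE L ω' Z) z ∈ K := by
    intro z
    obtain ⟨W1, W2, h0, h1⟩ := hgen z
    have h2 : z = ev α β W1 / ev α β W2 := by
      rw [eq_div_iff h0, mul_comm]
      exact h1
    rw [h2, map_div₀]
    exact div_mem (hev _) (hev _)
  rw [eq_top_iff]
  rintro ⟨z, hz⟩ -
  have key : ∀ (y : M) (hy : y ∈ EE L ω' Z), (⟨y, hy⟩ : EE L ω' Z) ∈ K := by
    intro y hy
    induction hy using IntermediateField.adjoin_induction with
    | mem x hx =>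
      obtain ⟨i, rfl⟩ := hx
      exact hg i.succ
    | algebraMap x => exact hL x
    | add x y hx hy h1 h2 => exact add_mem h1 h2
    | inv x hx h1 => exact inv_mem h1
    | mul x y hx hy h1 h2 => exact mul_mem h1 h2
  exact key z hz

end

theorem core (hETL : S_ETL) (n D κ m : ℕ) (hn : 1 ≤ n) (hD : 1 ≤ D) :
    ∃ (C0 : ℕ) (c0 : IntermediateField ℚ ℝ → ℕ), 1 ≤ C0 ∧ (∀ M, 1 ≤ c0 M) ∧
      ∀ (k : Type) [Field k] [NumberField k], Module.finrank ℚ k = m →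
      ∀ (ω ω' : Fin m → 𝓞 k) (Δ : ℕ), 1 ≤ Δ →
      (∀ (M : Type) [Field M] [CharZero M] [IsAlgClosed M], DualId M ω ω' Δ) →
      ∀ (L : Type) [Field L] [Algebra ℚ L] (α β : L), Transcendental ℚ α →
      ∀ G : ℤ[X][X], G.Monic → G.natDegree ≤ D → ev α β G = 0 →
      (∀ W : ℤ[X][X], ev α β W = 0 → G ∣ W) →
      (∀ z : L, ∃ W1 W2 : ℤ[X][X], ev α β W2 ≠ 0 ∧ ev α β W2 * z = ev α β W1) →
      ∀ (Q : Fin m → ℤ[X][X]) (B : ℕ), 1 ≤ B →
      (∀ x s : ℂ, ev x s G = 0 → ‖s‖ ≤ B * max 1 ‖x‖ ^ κ ∧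
        ∀ i, ‖ev x s (Q i)‖ ≤ B * max 1 ‖x‖ ^ κ) →
      ∀ A : ValuationSubring L, (∀ q : ℚ, algebraMap ℚ L q ∈ A) → α ∉ A →
      ∀ (t : L) (w : Fin m → A), (∀ i, (w i : L) = ev α β (Q i) * t ^ n) →
      (∀ (ι : IsLocalRing.ResidueField A →+* ℝ) (τ : k →+* ℂ),
        ∑ i, (ι (IsLocalRing.residue A (w i)) : ℂ) * τ (ω i) ≠ 0) →
      ∀ (M : Type) [Field M] [Algebra L M] [CharZero M] [IsAlgClosed M]
        [Algebra.IsAlgebraic L M],
      (∀ Z : (k →+* M) → M, (∀ σ, Z σ ^ n = qs ω (fun i => ev α β (Q i)) σ) →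
        n ≤ Module.finrank L (EE L ω' Z)) →
      ∀ (a b : ℤ) (s : Fin m → ℤ), ev a b G = 0 →
      (∀ ρ : 𝓞 k →+* ℂ, (∑ j, (s j : ℂ) * ρ (ω j)) ^ n =
        ∑ i, ((ev a b (Q i) : ℤ) : ℂ) * ρ (ω i)) →
      a.natAbs ≤ (C0 * ((⌈HH ω ω'⌉₊ + 1) * B)) ^ C0 ∨
      ∃ (ι : IsLocalRing.ResidueField A →+* ℝ) (K : IntermediateField ℚ ℝ),
        Trc k n (fun τ => ∑ i, (ι (IsLocalRing.residue A (w i)) : ℂ) * τ (ω i)) (Set.range ι) K ∧
        FiniteDimensional ℚ K ∧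
        Module.finrank ℚ (IntermediateField.adjoin ℚ (Set.range ι)) * n ≤ Module.finrank ℚ K ∧
        (Module.finrank ℚ K ≤ 2 ∨
          a.natAbs ≤ (c0 K * ((⌈HH ω ω'⌉₊ + 1) * B)) ^ C0) := by
  obtain ⟨C0, c0, hC0, hc0, hsp⟩ := space (D * n ^ m) κ (m + 1)
    (Nat.mul_pos hD (Nat.pow_pos (by omega)))
  refine ⟨C0, c0, hC0, hc0, ?_⟩
  intro k _ _ hkm ω ω' Δ hΔ hdual L _ _ α β hα G hGm hGD hGz hGdvd hgen Q B hB hgr A hQA hαA
    t w hw hne M _ _ _ _ _ hdeg a b s hab hs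
  have hn0 : 0 < n := by omega
  have hcL : CharZero L := algebraRat.charZero L
  have hβ : β ∈ Sc α := mem_Sc.2 ⟨G, hGm, hGz⟩
  have hq : ∀ i, ev α β (Q i) ∈ Sc α := fun i => ev_mem_Sc hβ (Q i)
  -- the integer point
  have hab' : ev (a : ℂ) (b : ℂ) G = 0 := by
    have h1 := map_ev (Int.castRingHom ℂ) a b G
    rw [hab, map_zero] at h1
    exact h1.symm
  obtain ⟨φ0, hφ0⟩ := point_Sc α β G hGm hGz hGdvd a b hab'
  have hφ1 : ∀ (W : ℤ[X][X]) (z : L) (hz : z ∈ Sc α), z = ev α β W →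
      φ0 ⟨z, hz⟩ = ev (a : ℂ) (b : ℂ) W := by
    rintro W z hz rfl
    exact hφ0 W hz
  obtain ⟨ψ, hψ⟩ := ext_Sc (algebraMap L M) α φ0
  obtain ⟨Z, hZ, hZS, hZb⟩ := cover (hdual M) hn0 α (fun i => ev α β (Q i)) hq ψ s (by
    intro ρ
    rw [hs ρ]
    apply Finset.sum_congr rfl
    intro i _
    rw [hψ _ (hq i), hφ0]
    congr 1
    exact map_ev (Int.castRingHom ℂ) a b (Q i))
  -- the field of the covering
  obtain ⟨αE, hαE⟩ : ∃ αE, αE = algebraMap L (EE L ω' Z) α := ⟨_, rfl⟩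
  have htr : Transcendental ℚ (algebraMap L (EE L ω' Z) α) := transc_map _ α hα
  have hfin := finrank_FF_tower α hα htr D (n ^ m) (finrank_FF_base α β hα G hGm D hGD hGz hgen)
    (by
      have h1 := finrank_EE hn0 ω ω' _ Z hZ
      rwa [hkm] at h1)
  have hHH : HH ω ω' ≤ ((⌈HH ω ω'⌉₊ + 1 : ℕ) : ℝ) := by
    push_cast
    have := Nat.le_ceil (HH ω ω')
    linarith
  have hHH1 : (1 : ℝ) ≤ ((⌈HH ω ω'⌉₊ + 1 : ℕ) : ℝ) := by
    push_cast
    have := Nat.cast_nonneg (α := ℝ) ⌈HH ω ω'⌉₊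
    linarith
  have hBR : (1 : ℝ) ≤ (B : ℝ) := by exact_mod_cast hB
  obtain ⟨p, hp⟩ : ∃ p : Sc (algebraMap L (EE L ω' Z) α) →+* ℂ, ∀ z, p z =
      ψ ⟨((z : EE L ω' Z) : M), map_Sc ((EE L ω' Z).val : EE L ω' Z →+* M) z.2⟩ :=
    ⟨ψ.comp ((((EE L ω' Z).val : EE L ω' Z →+* M).comp
      (Sc (algebraMap L (EE L ω' Z) α)).subtype).codRestrict (Sc (algebraMap L M α))
      (fun z => map_Sc ((EE L ω' Z).val : EE L ω' Z →+* M) z.2)), fun z => rfl⟩
  have hgrow : ∀ φ : Sc (algebraMap L (EE L ω' Z) α) →+* ℂ, ∀ i,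
      ‖φ ⟨gn β ω' Z i, gn_mem hβ ω' Z hZS i⟩‖ ≤ (((⌈HH ω ω'⌉₊ + 1) * B : ℕ) : ℝ) *
        max 1 ‖φ ⟨algebraMap L (EE L ω' Z) α, self_mem_Sc _⟩‖ ^ κ := by
    intro φ
    obtain ⟨ψ', hψ'⟩ : ∃ ψ' : Sc (algebraMap L M α) →+* ℂ,
        ∀ (z : EE L ω' Z) (hz : z ∈ Sc (algebraMap L (EE L ω' Z) α)),
          ψ' ⟨(z : M), map_Sc ((EE L ω' Z).val : EE L ω' Z →+* M) hz⟩ = φ ⟨z, hz⟩ :=
      ext_Sc ((EE L ω' Z).val : EE L ω' Z →+* M) (algebraMap L (EE L ω' Z) α) φ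
    have hβE : algebraMap L (EE L ω' Z) β ∈ Sc (algebraMap L (EE L ω' Z) α) := map_Sc _ hβ
    obtain ⟨x, hx⟩ : ∃ x, x = φ ⟨algebraMap L (EE L ω' Z) α, self_mem_Sc _⟩ := ⟨_, rfl⟩
    obtain ⟨y, hy⟩ : ∃ y, y = φ ⟨algebraMap L (EE L ω' Z) β, hβE⟩ := ⟨_, rfl⟩
    have hev : ∀ (W : ℤ[X][X]) (h : algebraMap L (EE L ω' Z) (ev α β W) ∈
        Sc (algebraMap L (EE L ω' Z) α)), φ ⟨algebraMap L (EE L ω' Z) (ev α β W), h⟩ =
          ev x y W := by
      intro W h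
      rw [hx, hy, ← map_ev]
      congr 1
      apply Subtype.ext
      have h1 := map_ev (Sc (algebraMap L (EE L ω' Z) α)).subtype
        (⟨algebraMap L (EE L ω' Z) α, self_mem_Sc _⟩ : Sc (algebraMap L (EE L ω' Z) α))
        ⟨algebraMap L (EE L ω' Z) β, hβE⟩ W
      have h2 := map_ev (algebraMap L (EE L ω' Z)) α β W
      exact h2.trans h1.symm
    have hG0 : ev x y G = 0 := by
      rw [← hev G (by rw [hGz, map_zero]; exact Subring.zero_mem _)]
      have h1 : (⟨algebraMap L (EE L ω' Z) (ev α β G), by rw [hGz, map_zero]; exact Subring.zero_mem _⟩ :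
          Sc (algebraMap L (EE L ω' Z) α)) = 0 := by
        apply Subtype.ext
        change algebraMap L (EE L ω' Z) (ev α β G) = 0
        rw [hGz, map_zero]
      rw [h1, map_zero]
    obtain ⟨g1, g2⟩ := hgr x y hG0
    have hT1 : (1 : ℝ) ≤ B * max 1 ‖x‖ ^ κ :=
      one_le_mul_of_one_le_of_one_le hBR (one_le_pow₀ (le_max_left _ _))
    have hfinal : ∀ z : ℝ, z ≤ HH ω ω' * (B * max 1 ‖x‖ ^ κ) ∨ z ≤ B * max 1 ‖x‖ ^ κ →
        z ≤ (((⌈HH ω ω'⌉₊ + 1) * B : ℕ) : ℝ) * max 1 ‖x‖ ^ κ := by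
      intro z hz
      have e1 : (((⌈HH ω ω'⌉₊ + 1) * B : ℕ) : ℝ) * max 1 ‖x‖ ^ κ =
          ((⌈HH ω ω'⌉₊ + 1 : ℕ) : ℝ) * (B * max 1 ‖x‖ ^ κ) := by push_cast; ring
      rw [e1]
      rcases hz with hz | hz
      · exact hz.trans (mul_le_mul_of_nonneg_right hHH (by linarith))
      · exact hz.trans (le_mul_of_one_le_left (by linarith) hHH1)
    intro i
    rw [← hx]
    refine Fin.cases ?_ (fun i => ?_) i
    · apply hfinal _ (Or.inr ?_)
      have e1 : φ ⟨gn β ω' Z 0, gn_mem hβ ω' Z hZS 0⟩ = y := hy.symm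
      rw [e1]
      exact g1
    · apply hfinal _ (Or.inl ?_)
      have e1 := hψ' (gn β ω' Z i.succ) (gn_mem hβ ω' Z hZS i.succ)
      rw [← e1]
      have e2 := growth (ω' := ω') hn0 α (fun i => ev α β (Q i)) hq ψ' Z hZ hZS
        (B * max 1 ‖x‖ ^ κ) hT1 (by
          intro j
          have e3 := hψ' (algebraMap L (EE L ω' Z) (ev α β (Q j))) (map_Sc _ (hq j))
          rw [hev] at e3
          have e4 : ψ' ⟨algebraMap L M (ev α β (Q j)), map_Sc _ (hq j)⟩ = ev x y (Q j) := e3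
          rw [e4]
          exact g2 j) i (th_mem_Sc ω' Z hZS i)
      exact e2
  have hp1 : p ⟨algebraMap L (EE L ω' Z) α, self_mem_Sc _⟩ = a := by
    rw [hp]
    have e1 := hψ α (self_mem_Sc α)
    have e2 := hφ1 (C X) α (self_mem_Sc α) (by rw [ev_C, evf_X])
    rw [ev_C, evf_X] at e2
    exact e1.trans e2
  have hp2 : ∀ i, p ⟨gn β ω' Z i, gn_mem hβ ω' Z hZS i⟩ =
      ((Fin.cons b (fun i => Δ * s i) : Fin (m + 1) → ℤ) i : ℂ) := by
    intro i
    refine Fin.cases ?_ (fun i => ?_) i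
    · have e1 := hψ β hβ
      have e2 := hφ1 X β hβ (by rw [ev_X])
      rw [ev_X] at e2
      rw [hp]
      exact e1.trans e2
    · have e1 := hZb i (th_mem_Sc ω' Z hZS i)
      rw [hp, Fin.cons_succ]
      push_cast
      exact e1
  rcases hsp (EE L ω' Z) (algebraMap L (EE L ω' Z) α) htr (gn β ω' Z)
    (Sc (algebraMap L (EE L ω' Z) α)) (self_mem_Sc _) (gn_mem hβ ω' Z hZS)
    (fun z hz => mem_Sc.1 hz) (gn_gen α β ω' Z hgen) hfin ((⌈HH ω ω'⌉₊ + 1) * B)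
    (Nat.mul_pos (Nat.succ_pos _) hB) hgrow p a
      (Fin.cons b (fun i => Δ * s i)) hp1 hp2 with h | h
  · exact Or.inl h
  · right
    obtain ⟨A1, hA1, g, hgm, hgi, ⟨iso⟩, η, hη, h⟩ := h
    obtain ⟨O, hOA⟩ := exists_O (M := M) A
    have hratM : ∀ q : ℚ, algebraMap L M (algebraMap ℚ L q) = (q : M) := fun q => by
      rw [eq_ratCast, map_ratCast]
    have hQO : ∀ q : ℚ, (q : M) ∈ O := by
      intro q
      rw [← hratM, hOA]
      exact hQA q
    have hA' : ∀ (χ : EE L ω' Z →ₐ[L] M) z, χ z ∈ O ↔ z ∈ A1 := by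
      intro χ z
      have h1 : O.comap (χ : EE L ω' Z →+* M) = A1 := by
        apply hA1
        · intro q
          rw [ValuationSubring.mem_comap, eq_ratCast, map_ratCast]
          exact hQO q
        · rw [ValuationSubring.mem_comap]
          intro h2
          apply hαA
          rw [← hOA]
          have h3 : (χ : EE L ω' Z →+* M) (algebraMap L (EE L ω' Z) α) = algebraMap L M α :=
            χ.commutes α
          rw [← h3]
          exact h2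
      rw [← h1, ValuationSubring.mem_comap]
      rfl
    obtain ⟨ι, h1, h2⟩ := residue hETL hn0 hΔ (hdual M) (hdual ℂ) hQO Z hZ A hOA w hw hne A1 hA'
      g hgm hgi iso η hη
    have h3 := hdeg Z hZ
    have hint : IsIntegral ℚ η := ⟨g, hgm, hη⟩
    have h4 : Module.finrank ℚ ℚ⟮η⟯ = g.natDegree := by
      rw [IntermediateField.adjoin.finrank hint, ← minpoly.eq_of_irreducible_of_monic hgi hη hgm]
    refine ⟨ι, ℚ⟮η⟯, h2, adjoin.finiteDimensional hint, ?_, ?_⟩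
    · rw [h4, ← h1]
      exact Nat.mul_le_mul_left _ h3
    · rw [h4]
      exact h

end Pool.Agent.K1H93.NF
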