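import Pool.Agent.K1H93.NF.Res

set_option autoImplicit false

/-! The degree of the covering is at least `n`. -/

open Polynomial NumberField IntermediateField

namespace Pool.Agent.K1H93.NF

lemma prod_pow {M : Type} [Field M] (n : ℕ) (z : M) (hz : z ≠ 0) (R : Multiset M)
    (h : ∀ r ∈ R, r ^ n = z ^ n) : ∃ ζ : M, ζ ^ n = 1 ∧ R.prod = ζ * z ^ R.card := by
  induction R using Multiset.induction_on with
  | empty => exact ⟨1, one_pow _, by simp⟩
  | cons a s ih =>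
    obtain ⟨ζ, h1, h2⟩ := ih (fun r hr => h r (Multiset.mem_cons_of_mem hr))
    refine ⟨a / z * ζ, ?_, ?_⟩
    · rw [mul_pow, h1, div_pow, h a (Multiset.mem_cons_self a s), mul_one,
        div_self (pow_ne_zero _ hz)]
    · rw [Multiset.prod_cons, Multiset.card_cons, h2, pow_succ]
      field_simp

theorem kum {L M : Type} [Field L] [Field M] [Algebra L M] [IsAlgClosed M]
    (F : IntermediateField L M) (n : ℕ) (hn : 0 < n) (hF : ∀ z : M, z ^ n = 1 → z ∈ F) (z : M)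
    (hz0 : z ≠ 0) (hz : z ^ n ∈ F) (hlt : (minpoly F z).natDegree < n) :
    ∃ p : ℕ, p.Prime ∧ p ∣ n ∧ z ^ (n / p) ∈ F := by
  have hroot : aeval z (X ^ n - C (⟨z ^ n, hz⟩ : F)) = 0 := by
    rw [map_sub, map_pow, aeval_X, aeval_C]
    exact sub_self _
  have hint : IsIntegral F z := ⟨_, monic_X_pow_sub_C _ (by omega), hroot⟩
  obtain ⟨d, hd⟩ : ∃ d, d = (minpoly F z).natDegree := ⟨_, rfl⟩
  have hd1 : 0 < d := by rw [hd]; exact minpoly.natDegree_pos hint
  obtain ⟨P, hP⟩ : ∃ P : M[X], P = (minpoly F z).map (algebraMap F M) := ⟨_, rfl⟩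
  have hPm : P.Monic := by rw [hP]; exact (minpoly.monic hint).map _
  have hPd : P.natDegree = d := by rw [hP, (minpoly.monic hint).natDegree_map, hd]
  have hsp : P.Splits := IsAlgClosed.splits P
  have hcard : P.roots.card = d := by rw [← hPd]; exact hsp.natDegree_eq_card_roots.symm
  have hR : ∀ r ∈ P.roots, r ^ n = z ^ n := by
    intro r hr
    have h1 : P.eval r = 0 := (mem_roots'.1 hr).2
    obtain ⟨Q, hQ⟩ := minpoly.dvd F z hroot
    have h2 := congrArg (fun p : F[X] => (p.map (algebraMap F M)).eval r) hQ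
    beta_reduce at h2
    rw [Polynomial.map_mul, eval_mul, ← hP, h1, zero_mul, Polynomial.map_sub, Polynomial.map_pow,
      map_X, map_C, eval_sub, eval_pow, eval_X, eval_C, sub_eq_zero] at h2
    exact h2
  obtain ⟨ζ, hζ1, hζ2⟩ := prod_pow n z hz0 P.roots hR
  rw [hcard] at hζ2
  have hζ0 : ζ ≠ 0 := by
    rintro rfl
    rw [zero_pow (by omega)] at hζ1
    exact zero_ne_one hζ1
  have hc0 : P.coeff 0 = (-1) ^ P.natDegree * P.roots.prod := hsp.coeff_zero_eq_prod_roots_of_monic hPm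
  have hc0F : P.coeff 0 ∈ F := by
    rw [hP, coeff_map]
    exact ((minpoly F z).coeff 0).2
  have hzd : z ^ d ∈ F := by
    have h1 : z ^ d = ζ⁻¹ * ((-1) ^ P.natDegree * P.coeff 0) := by
      rw [hc0, ← mul_assoc ((-1 : M) ^ P.natDegree), ← mul_pow, neg_one_mul, neg_neg, one_pow,
        one_mul, hζ2]
      field_simp
    rw [h1]
    exact mul_mem (inv_mem (hF ζ hζ1)) (mul_mem (pow_mem (neg_mem (one_mem _)) _) hc0F)
  obtain ⟨g, hg⟩ : ∃ g, g = Nat.gcd d n := ⟨_, rfl⟩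
  have hg0 : 0 < g := by rw [hg]; exact Nat.gcd_pos_of_pos_left _ hd1
  have hgd : g ≤ d := by rw [hg]; exact Nat.gcd_le_left _ hd1
  have hgn : g ∣ n := by rw [hg]; exact Nat.gcd_dvd_right _ _
  have hzg : z ^ g ∈ F := by
    have h1 : z ^ g = (z ^ d) ^ (Nat.gcdA d n) * (z ^ n) ^ (Nat.gcdB d n) := by
      rw [← zpow_natCast, ← zpow_natCast, ← zpow_natCast, ← zpow_mul, ← zpow_mul, ← zpow_add₀ hz0,
        hg, Nat.gcd_eq_gcd_ab]
    rw [h1]
    exact mul_mem (zpow_mem hzd _) (zpow_mem hz _)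
  obtain ⟨e, he⟩ := hgn
  have he1 : e ≠ 1 := by
    rintro rfl
    omega
  refine ⟨e.minFac, Nat.minFac_prime he1, (Nat.minFac_dvd e).trans (he ▸ dvd_mul_left _ _), ?_⟩
  obtain ⟨l, hl⟩ := Nat.minFac_dvd e
  have h1 : n / e.minFac = g * l := by
    apply Nat.div_eq_of_eq_mul_left (Nat.minFac_pos e)
    rw [he]
    conv_lhs => rw [hl]
    ring
  rw [h1, pow_mul]
  exact pow_mem hzg _

/-- the compositum of `L` and the algebraic numbers -/
noncomputable def Cmp (L M : Type) [Field L] [Field M] [Algebra L M] [CharZero M] :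
    IntermediateField L M :=
  IntermediateField.adjoin L {z : M | IsAlgebraic ℚ z}

theorem hdeg_of (hDEG : S_DEG) {k : Type} [Field k] [NumberField k] {m n : ℕ} (hn : 0 < n)
    {L M : Type} [Field L] [Field M] [Algebra L M] [CharZero M] [IsAlgClosed M]
    [Algebra.IsAlgebraic L M] {ω ω' : Fin m → 𝓞 k} {Δ : ℕ} (hΔ : 1 ≤ Δ) (hd : DualId M ω ω' Δ)
    (q : Fin m → L) (σ : k →+* M) (u v : M) (hv : IsAlgebraic ℚ v) (hv0 : v ≠ 0)
    (hq : qs ω q σ = v * u) (hu0 : u ≠ 0) (huF : u ∈ Cmp L M)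
    (hord : ∀ p : ℕ, p.Prime → p ∣ n → ∀ y ∈ Cmp L M, y ^ p ≠ u)
    (Z : (k →+* M) → M) (hZ : ∀ σ, Z σ ^ n = qs ω q σ) :
    n ≤ Module.finrank L (EE L ω' Z) := by
  by_contra hlt
  rw [not_le] at hlt
  have halg : ∀ z : M, IsAlgebraic ℚ z → z ∈ Cmp L M := fun z hz => subset_adjoin _ _ hz
  have hzn : Z σ ^ n = v * u := by rw [hZ, hq]
  have hz0 : Z σ ≠ 0 := by
    intro h0
    rw [h0, zero_pow (by omega)] at hzn
    exact mul_ne_zero hv0 hu0 hzn.symm
  have hznF : Z σ ^ n ∈ Cmp L M := by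
    rw [hzn]
    exact mul_mem (halg v hv) huF
  have hΔM : (Δ : M) ≠ 0 := by exact_mod_cast (by omega : Δ ≠ 0)
  have hc : ∀ i, σ (ω i) / Δ ∈ Cmp L M := fun i =>
    div_mem (halg _ (alg_emb σ _)) (_root_.natCast_mem _ _)
  have h1 := hDEG L M (EE L ω' Z) (Cmp L M) m (fun i => ⟨th ω' Z i, th_mem ω' Z i⟩)
    (fun i => ⟨σ (ω i) / Δ, hc i⟩) (Z σ) (by
      have h2 := th_mul hd Z σ
      have h3 : Z σ = (∑ i, th ω' Z i * σ (ω i)) / Δ := by
        rw [h2]
        field_simp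
      rw [Finset.sum_div] at h3
      refine h3.trans (Finset.sum_congr rfl fun i _ => ?_)
      change _ = σ (ω i) / Δ * th ω' Z i
      ring) (by
      refine ⟨X ^ n - C (⟨Z σ ^ n, hznF⟩ : Cmp L M), monic_X_pow_sub_C _ (by omega), ?_⟩
      rw [eval₂_sub, eval₂_pow, eval₂_X, eval₂_C]
      exact sub_self _)
  obtain ⟨p, hp, hpn, hy⟩ := kum (Cmp L M) n hn (fun z hz => halg z (by
      apply IsAlgebraic.of_pow hn
      rw [hz]
      exact isAlgebraic_one)) (Z σ) hz0 hznF (h1.trans_lt hlt)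
  obtain ⟨ε, hε⟩ := IsAlgClosed.exists_pow_nat_eq v hn
  have hεa : IsAlgebraic ℚ ε := IsAlgebraic.of_pow hn (by rw [hε]; exact hv)
  apply hord p hp hpn (Z σ ^ (n / p) / ε ^ (n / p)) (div_mem hy (pow_mem (halg ε hεa) _))
  rw [div_pow, ← pow_mul, ← pow_mul, Nat.div_mul_cancel hpn, hzn, hε]
  field_simp

end Pool.Agent.K1H93.NF
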