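import Pool.Agent.K1H93.NF.Gro
import Pool.Agent.K1H93.NF.Kum
import Pool.Agent.K1H61.NF.Mat
import Pool.Agent.K1H61.NF.Deg
import Pool.Agent.K1H31.NF.Etl
import Pool.Agent.K1H65.NF.Dsc

set_option autoImplicit false

/-! The bound for all plane curves with a torsion function over a number field. -/

open Polynomial NumberField IntermediateField

namespace Pool.Agent.K1H93.NF

open Pool.Agent.H322R2 Pool.Agent.K1H93.TG

section

variable {k : Type} [Field k] [NumberField k] {m : ℕ}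

/-- `∑ c_j f_j` -/
noncomputable def fh (c : Fin m → 𝓞 k) (f : Fin m → MvPolynomial (Fin 2) ℤ) :
    MvPolynomial (Fin 2) (𝓞 k) :=
  ∑ j, MvPolynomial.C (c j) * MvPolynomial.map (Int.castRingHom (𝓞 k)) (f j)

lemma eval_cast {R : Type} [CommRing R] (p : MvPolynomial (Fin 2) ℤ) (x y : ℤ) :
    MvPolynomial.eval ![(x : R), (y : R)] (MvPolynomial.map (Int.castRingHom R) p) =
      ((MvPolynomial.eval ![x, y] p : ℤ) : R) := by
  have : (MvPolynomial.eval ![(x : R), (y : R)]).comp (MvPolynomial.map (Int.castRingHom R)) =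
      (Int.castRingHom R).comp (MvPolynomial.eval ![x, y]) := by
    apply MvPolynomial.ringHom_ext
    · intro r
      simp
    · intro i
      fin_cases i
      · simp
      · simp
  exact congrArg (fun φ : MvPolynomial (Fin 2) ℤ →+* R => φ p) this

lemma eval_fh (c : Fin m → 𝓞 k) (f : Fin m → MvPolynomial (Fin 2) ℤ) (x y : ℤ) :
    MvPolynomial.eval ![(x : 𝓞 k), (y : 𝓞 k)] (fh c f) =
      ∑ j, c j * ((MvPolynomial.eval ![x, y] (f j) : ℤ) : 𝓞 k) := by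
  rw [fh, map_sum]
  apply Finset.sum_congr rfl
  intro j _
  rw [map_mul, MvPolynomial.eval_C, eval_cast]

lemma eval_tors (F : MvPolynomial (Fin 2) ℤ) (f g h : MvPolynomial (Fin 2) (𝓞 k)) (n a e : ℕ)
    (hdvd : MvPolynomial.map (Int.castRingHom (𝓞 k)) F ∣
      f * g - MvPolynomial.C (a : 𝓞 k) * h ^ n)
    (hmem : MvPolynomial.C (e : 𝓞 k) ∈ Ideal.span
      ({MvPolynomial.map (Int.castRingHom (𝓞 k)) F, f, g, h} :
        Set (MvPolynomial (Fin 2) (𝓞 k)))) (x y : ℤ)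
    (hxy : MvPolynomial.eval ![x, y] F = 0) :
    MvPolynomial.eval ![(x : 𝓞 k), (y : 𝓞 k)] f * MvPolynomial.eval ![(x : 𝓞 k), (y : 𝓞 k)] g =
      a * MvPolynomial.eval ![(x : 𝓞 k), (y : 𝓞 k)] h ^ n ∧
    (e : 𝓞 k) ∈ Ideal.span ({MvPolynomial.eval ![(x : 𝓞 k), (y : 𝓞 k)] f,
      MvPolynomial.eval ![(x : 𝓞 k), (y : 𝓞 k)] g,
      MvPolynomial.eval ![(x : 𝓞 k), (y : 𝓞 k)] h} : Set (𝓞 k)) := by
  have hF : MvPolynomial.eval ![(x : 𝓞 k), (y : 𝓞 k)]
      (MvPolynomial.map (Int.castRingHom (𝓞 k)) F) = 0 := by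
    rw [eval_cast, hxy, Int.cast_zero]
  constructor
  · obtain ⟨q, hq⟩ := hdvd
    have h1 := congrArg (MvPolynomial.eval ![(x : 𝓞 k), (y : 𝓞 k)]) hq
    rw [map_sub, map_mul, map_mul, map_mul, map_pow, MvPolynomial.eval_C, hF, zero_mul,
      sub_eq_zero] at h1
    exact h1
  · obtain ⟨I, hI⟩ : ∃ I, I = Ideal.span ({MvPolynomial.eval ![(x : 𝓞 k), (y : 𝓞 k)] f,
      MvPolynomial.eval ![(x : 𝓞 k), (y : 𝓞 k)] g,
      MvPolynomial.eval ![(x : 𝓞 k), (y : 𝓞 k)] h} : Set (𝓞 k)) := ⟨_, rfl⟩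
    rw [← hI]
    have h4 : Ideal.span ({MvPolynomial.map (Int.castRingHom (𝓞 k)) F, f, g, h} :
        Set (MvPolynomial (Fin 2) (𝓞 k))) ≤
        Ideal.comap (MvPolynomial.eval ![(x : 𝓞 k), (y : 𝓞 k)]) I := by
      rw [Ideal.span_le]
      rintro z hz
      simp only [Set.mem_insert_iff, Set.mem_singleton_iff] at hz
      rw [SetLike.mem_coe, Ideal.mem_comap]
      rcases hz with rfl | rfl | rfl | rfl
      · rw [hF]; exact I.zero_mem
      · rw [hI]; exact Ideal.subset_span (by simp)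
      · rw [hI]; exact Ideal.subset_span (by simp)
      · rw [hI]; exact Ideal.subset_span (by simp)
    have h5 := h4 hmem
    rw [Ideal.mem_comap, MvPolynomial.eval_C] at h5
    exact h5

/-- the growth of the coordinates -/
lemma grow (D : ℕ) (hD : 1 ≤ D) (G : ℤ[X][X]) (dG : ℕ) (hGm : G.Monic) (hGd : G.natDegree = dG)
    (hT : TD dG G) (H : ℕ) (hH : 1 ≤ H) (hG : pn (pn zn) G ≤ H) (fj : Fin m → ℤ[X][X])
    (hf1 : ∀ j, (fj j).natDegree ≤ D) (hf2 : ∀ j, ID D (fj j)) (hf3 : ∀ j, pn (pn zn) (fj j) ≤ H)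
    (b : Fin m → Fin m → ℤ) (T : ℕ) (hT1 : 1 ≤ T) (hb : ∀ j i, |(b j i : ℝ)| ≤ T) (x s : ℂ)
    (hxs : ev x s G = 0) :
    ‖s‖ ≤ (((m + 1) * T * H ^ (D + 1) : ℕ) : ℝ) * max 1 ‖x‖ ^ (2 * D) ∧
    ∀ i, ‖ev x s (∑ j, C (C (b j i)) * fj j)‖ ≤
      (((m + 1) * T * H ^ (D + 1) : ℕ) : ℝ) * max 1 ‖x‖ ^ (2 * D) := by
  obtain ⟨W, hW⟩ : ∃ W, W = max 1 ‖x‖ := ⟨_, rfl⟩
  have hW1 : 1 ≤ W := by rw [hW]; exact le_max_left _ _
  have hHR : (1 : ℝ) ≤ H := by exact_mod_cast hH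
  have hTR : (1 : ℝ) ≤ T := by exact_mod_cast hT1
  have hm0 : (0 : ℝ) ≤ m := Nat.cast_nonneg m
  have hs := norm_s_le hGm hGd hT hHR hG x s hxs
  rw [← hW] at hs ⊢
  have hHW : 1 ≤ (H : ℝ) * W := one_le_mul_of_one_le_of_one_le hHR hW1
  have hW2 : W ≤ W ^ (2 * D) := le_self_pow₀ hW1 (by omega)
  have hH2 : (H : ℝ) ≤ H ^ (D + 1) := le_self_pow₀ hHR (by omega)
  have hWp : 0 ≤ W ^ (2 * D) := by positivity
  have hHp : (0 : ℝ) ≤ H ^ (D + 1) := by positivity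
  have e1 : (((m + 1) * T * H ^ (D + 1) : ℕ) : ℝ) * W ^ (2 * D) =
      ((m + 1) * T) * (H ^ (D + 1) * W ^ (2 * D)) := by push_cast; ring
  have hmT : (1 : ℝ) ≤ (m + 1) * T := one_le_mul_of_one_le_of_one_le (by linarith) hTR
  rw [e1]
  constructor
  · refine hs.trans ?_
    calc (H : ℝ) * W ≤ H ^ (D + 1) * W ^ (2 * D) := mul_le_mul hH2 hW2 (by linarith) hHp
      _ ≤ ((m + 1) * T) * (H ^ (D + 1) * W ^ (2 * D)) :=
        le_mul_of_one_le_left (by positivity) hmT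
  · intro i
    have hms : max 1 ‖s‖ ≤ H * W := max_le hHW hs
    have h1 : ∀ j, ‖ev x s (fj j)‖ ≤ H ^ (D + 1) * W ^ (2 * D) := by
      intro j
      refine (norm_ev_le (fj j) D (hf1 j) (hf2 j) x s).trans ?_
      rw [← hW]
      calc pn (pn zn) (fj j) * (W ^ D * max 1 ‖s‖ ^ D) ≤ H * (W ^ D * (H * W) ^ D) := by
            apply mul_le_mul (hf3 j) _ (by positivity) (by linarith)
            apply mul_le_mul_of_nonneg_left _ (by positivity)
            exact pow_le_pow_left₀ (by positivity) hms _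
        _ = H ^ (D + 1) * W ^ (2 * D) := by ring
    rw [map_sum]
    refine (norm_sum_le _ _).trans ?_
    have h2 : ∀ j ∈ Finset.univ, ‖ev x s (C (C (b j i)) * fj j)‖ ≤
        T * (H ^ (D + 1) * W ^ (2 * D)) := by
      intro j _
      rw [map_mul, ev_C, evf_C, norm_mul, Complex.norm_intCast]
      exact mul_le_mul (hb j i) (h1 j) (norm_nonneg _) (by linarith)
    refine (Finset.sum_le_sum h2).trans ?_
    rw [Finset.sum_const, Finset.card_univ, Fintype.card_fin, nsmul_eq_mul, mul_assoc]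
    apply mul_le_mul_of_nonneg_right _ (by positivity)
    linarith

end

end Pool.Agent.K1H93.NF
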