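import Pool.Agent.K1H93.NF.Cor
import Pool.Agent.K1H93.TG.Main
import Pool.Agent.Y852.FFRed

set_option autoImplicit false

/-! Growth of the coordinates, generation of the function field, coordinates of integers. -/

open Polynomial NumberField IntermediateField

namespace Pool.Agent.K1H93.NF

open Pool.Agent.H322R2 Pool.Agent.K1H93.TG

/-- Bound for `s` in terms of `x`. -/
lemma norm_s_le {d : ℕ} {G : ℤ[X][X]} (hm : G.Monic) (hd : G.natDegree = d) (hT : TD d G)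
    {H : ℝ} (hH : 1 ≤ H) (hG : pn (pn zn) G ≤ H) (a b : ℂ) (h0 : ev a b G = 0) :
    ‖b‖ ≤ H * max 1 ‖a‖ := by
  obtain ⟨A, hA⟩ : ∃ A, A = max 1 ‖a‖ := ⟨_, rfl⟩
  rw [← hA]
  have hA1 : 1 ≤ A := by rw [hA]; exact le_max_left _ _
  have haA : ‖a‖ ≤ A := by rw [hA]; exact le_max_right _ _
  by_contra hcon
  rw [not_le] at hcon
  have hHA : A ≤ H * A := by nlinarith
  have hbA : A ≤ ‖b‖ := by linarith
  have hb0 : 0 < ‖b‖ := by linarith
  rw [ev_apply, eval₂_eq_sum_range, Finset.sum_range_succ] at h0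
  rw [show G.coeff G.natDegree = 1 from hm, map_one, one_mul] at h0
  have hpn : pn (pn zn) G = (∑ i ∈ Finset.range G.natDegree, pn zn (G.coeff i)) + 1 := by
    rw [pn_eq_range _ G (Nat.lt_succ_self _), Finset.sum_range_succ]
    rw [show G.coeff G.natDegree = 1 from hm, pn_one]
    simp
  have hd0 : d ≠ 0 := by
    intro h00
    rw [hd, h00] at h0
    simp at h0
  obtain ⟨n, hn⟩ : ∃ n, d = n + 1 := ⟨d - 1, by omega⟩
  have h2 : ‖b‖ ^ d ≤ (pn (pn zn) G - 1) * (A * ‖b‖ ^ n) := by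
    have h3 : b ^ d = - ∑ i ∈ Finset.range G.natDegree, evf a (G.coeff i) * b ^ i := by
      rw [hd] at h0 ⊢
      linear_combination h0
    rw [← norm_pow, h3, norm_neg]
    refine (norm_sum_le _ _).trans ?_
    rw [hpn, add_sub_cancel_right, Finset.sum_mul]
    apply Finset.sum_le_sum
    intro i hi
    rw [Finset.mem_range, hd] at hi
    rw [norm_mul, norm_pow]
    have h4 : ‖evf a (G.coeff i)‖ ≤ pn zn (G.coeff i) * A ^ (d - i) := by
      have h5 := hT.2 i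
      rw [evf_sum _ _ (show (G.coeff i).natDegree < d - i + 1 by omega),
        pn_eq_range _ _ (show (G.coeff i).natDegree < d - i + 1 by omega), Finset.sum_mul]
      refine (norm_sum_le _ _).trans ?_
      apply Finset.sum_le_sum
      intro q hq
      rw [Finset.mem_range] at hq
      rw [norm_mul, norm_pow, Complex.norm_intCast]
      apply mul_le_mul_of_nonneg_left _ (abs_nonneg _)
      calc ‖a‖ ^ q ≤ A ^ q := pow_le_pow_left₀ (norm_nonneg _) haA _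
        _ ≤ A ^ (d - i) := pow_le_pow_right₀ hA1 (by omega)
    have h6 : A ^ (d - i) * ‖b‖ ^ i ≤ A * ‖b‖ ^ n := by
      have h7 : d - i = (n - i) + 1 := by omega
      rw [h7, pow_succ]
      calc A ^ (n - i) * A * ‖b‖ ^ i = A * (A ^ (n - i) * ‖b‖ ^ i) := by ring
        _ ≤ A * (‖b‖ ^ (n - i) * ‖b‖ ^ i) := by
          apply mul_le_mul_of_nonneg_left _ (by linarith)
          apply mul_le_mul_of_nonneg_right _ (by positivity)
          exact pow_le_pow_left₀ (by linarith) hbA _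
        _ = _ := by rw [← pow_add]; congr 2; omega
    calc ‖evf a (G.coeff i)‖ * ‖b‖ ^ i
        ≤ (pn zn (G.coeff i) * A ^ (d - i)) * ‖b‖ ^ i :=
          mul_le_mul_of_nonneg_right h4 (by positivity)
      _ = pn zn (G.coeff i) * (A ^ (d - i) * ‖b‖ ^ i) := by ring
      _ ≤ _ := mul_le_mul_of_nonneg_left h6 (apply_nonneg _ _)
  rw [hn, pow_succ] at h2
  have h3 : ‖b‖ * ‖b‖ ^ n ≤ ((pn (pn zn) G - 1) * A) * ‖b‖ ^ n := by
    calc ‖b‖ * ‖b‖ ^ n = ‖b‖ ^ n * ‖b‖ := by ring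
      _ ≤ _ := h2
      _ = _ := by ring
  have h4 := le_of_mul_le_mul_right h3 (by positivity)
  nlinarith

lemma norm_ev_le (W : ℤ[X][X]) (K : ℕ) (hW : W.natDegree ≤ K) (hID : ID K W) (x s : ℂ) :
    ‖ev x s W‖ ≤ pn (pn zn) W * (max 1 ‖x‖ ^ K * max 1 ‖s‖ ^ K) := by
  rw [ev_sum x s W (Nat.lt_succ_of_le hW) (fun j => Nat.lt_succ_of_le (hID j)),
    pn2_eq W (K + 1) (K + 1) (Nat.lt_succ_of_le hW) (fun j => Nat.lt_succ_of_le (hID j)),
    Finset.sum_mul]
  refine (norm_sum_le _ _).trans (Finset.sum_le_sum fun j hj => ?_)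
  rw [Finset.sum_mul]
  refine (norm_sum_le _ _).trans (Finset.sum_le_sum fun i hi => ?_)
  rw [Finset.mem_range] at hi hj
  rw [norm_mul, norm_mul, norm_pow, norm_pow, Complex.norm_intCast, mul_assoc]
  apply mul_le_mul_of_nonneg_left _ (abs_nonneg _)
  apply mul_le_mul _ _ (by positivity) (by positivity)
  · exact (pow_le_pow_left₀ (norm_nonneg _) (le_max_right _ _) _).trans
      (pow_le_pow_right₀ (le_max_left _ _) (by omega))
  · exact (pow_le_pow_left₀ (norm_nonneg _) (le_max_right _ _) _).trans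
      (pow_le_pow_right₀ (le_max_left _ _) (by omega))

lemma gen_int {L : Type} [Field L] [Algebra ℚ L] (α β : L)
    (hgen : ∀ z : L, ∃ w1 ∈ Algebra.adjoin ℚ {α, β}, ∃ w2 ∈ Algebra.adjoin ℚ {α, β},
      w2 ≠ 0 ∧ w2 * z = w1) (z : L) :
    ∃ W1 W2 : ℤ[X][X], ev α β W2 ≠ 0 ∧ ev α β W2 * z = ev α β W1 := by
  have : CharZero L := algebraRat.charZero L
  have key : ∀ w ∈ Algebra.adjoin ℚ {α, β}, ∃ (m : ℤ) (W : ℤ[X][X]), m ≠ 0 ∧
      ev α β W = (m : L) * w := by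
    intro w hw
    induction hw using Algebra.adjoin_induction with
    | mem x hx =>
      rcases hx with rfl | hx
      · exact ⟨1, C X, one_ne_zero, by rw [ev_C, evf_X, Int.cast_one, one_mul]⟩
      · rw [Set.mem_singleton_iff.1 hx]
        exact ⟨1, X, one_ne_zero, by rw [ev_X, Int.cast_one, one_mul]⟩
    | algebraMap r =>
      refine ⟨r.den, C (C r.num), by exact_mod_cast r.den_nz, ?_⟩
      rw [ev_C, evf_C, eq_ratCast]
      have h1 : ((r.den : ℤ) : L) = (((r.den : ℤ) : ℚ) : L) := by push_cast; rfl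
      have h2 : ((r.num : ℤ) : L) = ((r.num : ℚ) : L) := by push_cast; rfl
      rw [h1, h2, ← Rat.cast_mul]
      congr 1
      push_cast
      exact (Rat.den_mul_eq_num r).symm
    | add x y _ _ hx hy =>
      obtain ⟨m, W, hm, hW⟩ := hx
      obtain ⟨m', W', hm', hW'⟩ := hy
      refine ⟨m * m', C (C m') * W + C (C m) * W', mul_ne_zero hm hm', ?_⟩
      rw [map_add, map_mul, map_mul, ev_C, ev_C, evf_C, evf_C, hW, hW']
      push_cast
      ring
    | mul x y _ _ hx hy =>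
      obtain ⟨m, W, hm, hW⟩ := hx
      obtain ⟨m', W', hm', hW'⟩ := hy
      refine ⟨m * m', W * W', mul_ne_zero hm hm', ?_⟩
      rw [map_mul, hW, hW']
      push_cast
      ring
  obtain ⟨w1, h1, w2, h2, h3, h4⟩ := hgen z
  obtain ⟨m1, W1, hm1, hW1⟩ := key w1 h1
  obtain ⟨m2, W2, hm2, hW2⟩ := key w2 h2
  have hm1' : (m1 : L) ≠ 0 := by exact_mod_cast hm1
  have hm2' : (m2 : L) ≠ 0 := by exact_mod_cast hm2
  refine ⟨C (C m2) * W1, C (C m1) * W2, ?_, ?_⟩
  · rw [map_mul, ev_C, evf_C, hW2]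
    exact mul_ne_zero hm1' (mul_ne_zero hm2' h3)
  · rw [map_mul, map_mul, ev_C, ev_C, evf_C, evf_C, hW2, hW1, ← h4]
    ring

lemma ker_dvd {L : Type} [Field L] [Algebra ℚ L] (α β : L) (hα : Transcendental ℚ α)
    (G : ℤ[X][X]) (hG : G.Monic) (hirr : Irreducible G) (hz : ev α β G = 0) (W : ℤ[X][X])
    (hW : ev α β W = 0) : G ∣ W := by
  let _ : Algebra ℤ[X] L := (evf α).toAlgebra
  have htf : Module.IsTorsionFree ℤ[X] L :=
    Module.isTorsionFree_iff_algebraMap_injective.2 (evf_inj α hα)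
  have hint : IsIntegral ℤ[X] β := ⟨G, hG, hz⟩
  have h1 : minpoly ℤ[X] β ∣ G := minpoly.isIntegrallyClosed_dvd hint hz
  have h2 : minpoly ℤ[X] β ∣ W := minpoly.isIntegrallyClosed_dvd hint hW
  obtain ⟨q, hq⟩ := h1
  rcases hirr.isUnit_or_isUnit hq with h | h
  · exact absurd h (minpoly.not_isUnit ℤ[X] β)
  · refine dvd_trans ?_ h2
    obtain ⟨u, rfl⟩ := h
    rw [hq]
    exact ⟨((u⁻¹ : ℤ[X][X]ˣ) : ℤ[X][X]), by rw [mul_assoc, Units.mul_inv, mul_one]⟩

section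

variable {k : Type} [Field k] [NumberField k]

lemma exists_basis (hMAT : S_MAT) (k : Type) [Field k] [NumberField k] (m : ℕ)
    (hkm : Module.finrank ℚ k = m) : ∃ (ω ω' : Fin m → 𝓞 k) (Δ : ℕ), 1 ≤ Δ ∧
    (∀ z : 𝓞 k, ∃ b : Fin m → ℤ, z = ∑ i, (b i : 𝓞 k) * ω i) ∧
    ∀ (M : Type) [Field M] [CharZero M] [IsAlgClosed M], DualId M ω ω' Δ := by
  subst hkm
  obtain ⟨ω, ω', Δ, h1, h2, h3⟩ := hMAT k
  exact ⟨ω, ω', Δ, h1, h2, fun M _ _ _ => h3 M⟩

lemma hom_sum {m : ℕ} {ω : Fin m → 𝓞 k} (z : 𝓞 k) (b : Fin m → ℤ)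
    (hz : z = ∑ i, (b i : 𝓞 k) * ω i) {M : Type} [Field M] (τ : k →+* M) :
    τ z = ∑ j, (b j : M) * τ (ω j) := by
  have h1 := congrArg (τ.comp (algebraMap (𝓞 k) k)) hz
  rw [map_sum] at h1
  refine h1.trans (Finset.sum_congr rfl fun j _ => ?_)
  rw [map_mul, map_intCast]
  rfl

lemma coord_le {m : ℕ} {ω ω' : Fin m → 𝓞 k} {Δ : ℕ} (hΔ : 1 ≤ Δ) (hd : DualId ℂ ω ω' Δ)
    (z : 𝓞 k) (b : Fin m → ℤ) (hz : z = ∑ i, (b i : 𝓞 k) * ω i) (T : ℝ)
    (hT : ∀ τ : k →+* ℂ, ‖τ z‖ ≤ T) (i : Fin m) : |(b i : ℝ)| ≤ hs (ω' i : k) * T := by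
  have h1 : ∑ τ : k →+* ℂ, τ (ω' i) * τ z = Δ * b i := by
    have h2 : ∀ τ : k →+* ℂ, τ (ω' i) * τ z = ∑ j, (b j : ℂ) * (τ (ω' i) * τ (ω j)) := by
      intro τ
      have h3 : τ (z : k) = ∑ j, (b j : ℂ) * τ (ω j) := hom_sum z b hz τ
      rw [h3, Finset.mul_sum]
      apply Finset.sum_congr rfl
      intro j _
      ring
    rw [Finset.sum_congr rfl fun τ _ => h2 τ, Finset.sum_comm, Finset.sum_eq_single i]
    · rw [← Finset.mul_sum, hd.1 i i, if_pos rfl]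
      ring
    · intro l _ hl
      rw [← Finset.mul_sum, hd.1 i l, if_neg (Ne.symm hl), mul_zero]
    · intro h0
      exact absurd (Finset.mem_univ _) h0
  have h2 : (Δ : ℝ) * |(b i : ℝ)| ≤ hs (ω' i : k) * T := by
    have h3 := congrArg norm h1
    rw [norm_mul, Complex.norm_natCast, Complex.norm_intCast] at h3
    rw [← h3, hs, Finset.sum_mul]
    refine (norm_sum_le _ _).trans (Finset.sum_le_sum fun τ _ => ?_)
    rw [norm_mul]
    exact mul_le_mul_of_nonneg_left (hT τ) (norm_nonneg _)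
  have h3 : (1 : ℝ) ≤ Δ := by exact_mod_cast hΔ
  nlinarith [abs_nonneg (b i : ℝ)]

end

end Pool.Agent.K1H93.NF
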