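import Pool.Agent.K1H93.NF.Mon

set_option autoImplicit false

/-! The integral closure of `ℤ[α]` and its homomorphisms to `ℂ`. -/

open Polynomial NumberField

namespace Pool.Agent.K1H93.NF

open Pool.Agent.H322R2 Pool.Agent.K1H93.TG

section

variable {M : Type} [Field M]

/-- the elements integral over `ℤ[α]` -/
noncomputable def Sc (α : M) : Subring M :=
  @Subalgebra.toSubring ℤ[X] M _ _ (evf α).toAlgebra
    (@integralClosure ℤ[X] M _ _ (evf α).toAlgebra)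

lemma mem_Sc {α z : M} : z ∈ Sc α ↔ ∃ G : ℤ[X][X], G.Monic ∧ ev α z G = 0 := by
  let _ : Algebra ℤ[X] M := (evf α).toAlgebra
  change z ∈ integralClosure ℤ[X] M ↔ _
  rw [mem_integralClosure_iff]
  rfl

lemma self_mem_Sc (α : M) : α ∈ Sc α := by
  rw [mem_Sc]
  refine ⟨X - C X, monic_X_sub_C _, ?_⟩
  rw [map_sub, ev_X, ev_C, evf_X, sub_self]

lemma int_mem_Sc (α : M) {z : M} (hz : IsIntegral ℤ z) : z ∈ Sc α := by
  rw [mem_Sc]
  obtain ⟨p, hp, hpz⟩ := hz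
  refine ⟨p.map C, hp.map _, ?_⟩
  rw [ev_apply, eval₂_map]
  have : (evf α).comp C = Int.castRingHom M := Subsingleton.elim _ _
  rw [this]
  exact hpz

lemma root_mem_Sc (α : M) {n : ℕ} (hn : 0 < n) {z : M} (hz : z ^ n ∈ Sc α) : z ∈ Sc α := by
  let _ : Algebra ℤ[X] M := (evf α).toAlgebra
  have h1 : z ^ n ∈ integralClosure ℤ[X] M := hz
  rw [mem_integralClosure_iff] at h1
  have h2 : z ∈ integralClosure ℤ[X] M := (mem_integralClosure_iff ℤ[X] M).2 (h1.of_pow hn)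
  exact h2

lemma ev_mem_Sc {α β : M} (h : β ∈ Sc α) (W : ℤ[X][X]) : ev α β W ∈ Sc α := by
  have h1 : ∀ p : ℤ[X], evf α p ∈ Sc α := by
    intro p
    rw [mem_Sc]
    refine ⟨X - C p, monic_X_sub_C _, ?_⟩
    rw [map_sub, ev_X, ev_C, sub_self]
  rw [ev_apply, eval₂_eq_sum]
  exact sum_mem fun i _ => mul_mem (h1 _) (pow_mem h _)

lemma map_Sc {E : Type} [Field E] (j : E →+* M) {α z : E} (hz : z ∈ Sc α) : j z ∈ Sc (j α) := by
  rw [mem_Sc] at hz ⊢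
  obtain ⟨G, hG, h⟩ := hz
  refine ⟨G, hG, ?_⟩
  rw [← map_ev, h, map_zero]

/-- extension of homomorphisms -/
lemma ext_Sc {E : Type} [Field E] (j : E →+* M) (α : E) (φ : Sc α →+* ℂ) :
    ∃ ψ : Sc (j α) →+* ℂ, ∀ z (hz : z ∈ Sc α), ψ ⟨j z, map_Sc j hz⟩ = φ ⟨z, hz⟩ := by
  let u : Sc α →+* Sc (j α) := (j.comp (Sc α).subtype).codRestrict (Sc (j α))
    (fun z => map_Sc j z.2)
  have hu : ∀ z : Sc α, ((u z : Sc (j α)) : M) = j z := fun z => rfl
  have huinj : Function.Injective u := by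
    intro a b h
    have h1 := congrArg (Subtype.val) h
    rw [hu, hu] at h1
    exact Subtype.ext (j.injective h1)
  let _ : Algebra (Sc α) (Sc (j α)) := u.toAlgebra
  have hfs : FaithfulSMul (Sc α) (Sc (j α)) := (faithfulSMul_iff_algebraMap_injective _ _).2 huinj
  have hui : Algebra.IsIntegral (Sc α) (Sc (j α)) := by
    constructor
    rintro ⟨z, hz⟩
    obtain ⟨W, hW, hWz⟩ := mem_Sc.1 hz
    refine ⟨W.map (evf (⟨α, self_mem_Sc α⟩ : Sc α)), hW.map _, ?_⟩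
    rw [eval₂_map]
    have h1 : (algebraMap (Sc α) (Sc (j α))).comp (evf (⟨α, self_mem_Sc α⟩ : Sc α)) =
        evf (⟨j α, self_mem_Sc (j α)⟩ : Sc (j α)) := by
      apply RingHom.ext
      intro p
      exact map_evf (algebraMap (Sc α) (Sc (j α))) _ p
    rw [h1]
    apply Subtype.ext
    have := map_ev (Sc (j α)).subtype (⟨j α, self_mem_Sc (j α)⟩ : Sc (j α)) ⟨z, hz⟩ W
    exact this.trans hWz
  obtain ⟨ψ, hψ⟩ := ext_hom (S := Sc (j α)) φ
  exact ⟨ψ, fun z hz => hψ ⟨z, hz⟩⟩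

/-- homomorphisms given by points -/
lemma point_Sc (α β : M) (G : ℤ[X][X]) (hGm : G.Monic) (hG : ev α β G = 0)
    (hGdvd : ∀ W : ℤ[X][X], ev α β W = 0 → G ∣ W) (x s : ℂ) (hxs : ev x s G = 0) :
    ∃ ψ : Sc α →+* ℂ, ∀ (W : ℤ[X][X]) (hW : ev α β W ∈ Sc α), ψ ⟨ev α β W, hW⟩ = ev x s W := by
  have hβ : β ∈ Sc α := mem_Sc.2 ⟨G, hGm, hG⟩
  obtain ⟨u, hu⟩ : ∃ u : AdjoinRoot G →+* Sc α, ∀ W : ℤ[X][X],
      u (AdjoinRoot.mk G W) = ev (⟨α, self_mem_Sc α⟩ : Sc α) ⟨β, hβ⟩ W := by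
    refine ⟨AdjoinRoot.lift (evf (⟨α, self_mem_Sc α⟩ : Sc α)) ⟨β, hβ⟩ ?_, fun W => ?_⟩
    · apply Subtype.ext
      have := map_ev (Sc α).subtype (⟨α, self_mem_Sc α⟩ : Sc α) ⟨β, hβ⟩ G
      exact this.trans hG
    · rw [AdjoinRoot.lift_mk]; rfl
  have huc : ∀ W : ℤ[X][X], ((u (AdjoinRoot.mk G W) : Sc α) : M) = ev α β W := by
    intro W
    rw [hu]
    exact map_ev (Sc α).subtype (⟨α, self_mem_Sc α⟩ : Sc α) ⟨β, hβ⟩ W
  have huinj : Function.Injective u := by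
    rw [injective_iff_map_eq_zero]
    intro z hz
    obtain ⟨W, rfl⟩ := AdjoinRoot.mk_surjective z
    rw [AdjoinRoot.mk_eq_zero]
    apply hGdvd
    rw [← huc, hz]; rfl
  let _ : Algebra (AdjoinRoot G) (Sc α) := u.toAlgebra
  have hfs : FaithfulSMul (AdjoinRoot G) (Sc α) :=
    (faithfulSMul_iff_algebraMap_injective _ _).2 huinj
  have hui : Algebra.IsIntegral (AdjoinRoot G) (Sc α) := by
    constructor
    rintro ⟨z, hz⟩
    obtain ⟨W, hW, hWz⟩ := mem_Sc.1 hz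
    refine ⟨W.map (AdjoinRoot.of G), hW.map _, ?_⟩
    rw [eval₂_map]
    have h1 : (algebraMap (AdjoinRoot G) (Sc α)).comp (AdjoinRoot.of G) =
        evf (⟨α, self_mem_Sc α⟩ : Sc α) := by
      apply RingHom.ext
      intro q
      change u (AdjoinRoot.of G q) = _
      have := hu (C q)
      rw [ev_C] at this
      exact this
    rw [h1]
    apply Subtype.ext
    have := map_ev (Sc α).subtype (⟨α, self_mem_Sc α⟩ : Sc α) ⟨z, hz⟩ W
    exact this.trans hWz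
  obtain ⟨φ0, hφ0⟩ : ∃ φ0 : AdjoinRoot G →+* ℂ, ∀ W : ℤ[X][X],
      φ0 (AdjoinRoot.mk G W) = ev x s W :=
    ⟨AdjoinRoot.lift (evf x) s hxs, fun W => AdjoinRoot.lift_mk (i := evf x) (a := s) hxs W⟩
  obtain ⟨ψ, hψ⟩ := ext_hom (S := Sc α) φ0
  refine ⟨ψ, fun W hW => ?_⟩
  rw [← hφ0, ← hψ]
  congr 1
  apply Subtype.ext
  exact (huc W).symm

end

section

variable {k : Type} [Field k] [NumberField k]

/-- the sum of the absolute values of the conjugates -/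
noncomputable def hs (z : k) : ℝ := ∑ τ : k →+* ℂ, ‖τ z‖

lemma hs_nonneg (z : k) : 0 ≤ hs z := Finset.sum_nonneg fun _ _ => norm_nonneg _

lemma le_hs (z : k) (τ : k →+* ℂ) : ‖τ z‖ ≤ hs z :=
  Finset.single_le_sum (f := fun τ : k →+* ℂ => ‖τ z‖) (fun _ _ => norm_nonneg _)
    (Finset.mem_univ τ)

/-- homomorphisms of the integers extend to the field -/
lemma ext_int (ρ : 𝓞 k →+* ℂ) : ∃ τ : k →+* ℂ, ∀ z : 𝓞 k, τ z = ρ z := by
  have hinj : Function.Injective ρ := by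
    rw [injective_iff_map_eq_zero]
    intro z hz
    by_contra h0
    have h1 : IsIntegral ℤ z := Algebra.IsIntegral.isIntegral z
    obtain ⟨q, hq0, hq⟩ : ∃ q : ℕ, q ≠ 0 ∧ z ∣ (q : 𝓞 k) := by
      refine ⟨Ideal.absNorm (Ideal.span {z}), ?_, ?_⟩
      · rw [Ne, Ideal.absNorm_eq_zero_iff, Ideal.span_singleton_eq_bot]
        exact h0
      · exact Ideal.mem_span_singleton.1 (Ideal.absNorm_mem _)
    obtain ⟨y, hy⟩ := hq
    have h2 := congrArg ρ hy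
    rw [map_mul, hz, zero_mul, map_natCast] at h2
    exact hq0 (by exact_mod_cast h2)
  refine ⟨IsFractionRing.lift (A := 𝓞 k) (K := k) (g := ρ) hinj, fun z => ?_⟩
  exact IsFractionRing.lift_algebraMap hinj z

lemma norm_hom_le (ρ : 𝓞 k →+* ℂ) (z : 𝓞 k) : ‖ρ z‖ ≤ hs (z : k) := by
  obtain ⟨τ, hτ⟩ := ext_int ρ
  rw [← hτ]
  exact le_hs _ τ

end

end Pool.Agent.K1H93.NF
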