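import Mathlib

set_option autoImplicit false

/-! Interface: the pieces of the theorem on torsion functions over number fields. -/

open NumberField

namespace Pool.Agent.K1H93.NF

/-- **Descent.** If `y g = a h ^ n` in the integers of `k` and `e0` is in the ideal `(y, g, h)`, then
`e y` is an `n`-th power for some `e ≠ 0` all of whose conjugates are bounded by `(c N) ^ C`, `a`,
`e0 ≤ N`, where `C` depends on `n` and the degree of `k` only, `c` on `n` and `k`. -/
def S_DSC : Prop :=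
  ∀ n m : ℕ, 1 ≤ n → ∃ C : ℕ, ∀ (k : Type) [Field k] [NumberField k], Module.finrank ℚ k = m →
    ∃ c : ℕ, 1 ≤ c ∧ ∀ a e0 N : ℕ, 1 ≤ a → 1 ≤ e0 → a ≤ N → e0 ≤ N → ∀ y g h : 𝓞 k,
      y * g = a * h ^ n → (e0 : 𝓞 k) ∈ Ideal.span ({y, g, h} : Set (𝓞 k)) →
      ∃ e s : 𝓞 k, e ≠ 0 ∧ e * y = s ^ n ∧ ∀ τ : k →+* ℂ, ‖τ e‖ ≤ ((c * N : ℕ) : ℝ) ^ C

open Classical in
/-- **Integral bases and their trace duals.** -/
def S_MAT : Prop :=
  ∀ (k : Type) [Field k] [NumberField k], ∃ (ω ω' : Fin (Module.finrank ℚ k) → 𝓞 k) (Δ : ℕ), 1 ≤ Δ ∧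
    (∀ z : 𝓞 k, ∃ b : Fin (Module.finrank ℚ k) → ℤ, z = ∑ i, (b i : 𝓞 k) * ω i) ∧
    ∀ (M : Type) [Field M] [CharZero M] [IsAlgClosed M],
      (∀ i j, ∑ σ : k →+* M, σ (ω' i) * σ (ω j) = if i = j then (Δ : M) else 0) ∧
      ∀ σ τ : k →+* M, ∑ i, σ (ω i) * τ (ω' i) = if σ = τ then (Δ : M) else 0

/-- **Residue fields.** `M` is algebraically closed, `O` is a valuation ring of `M` above `A ⊆ L`, all
embeddings of `E` over `L` pull back `O` to the same `A'`, and elements `v i` of `A'` separate the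
embeddings modulo the maximal ideal of `O`. Then the residue degree of `A'` is `[E : L]`, and the
residue classes of the `v i` generate the residue field of `A'` over that of `A`. -/
def S_ETL : Prop :=
  ∀ (L E M : Type) [Field L] [Field E] [Field M] [CharZero L] [Algebra L E] [Algebra L M]
    [FiniteDimensional L E] [IsAlgClosed M] (A : ValuationSubring L) (A' : ValuationSubring E)
    (O : ValuationSubring M), (∀ z : L, algebraMap L M z ∈ O ↔ z ∈ A) →
    (∀ (ψ : E →ₐ[L] M) (z : E), ψ z ∈ O ↔ z ∈ A') → ∀ (m : ℕ) (v : Fin m → A'),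
    (∀ ψ ψ' : E →ₐ[L] M, ψ ≠ ψ' → ∃ i, ¬ O.valuation (ψ (v i) - ψ' (v i)) < 1) →
    ∃ j : IsLocalRing.ResidueField A →+* IsLocalRing.ResidueField A',
      (∀ (z : A) (hz : algebraMap L E z ∈ A'),
        j (IsLocalRing.residue A z) = IsLocalRing.residue A' ⟨algebraMap L E z, hz⟩) ∧
      @Module.finrank (IsLocalRing.ResidueField A) (IsLocalRing.ResidueField A') _ _
        j.toAlgebra.toModule = Module.finrank L E ∧
      ∀ K : Subfield (IsLocalRing.ResidueField A'), (∀ z, j z ∈ K) →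
        (∀ i, IsLocalRing.residue A' (v i) ∈ K) → K = ⊤

/-- **Degrees.** -/
def S_DEG : Prop :=
  ∀ (L M : Type) [Field L] [Field M] [Algebra L M] (E F : IntermediateField L M)
    [FiniteDimensional L E] (m : ℕ) (θ : Fin m → E) (c : Fin m → F) (Z : M),
    Z = ∑ i, (c i : M) * (θ i : M) → IsIntegral F Z →
    (minpoly F Z).natDegree ≤ Module.finrank L E

end Pool.Agent.K1H93.NF
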