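import Pool.Agent.K1H93.NF.Val
import Pool.Agent.K1H93.NF.Stm

set_option autoImplicit false

/-! Residue fields of the covering. -/

open Polynomial NumberField IntermediateField

namespace Pool.Agent.K1H93.NF

section

variable {M : Type} [Field M] [CharZero M]

lemma res_zero_iff (O : ValuationSubring M) (z : O) :
    IsLocalRing.residue O z = 0 ↔ O.valuation (z : M) < 1 := by
  rw [IsLocalRing.residue_eq_zero_iff, ValuationSubring.valuation_lt_one_iff]

lemma charZero_res (O : ValuationSubring M) (hQ : ∀ q : ℚ, (q : M) ∈ O) :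
    CharZero (IsLocalRing.ResidueField O) := by
  let f : ℚ →+* O := (algebraMap ℚ M).codRestrict O (fun q => by
    have := hQ q
    rwa [← eq_ratCast (algebraMap ℚ M) q] at this)
  exact charZero_of_injective_ringHom ((IsLocalRing.residue O).comp f).injective

variable {k : Type} [Field k] [NumberField k]

lemma emb_mem_O (O : ValuationSubring M) (hQ : ∀ q : ℚ, (q : M) ∈ O) (σ : k →+* M) (x : k) :
    σ x ∈ O := alg_mem O hQ (alg_emb σ x).isIntegral

/-- the residue class of an embedding -/
noncomputable def sbar (O : ValuationSubring M) (hQ : ∀ q : ℚ, (q : M) ∈ O) (σ : k →+* M) :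
    k →+* IsLocalRing.ResidueField O :=
  (IsLocalRing.residue O).comp (σ.codRestrict O (emb_mem_O O hQ σ))

lemma sbar_apply (O : ValuationSubring M) (hQ : ∀ q : ℚ, (q : M) ∈ O) (σ : k →+* M) (x : k) :
    sbar O hQ σ x = IsLocalRing.residue O ⟨σ x, emb_mem_O O hQ σ x⟩ := rfl

lemma sbar_inj (O : ValuationSubring M) (hQ : ∀ q : ℚ, (q : M) ∈ O) :
    Function.Injective (sbar (k := k) O hQ) := by
  intro σ τ h
  apply RingHom.ext
  intro x
  by_contra hne
  have h1 := congrArg (fun f : k →+* IsLocalRing.ResidueField O => f x) h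
  rw [sbar_apply, sbar_apply, ← sub_eq_zero, ← map_sub, res_zero_iff] at h1
  have h2 : O.valuation (σ x - τ x) = 1 :=
    val_alg O hQ ((alg_emb σ x).sub (alg_emb τ x)) (sub_ne_zero.2 hne)
  change O.valuation (σ x - τ x) < 1 at h1
  rw [h2] at h1
  exact lt_irrefl _ h1

lemma alg_sbar (O : ValuationSubring M) (hQ : ∀ q : ℚ, (q : M) ∈ O) (σ : k →+* M) (x : k)
    (κ : Type) [Field κ] [CharZero κ] [Algebra κ (IsLocalRing.ResidueField O)] :
    IsAlgebraic κ (sbar O hQ σ x) := by
  have hx : IsIntegral ℚ x := Algebra.IsIntegral.isIntegral x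
  obtain ⟨p, hp, hpx⟩ := hx
  have h2 : IsIntegral κ (sbar O hQ σ x) := by
    refine ⟨p.map (algebraMap ℚ κ), hp.map _, ?_⟩
    rw [eval₂_map]
    have h3 := hom_eval₂ p (algebraMap ℚ k) (sbar O hQ σ) x
    rw [hpx, map_zero] at h3
    rw [h3]
    congr 1
    exact Subsingleton.elim _ _
  exact h2.isAlgebraic

end

lemma finrank_range {κ : Type} [Field κ] [Algebra ℚ κ] (ι : κ →+* ℝ) :
    Module.finrank ℚ (IntermediateField.adjoin ℚ (Set.range ι)) = Module.finrank ℚ κ := by
  obtain ⟨ι1, hι1⟩ : ∃ ι1 : κ →ₐ[ℚ] ℝ, ∀ z, ι1 z = ι z :=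
    ⟨{ toRingHom := ι, commutes' := fun q => (by
        change ι (algebraMap ℚ κ q) = _
        rw [eq_ratCast, map_ratCast, eq_ratCast]) }, fun z => rfl⟩
  have h1 : IntermediateField.adjoin ℚ (Set.range ι) = ι1.fieldRange := by
    apply le_antisymm
    · rw [adjoin_le_iff]
      rintro _ ⟨z, rfl⟩
      exact ⟨z, hι1 z⟩
    · rintro _ ⟨z, rfl⟩
      apply subset_adjoin
      exact ⟨z, (hι1 z).symm⟩
  rw [h1]
  exact (AlgEquiv.ofInjectiveField ι1).toLinearEquiv.finrank_eq.symm

section

variable {k : Type} [Field k] [NumberField k] {m : ℕ} {L M : Type} [Field L] [Field M]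
  [Algebra L M] [CharZero M] [IsAlgClosed M] [Algebra.IsAlgebraic L M]

/-- `θ` is a system of `n`-th roots of the numbers `z τ`, compatible with the complex
conjugation, and `K` is generated by `R` and the traces. -/
def Trc (k : Type) [Field k] [NumberField k] (n : ℕ) (z : (k →+* ℂ) → ℂ) (R : Set ℝ)
    (K : IntermediateField ℚ ℝ) : Prop :=
  ∃ θ : (k →+* ℂ) → ℂ, (∀ τ, θ τ ^ n = z τ) ∧
    (∀ τ, θ (ComplexEmbedding.conjugate τ) = starRingEnd ℂ (θ τ)) ∧
    K = IntermediateField.adjoin ℚ (R ∪ {x : ℝ | ∃ b : k, (x : ℂ) = ∑ τ : k →+* ℂ, τ b * θ τ})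

theorem residue (hETL : S_ETL) [CharZero L] {n : ℕ} (hn : 0 < n) {O : ValuationSubring M}
    {ω ω' : Fin m → 𝓞 k} {Δ : ℕ} (hΔ : 1 ≤ Δ) (hd : DualId M ω ω' Δ) (hdC : DualId ℂ ω ω' Δ)
    {q : Fin m → L} {t : L} (hQO : ∀ x : ℚ, (x : M) ∈ O) (Z : (k →+* M) → M)
    (hZ : ∀ σ, Z σ ^ n = qs ω q σ) (A : ValuationSubring L)
    (hOA : ∀ z : L, algebraMap L M z ∈ O ↔ z ∈ A)
    (w : Fin m → A) (hw : ∀ i, (w i : L) = q i * t ^ n)
    (hne : ∀ (ι : IsLocalRing.ResidueField A →+* ℝ) (τ : k →+* ℂ),
      ∑ i, (ι (IsLocalRing.residue A (w i)) : ℂ) * τ (ω i) ≠ 0)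
    (A' : ValuationSubring (EE L ω' Z)) (hA' : ∀ (ψ : EE L ω' Z →ₐ[L] M) z, ψ z ∈ O ↔ z ∈ A')
    (g : ℚ[X]) (hg : g.Monic) (hgi : Irreducible g)
    (iso : IsLocalRing.ResidueField A' ≃+* AdjoinRoot g) (η : ℝ) (hη : aeval η g = 0) :
    ∃ ι : IsLocalRing.ResidueField A →+* ℝ,
      Module.finrank ℚ (IntermediateField.adjoin ℚ (Set.range ι)) *
        Module.finrank L (EE L ω' Z) = g.natDegree ∧
      Trc k n (fun τ => ∑ i, (ι (IsLocalRing.residue A (w i)) : ℂ) * τ (ω i)) (Set.range ι)
        ℚ⟮η⟯ := by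
  classical
  have hval : ∀ z : EE L ω' Z, (z : M) ∈ O ↔ z ∈ A' := hA' (EE L ω' Z).val
  -- the residue field in that of `O`
  let f : A' →+* O := (((EE L ω' Z).val : EE L ω' Z →+* M).comp A'.subtype).codRestrict O
    (fun z => (hval z).2 z.2)
  have hf : ∀ z : A', ((f z : O) : M) = ((z : EE L ω' Z) : M) := fun z => rfl
  have hloc : IsLocalHom f := by
    constructor
    intro z hz
    obtain ⟨y, hy⟩ := hz.exists_right_inv
    have h1 : ((z : EE L ω' Z) : M) * (y : M) = 1 := by
      have := congrArg (Subtype.val) hy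
      exact this
    have hz0 : (z : EE L ω' Z) ≠ 0 := by
      intro h0
      rw [h0, ZeroMemClass.coe_zero, zero_mul] at h1
      exact zero_ne_one h1
    have h2 : (z : EE L ω' Z)⁻¹ ∈ A' := by
      rw [← hval]
      have : (((z : EE L ω' Z)⁻¹ : EE L ω' Z) : M) = y := by
        push_cast
        exact inv_eq_of_mul_eq_one_right h1
      rw [this]
      exact y.2
    refine IsUnit.of_mul_eq_one ⟨_, h2⟩ ?_
    apply Subtype.ext
    exact mul_inv_cancel₀ hz0
  obtain ⟨e0, he0⟩ : ∃ e0 : IsLocalRing.ResidueField A' →+* IsLocalRing.ResidueField O,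
      ∀ z : A', e0 (IsLocalRing.residue A' z) = IsLocalRing.residue O (f z) :=
    ⟨IsLocalRing.ResidueField.map f, fun z => IsLocalRing.ResidueField.map_residue f z⟩
  have hcO : CharZero (IsLocalRing.ResidueField O) := charZero_res O hQO
  have hcA' : CharZero (IsLocalRing.ResidueField A') := e0.charZero
  -- the residue field of `A` in that of `A'`
  have hAA' : ∀ z : L, algebraMap L (EE L ω' Z) z ∈ A' ↔ z ∈ A := by
    intro z
    rw [← hval, ← hOA]
    rfl
  let f0 : A →+* A' := ((algebraMap L (EE L ω' Z)).comp A.subtype).codRestrict A'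
    (fun z => (hAA' z).2 z.2)
  have hf0 : ∀ z : A, ((f0 z : A') : EE L ω' Z) = algebraMap L (EE L ω' Z) (z : L) := fun z => rfl
  have hloc0 : IsLocalHom f0 := by
    constructor
    intro z hz
    obtain ⟨y, hy⟩ := hz.exists_right_inv
    have h1 : algebraMap L (EE L ω' Z) (z : L) * (y : EE L ω' Z) = 1 := by
      have := congrArg (Subtype.val) hy
      exact this
    have hz0 : (z : L) ≠ 0 := by
      intro h0
      rw [h0, map_zero, zero_mul] at h1
      exact zero_ne_one h1
    have h2 : (z : L)⁻¹ ∈ A := by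
      rw [← hAA', map_inv₀]
      have : (algebraMap L (EE L ω' Z) (z : L))⁻¹ = y := inv_eq_of_mul_eq_one_right h1
      rw [this]
      exact y.2
    refine IsUnit.of_mul_eq_one ⟨_, h2⟩ ?_
    apply Subtype.ext
    exact mul_inv_cancel₀ hz0
  obtain ⟨j0, hj0⟩ : ∃ j0 : IsLocalRing.ResidueField A →+* IsLocalRing.ResidueField A',
      ∀ z : A, j0 (IsLocalRing.residue A z) = IsLocalRing.residue A' (f0 z) :=
    ⟨IsLocalRing.ResidueField.map f0, fun z => IsLocalRing.ResidueField.map_residue f0 z⟩
  have hcA : CharZero (IsLocalRing.ResidueField A) := j0.charZero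
  -- the real embedding
  have hirr : Fact (Irreducible g) := ⟨hgi⟩
  obtain ⟨ι, hι⟩ : ∃ ι : IsLocalRing.ResidueField A' →+* ℝ, ∀ z, ι z =
      AdjoinRoot.lift (algebraMap ℚ ℝ) η (by rw [← aeval_def]; exact hη) (iso z) :=
    ⟨(AdjoinRoot.lift (algebraMap ℚ ℝ) η (by rw [← aeval_def]; exact hη)).comp
      (iso : IsLocalRing.ResidueField A' →+* AdjoinRoot g), fun z => rfl⟩
  have hιη : ∃ z, ι z = η := by
    refine ⟨iso.symm (AdjoinRoot.root g), ?_⟩
    rw [hι, RingEquiv.apply_symm_apply, AdjoinRoot.lift_root]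
  have hιmem : ∀ z, ι z ∈ ℚ⟮η⟯ := by
    intro z
    rw [hι]
    obtain ⟨p, hp⟩ := AdjoinRoot.mk_surjective (iso z)
    rw [← hp, AdjoinRoot.lift_mk, ← aeval_def]
    exact algebra_adjoin_le_adjoin _ _ (aeval_mem_adjoin_singleton ℚ η)
  -- complex embeddings
  let _ : Algebra (IsLocalRing.ResidueField A') (IsLocalRing.ResidueField O) := e0.toAlgebra
  let _ : Algebra (IsLocalRing.ResidueField A') ℂ := (Complex.ofRealHom.comp ι).toAlgebra
  let Fb : IntermediateField (IsLocalRing.ResidueField A') (IsLocalRing.ResidueField O) :=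
    algebraicClosure (IsLocalRing.ResidueField A') (IsLocalRing.ResidueField O)
  have hFb : Algebra.IsAlgebraic (IsLocalRing.ResidueField A') Fb :=
    algebraicClosure.isAlgebraic _ _
  let ιh : Fb →ₐ[IsLocalRing.ResidueField A'] ℂ := IsAlgClosed.lift
  have hιh : ∀ z : IsLocalRing.ResidueField A', ιh (algebraMap _ Fb z) = (ι z : ℂ) := fun z =>
    ιh.commutes z
  have hσF : ∀ (σ : k →+* M) x, sbar O hQO σ x ∈ Fb := by
    intro σ x
    rw [mem_algebraicClosure_iff]
    exact alg_sbar O hQO σ x _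
  let σF : (k →+* M) → k →+* Fb := fun σ => (sbar O hQO σ).codRestrict Fb (hσF σ)
  let T : (k →+* M) → (k →+* ℂ) := fun σ => (ιh : Fb →+* ℂ).comp (σF σ)
  have hTinj : Function.Injective T := by
    intro σ σ' hT
    apply sbar_inj O hQO
    apply RingHom.ext
    intro x
    have h1 := congrArg (fun f : k →+* ℂ => f x) hT
    have h2 : σF σ x = σF σ' x := (ιh : Fb →+* ℂ).injective h1
    exact congrArg Subtype.val h2
  have hTsurj : Function.Surjective T := by
    have h1 : Fintype.card (k →+* M) = Fintype.card (k →+* ℂ) := by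
      rw [Embeddings.card, Embeddings.card]
    exact ((Fintype.bijective_iff_injective_and_card T).2 ⟨hTinj, h1⟩).2
  -- the value of the function
  obtain ⟨W, hW⟩ : ∃ W : (k →+* M) → O, ∀ σ, W σ =
      ∑ i, f (f0 (w i)) * ⟨σ (ω i), emb_mem_O O hQO σ _⟩ := ⟨_, fun σ => rfl⟩
  have hWM : ∀ σ, ((W σ : O) : M) = algebraMap L M t ^ n * qs ω q σ := by
    intro σ
    rw [hW, qs, Finset.mul_sum]
    push_cast
    apply Finset.sum_congr rfl
    intro i _
    have h1 : ((f (f0 (w i)) : O) : M) = algebraMap L M (w i : L) := rfl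
    rw [h1, hw, map_mul, map_pow]
    ring
  have hWr : ∀ σ, IsLocalRing.residue O (W σ) = ∑ i, e0 (j0 (IsLocalRing.residue A (w i))) *
      sbar O hQO σ (ω i) := by
    intro σ
    rw [hW, map_sum]
    apply Finset.sum_congr rfl
    intro i _
    rw [map_mul, hj0, he0, sbar_apply]
  have hWF : ∀ σ, ιh (∑ i, algebraMap _ Fb (j0 (IsLocalRing.residue A (w i))) * σF σ (ω i)) =
      ∑ i, (ι (j0 (IsLocalRing.residue A (w i))) : ℂ) * T σ (ω i) := by
    intro σ
    rw [map_sum]
    apply Finset.sum_congr rfl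
    intro i _
    rw [map_mul, hιh]
    rfl
  have h : AtPlace n O ω q t := by
    refine ⟨hQO, fun σ => ?_⟩
    rw [← hWM]
    apply le_antisymm
    · rw [ValuationSubring.valuation_le_one_iff]
      exact (W σ).2
    · by_contra hlt
      rw [not_le, ← res_zero_iff, hWr] at hlt
      apply hne (ι.comp j0) (T σ)
      have h1 : (∑ i, algebraMap _ Fb (j0 (IsLocalRing.residue A (w i))) * σF σ (ω i)) = 0 := by
        apply Subtype.val_injective
        push_cast
        exact hlt
      have h2 := hWF σ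
      rw [h1, map_zero] at h2
      exact h2.symm
  -- the elements `t θ`
  have hv : ∀ i, algebraMap L (EE L ω' Z) t * ⟨th ω' Z i, th_mem ω' Z i⟩ ∈ A' := by
    intro i
    rw [← hval]
    change algebraMap L M t * th ω' Z i ∈ O
    rw [th, Finset.mul_sum]
    refine sum_mem fun σ _ => ?_
    have h1 : algebraMap L M t * (σ (ω' i) * Z σ) = σ (ω' i) * (algebraMap L M t * Z σ) := by ring
    rw [h1]
    refine mul_mem (emb_mem_O O hQO σ _) ?_
    rw [← ValuationSubring.valuation_le_one_iff, h.val_Z hn σ (hZ σ)]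
  obtain ⟨v, hvv⟩ : ∃ v : Fin m → A', ∀ i, ((v i : A') : EE L ω' Z) =
      algebraMap L (EE L ω' Z) t * ⟨th ω' Z i, th_mem ω' Z i⟩ := ⟨fun i => ⟨_, hv i⟩, fun i => rfl⟩
  obtain ⟨j, hj, hfin, hgen⟩ := hETL L (EE L ω' Z) M A A' O hOA hA' m v (by
    intro ψ ψ' hne
    obtain ⟨i, hi⟩ := h.separate hn hΔ hd Z hZ ψ ψ' hne
    exact ⟨i, by rw [hvv]; exact hi⟩)
  have hjj : j = j0 := by
    apply RingHom.ext
    intro z
    obtain ⟨a, rfl⟩ := IsLocalRing.residue_surjective z
    rw [hj a ((hAA' a).2 a.2), hj0]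
    rfl
  subst hjj
  -- degrees
  refine ⟨ι.comp j, ?_, ?_⟩
  · let _ : Algebra (IsLocalRing.ResidueField A) (IsLocalRing.ResidueField A') := j.toAlgebra
    have htow : IsScalarTower ℚ (IsLocalRing.ResidueField A) (IsLocalRing.ResidueField A') :=
      IsScalarTower.of_algebraMap_eq' (Subsingleton.elim _ _)
    rw [← hfin, finrank_range]
    have h1 : Module.finrank ℚ (AdjoinRoot g) =
        Module.finrank ℚ (IsLocalRing.ResidueField A') := by
      apply Algebra.finrank_eq_of_equiv_equiv (RingEquiv.refl ℚ) iso.symm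
      exact Subsingleton.elim _ _
    have h2 : g.natDegree = Module.finrank ℚ (AdjoinRoot g) := by
      rw [(AdjoinRoot.powerBasis' hg).finrank, AdjoinRoot.powerBasis'_dim]
    rw [h2, h1]
    exact Module.finrank_mul_finrank ℚ (IsLocalRing.ResidueField A) (IsLocalRing.ResidueField A')
  · -- the vector of roots
    have hdval : (Δ : ℂ) ≠ 0 := by exact_mod_cast (by omega : Δ ≠ 0)
    -- the identity in the residue field
    have hid : ∀ σ : k →+* M, (∑ i, e0 (IsLocalRing.residue A' (v i)) * sbar O hQO σ (ω i)) ^ n =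
        (Δ : IsLocalRing.ResidueField O) ^ n *
          ∑ i, e0 (j (IsLocalRing.residue A (w i))) * sbar O hQO σ (ω i) := by
      intro σ
      have h1 : ∑ i, e0 (IsLocalRing.residue A' (v i)) * sbar O hQO σ (ω i) =
          IsLocalRing.residue O (∑ i, f (v i) * ⟨σ (ω i), emb_mem_O O hQO σ _⟩) := by
        rw [map_sum]
        apply Finset.sum_congr rfl
        intro i _
        rw [map_mul, he0, sbar_apply]
      rw [← hWr, h1, ← map_pow, ← map_natCast (IsLocalRing.residue O), ← map_pow, ← map_mul]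
      congr 1
      apply Subtype.ext
      have h2 : (((∑ i, f (v i) * ⟨σ (ω i), emb_mem_O O hQO σ _⟩ : O) : O) : M) =
          Δ * (algebraMap L M t * Z σ) := by
        push_cast
        have h3 := th_mul hd Z σ
        calc ∑ i, ((f (v i) : O) : M) * σ (ω i)
            = algebraMap L M t * ∑ i, th ω' Z i * σ (ω i) := by
              rw [Finset.mul_sum]
              apply Finset.sum_congr rfl
              intro i _
              rw [hf, hvv]
              change algebraMap L M t * th ω' Z i * σ (ω i) = _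
              ring
          _ = _ := by rw [h3]; ring
      push_cast at h2 ⊢
      rw [h2, hWM, ← hZ]
      ring
    refine ⟨fun τ => (∑ i, (ι (IsLocalRing.residue A' (v i)) : ℂ) * τ (ω i)) / Δ, ?_, ?_, ?_⟩
    · intro τ
      obtain ⟨σ, rfl⟩ := hTsurj τ
      have h1 : (∑ i, algebraMap _ Fb (IsLocalRing.residue A' (v i)) * σF σ (ω i)) ^ n =
          (Δ : Fb) ^ n * ∑ i, algebraMap _ Fb (j (IsLocalRing.residue A (w i))) * σF σ (ω i) := by
        apply Subtype.val_injective
        have := hid σ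
        push_cast
        exact this
      have h2 := congrArg ιh h1
      rw [map_pow, map_sum, map_mul, map_pow, map_natCast, hWF] at h2
      beta_reduce
      rw [div_pow, div_eq_iff (pow_ne_zero _ hdval), mul_comm]
      refine Eq.trans ?_ h2
      congr 1
      apply Finset.sum_congr rfl
      intro i _
      rw [map_mul, hιh]
      rfl
    · intro τ
      beta_reduce
      rw [map_div₀, map_sum, map_natCast]
      congr 1
      apply Finset.sum_congr rfl
      intro i _
      rw [map_mul, Complex.conj_ofReal]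
      rfl
    · have hxi : ∀ i, (ι (IsLocalRing.residue A' (v i)) : ℂ) = ∑ τ : k →+* ℂ, τ (ω' i) *
          ((∑ i, (ι (IsLocalRing.residue A' (v i)) : ℂ) * τ (ω i)) / Δ) := by
        intro i
        have h1 : ∀ τ : k →+* ℂ, τ (ω' i) *
          ((∑ i, (ι (IsLocalRing.residue A' (v i)) : ℂ) * τ (ω i)) / Δ) =
            ∑ l, (ι (IsLocalRing.residue A' (v l)) : ℂ) / Δ * (τ (ω' i) * τ (ω l)) := by
          intro τ
          rw [Finset.sum_div, Finset.mul_sum]
          apply Finset.sum_congr rfl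
          intro l _
          ring
        rw [Finset.sum_congr rfl fun τ _ => h1 τ, Finset.sum_comm, Finset.sum_eq_single i]
        · rw [← Finset.mul_sum, hdC.1 i i, if_pos rfl]
          field_simp
        · intro l _ hl
          rw [← Finset.mul_sum, hdC.1 i l, if_neg (Ne.symm hl), mul_zero]
        · intro h0
          exact absurd (Finset.mem_univ _) h0
      apply le_antisymm
      · rw [adjoin_simple_le_iff]
        obtain ⟨z, hz⟩ := hιη
        rw [← hz]
        have hK := hgen ((IntermediateField.adjoin ℚ (Set.range (ι.comp j) ∪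
          {x : ℝ | ∃ b : k, (x : ℂ) =
          ∑ τ : k →+* ℂ, τ b * ((∑ i, (ι (IsLocalRing.residue A' (v i)) : ℂ) * τ (ω i)) / Δ)}
            )).toSubfield.comap ι) (by
            intro z
            rw [Subfield.mem_comap]
            exact subset_adjoin _ _ (Or.inl ⟨z, rfl⟩)) (by
            intro i
            rw [Subfield.mem_comap]
            exact subset_adjoin _ _ (Or.inr ⟨ω' i, hxi i⟩))
        have hzt : z ∈ (⊤ : Subfield (IsLocalRing.ResidueField A')) := Subfield.mem_top z
        rw [← hK, Subfield.mem_comap] at hzt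
        exact hzt
      · rw [adjoin_le_iff]
        rintro x (⟨z, rfl⟩ | ⟨b, hb⟩)
        · exact hιmem _
        have h1 : (x : ℂ) = ((∑ i, ι (IsLocalRing.residue A' (v i)) *
            ((Algebra.trace ℚ k (b * ω i) : ℚ) : ℝ) / Δ : ℝ) : ℂ) := by
          rw [hb]
          push_cast
          have h2 : ∀ τ : k →+* ℂ, τ b *
            ((∑ i, (ι (IsLocalRing.residue A' (v i)) : ℂ) * τ (ω i)) / Δ) =
              ∑ i, (ι (IsLocalRing.residue A' (v i)) : ℂ) / Δ * τ (b * ω i) := by
            intro τ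
            rw [Finset.sum_div, Finset.mul_sum]
            apply Finset.sum_congr rfl
            intro l _
            rw [map_mul]
            ring
          rw [Finset.sum_congr rfl fun τ _ => h2 τ, Finset.sum_comm]
          apply Finset.sum_congr rfl
          intro i _
          rw [← Finset.mul_sum]
          have h3 : ∑ τ : k →+* ℂ, τ (b * ω i) = ((Algebra.trace ℚ k (b * ω i) : ℚ) : ℂ) := by
            have h4 := trace_eq_sum_embeddings ℂ (K := ℚ) (L := k) (x := b * ω i)
            rw [eq_ratCast] at h4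
            rw [h4]
            exact Fintype.sum_equiv (RingHom.equivRatAlgHom k ℂ) _ _ fun σ => rfl
          rw [h3]
          ring
        have h2 : x = ∑ i, ι (IsLocalRing.residue A' (v i)) *
            ((Algebra.trace ℚ k (b * ω i) : ℚ) : ℝ) / Δ := by exact_mod_cast h1
        rw [h2]
        refine sum_mem fun i _ => div_mem (mul_mem (hιmem _) ?_) ?_
        · exact SubfieldClass.ratCast_mem _ _
        · exact _root_.natCast_mem _ _

end

end Pool.Agent.K1H93.NF
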