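import Pool.Agent.K1H93.NF.Fin

set_option autoImplicit false

/-! The bound for all plane curves with a torsion function over a number field. -/

open Polynomial NumberField IntermediateField

namespace Pool.Agent.K1H93.NF

open Pool.Agent.H322R2 Pool.Agent.K1H93.TG

theorem fin (n D m : ℕ) (hn : 1 ≤ n) :
    ∃ C : ℕ, ∀ (k : Type) [Field k] [NumberField k], Module.finrank ℚ k = m →
      ∃ (c0 : ℕ) (cK : IntermediateField ℚ ℝ → ℕ),
      ∀ (F : MvPolynomial (Fin 2) ℤ) (c : Fin m → 𝓞 k) (f : Fin m → MvPolynomial (Fin 2) ℤ)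
        (g h : MvPolynomial (Fin 2) (𝓞 k)) (a e N : ℕ),
      F.totalDegree ≤ D → (∀ j, (f j).totalDegree ≤ D) → len F ≤ N → (∀ j, len (f j) ≤ N) →
      (∀ j (τ : k →+* ℂ), ‖τ (c j)‖ ≤ N) → 1 ≤ a → 1 ≤ e → a ≤ N → e ≤ N →
      Irreducible (MvPolynomial.map (Int.castRingHom ℚ) F) →
      MvPolynomial.map (Int.castRingHom (𝓞 k)) F ∣
        fh c f * g - MvPolynomial.C (a : 𝓞 k) * h ^ n →
      MvPolynomial.C (e : 𝓞 k) ∈ Ideal.span
        ({MvPolynomial.map (Int.castRingHom (𝓞 k)) F, fh c f, g, h} :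
          Set (MvPolynomial (Fin 2) (𝓞 k))) →
      ∀ (L : Type) [Field L] [Algebra ℚ L] (π : MvPolynomial (Fin 2) ℚ →ₐ[ℚ] L),
      (∀ w, π w = 0 ↔ MvPolynomial.map (Int.castRingHom ℚ) F ∣ w) →
      (∀ z : L, ∃ w1 w2, π w2 ≠ 0 ∧ π w2 * z = π w1) →
      ∀ (M : Type) [Field M] [Algebra L M] [CharZero M] [IsAlgClosed M]
        [Algebra.IsAlgebraic L M] (σ : k →+* M),
      (∀ p : ℕ, p.Prime → p ∣ n → ∀ y ∈ Cmp L M,
        y ^ p ≠ ∑ j, σ (c j) * algebraMap L M (π (MvPolynomial.map (Int.castRingHom ℚ) (f j)))) →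
      ∀ A : ValuationSubring L, (∀ q : ℚ, algebraMap ℚ L q ∈ A) →
      ¬ (π (MvPolynomial.X 0) ∈ A ∧ π (MvPolynomial.X 1) ∈ A) →
      ∀ (t : L) (w : Fin m → A),
      (∀ j, (w j : L) = π (MvPolynomial.map (Int.castRingHom ℚ) (f j)) * t ^ n) →
      (∀ (ι : IsLocalRing.ResidueField A →+* ℝ) (τ : k →+* ℂ),
        ∑ j, (ι (IsLocalRing.residue A (w j)) : ℂ) * τ (c j) ≠ 0) →
      ∀ x y : ℤ, MvPolynomial.eval ![x, y] F = 0 →
        max x.natAbs y.natAbs ≤ (c0 * N) ^ C ∨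
        (∀ A' : ValuationSubring L, ((∀ q : ℚ, algebraMap ℚ L q ∈ A') ∧
          ¬ (π (MvPolynomial.X 0) ∈ A' ∧ π (MvPolynomial.X 1) ∈ A')) ↔ A' = A) ∧
        ∃ (d s : 𝓞 k) (ι : IsLocalRing.ResidueField A →+* ℝ) (K : IntermediateField ℚ ℝ), d ≠ 0 ∧
          (∀ τ : k →+* ℂ, ‖τ d‖ ≤ ((c0 * max a e : ℕ) : ℝ) ^ C) ∧
          d * MvPolynomial.eval ![(x : 𝓞 k), (y : 𝓞 k)] (fh c f) = s ^ n ∧
          Trc k n (fun τ => τ d * ∑ j, (ι (IsLocalRing.residue A (w j)) : ℂ) * τ (c j))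
            (Set.range ι) K ∧
          FiniteDimensional ℚ K ∧
          Module.finrank ℚ (IntermediateField.adjoin ℚ (Set.range ι)) * n ≤ Module.finrank ℚ K ∧
          (Module.finrank ℚ K ≤ 2 ∨ max x.natAbs y.natAbs ≤ (cK K * N) ^ C) := by
  obtain ⟨C0, ck, hC0, hck, hcore⟩ := core Pool.Agent.K1H31.NF.t_ETL n (D + 1) (2 * D) m hn
    (by omega)
  obtain ⟨CD, hdesc⟩ := Pool.Agent.K1H65.NF.t_DSC n m hn
  choose C1 c1 hC using Pool.Agent.Y910.G.main
  obtain ⟨C2, hC2⟩ : ∃ C2, C2 = 1 + ∑ d ∈ Finset.range (D + 1), C1 d := ⟨_, rfl⟩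
  obtain ⟨P, hP⟩ : ∃ P, P = (1 + D) ^ D := ⟨_, rfl⟩
  obtain ⟨E, hE⟩ : ∃ E, E = (n - 1) * (n - 1) + n * D + D + 1 := ⟨_, rfl⟩
  obtain ⟨E3, hE3⟩ : ∃ E3, E3 = 3 + CD + E * (D + 1) := ⟨_, rfl⟩
  obtain ⟨C3, hC3⟩ : ∃ C3, C3 = 1 + D + E3 * C0 := ⟨_, rfl⟩
  have hP1 : 1 ≤ P := by rw [hP]; exact Nat.one_le_pow _ _ (by omega)
  have hE1 : 1 ≤ E := by rw [hE]; omega
  have hE31 : 1 ≤ E3 := by rw [hE3]; omega
  refine ⟨C2 + CD + C3, ?_⟩
  intro k _ _ hkm
  obtain ⟨cD, hcD, hdes⟩ := hdesc k hkm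
  obtain ⟨ω, ω', Δ, hΔ, hspan, hdual⟩ := exists_basis Pool.Agent.K1H61.NF.t_MAT k m hkm
  obtain ⟨Hω, hHω1, hHω⟩ : ∃ Hω : ℕ, 1 ≤ Hω ∧ ∀ i, hs (ω' i : k) ≤ Hω := by
    refine ⟨⌈∑ i, hs (ω' i : k)⌉₊ + 1, by omega, fun i => ?_⟩
    have h1 : hs (ω' i : k) ≤ ∑ i, hs (ω' i : k) :=
      Finset.single_le_sum (f := fun i => hs (ω' i : k)) (fun _ _ => hs_nonneg _)
        (Finset.mem_univ i)
    have h2 := Nat.le_ceil (∑ i, hs (ω' i : k))
    push_cast
    linarith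
  obtain ⟨T0, hT0⟩ : ∃ T0, T0 = ⌈HH ω ω'⌉₊ + 1 := ⟨_, rfl⟩
  have hT01 : 1 ≤ T0 := by rw [hT0]; omega
  obtain ⟨c4, hc4⟩ : ∃ c4, c4 = (m + 1) * Hω * cD * P := ⟨_, rfl⟩
  have hc41 : 1 ≤ c4 := by
    rw [hc4]
    exact Nat.mul_pos (Nat.mul_pos (Nat.mul_pos (by omega) hHω1) hcD) hP1
  obtain ⟨c5, hc5⟩ : ∃ c5, c5 = T0 * c4 ^ E3 := ⟨_, rfl⟩
  have hc51 : 1 ≤ c5 := by rw [hc5]; exact Nat.mul_pos hT01 (Nat.pow_pos hc41)
  refine ⟨C2 + cD + C0 * c5 * P, fun K => ck K * c5 * P, ?_⟩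
  intro F c f g h a e N hFD hfD hFN hfN hcN ha he haN heN hirr hdvd hmem L _ _ π hker hsurj
    M _ _ _ _ _ σ hord A hQ hA t w hw hne x y hxy
  have hcL : CharZero L := algebraRat.charZero L
  have hF0 : F ≠ 0 := by
    rintro rfl
    rw [map_zero] at hirr
    exact hirr.ne_zero rfl
  have hd1 : 1 ≤ F.totalDegree := by
    by_contra hlt
    have h0 : F.totalDegree = 0 := by omega
    rw [MvPolynomial.totalDegree_eq_zero_iff_eq_C] at h0
    rw [h0, MvPolynomial.map_C] at hirr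
    apply hirr.not_isUnit
    apply IsUnit.map
    apply isUnit_iff_ne_zero.2
    intro h1
    apply hF0
    rw [h0]
    rw [eq_intCast, Int.cast_eq_zero] at h1
    rw [h1, map_zero]
  have hD1 : 1 ≤ D := hd1.trans hFD
  have hN1 : 1 ≤ N := ha.trans haN
  have hNP1 : 1 ≤ N * P := Nat.mul_pos hN1 hP1
  have hpos : 1 ≤ (C2 + cD + C0 * c5 * P) * N := Nat.mul_pos (by omega) hN1
  rcases hC F.totalDegree F rfl hirr L π hker hsurj x y hxy with h1 | ⟨A0, hA0, -⟩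
  · left
    have h2 : C1 F.totalDegree ≤ C2 := by
      rw [hC2]
      have := Finset.single_le_sum (f := C1) (fun _ _ => Nat.zero_le _)
        (Finset.mem_range.2 (show F.totalDegree < D + 1 by omega))
      omega
    have h3 : (C1 F.totalDegree * len F) ^ C1 F.totalDegree ≤
        ((C2 + cD + C0 * c5 * P) * N) ^ (C2 + CD + C3) :=
      (Nat.pow_le_pow_left (Nat.mul_le_mul (by omega) hFN) _).trans
        (Nat.pow_le_pow_right hpos (by omega))
    exact (max_le h1.1 h1.2).trans h3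
  have hAA : A = A0 := (hA0 A).1 ⟨hQ, hA⟩
  -- the descent
  obtain ⟨htor1, htor2⟩ := eval_tors F (fh c f) g h n a e hdvd hmem x y hxy
  obtain ⟨d, s0, hd0, hds, hdN⟩ := hdes a e (max a e) ha he (le_max_left _ _) (le_max_right _ _)
    _ _ _ htor1 htor2
  have hds1 := hds
  rw [eval_fh] at hds
  have haeN : max a e ≤ N := max_le haN heN
  have hae1 : 1 ≤ max a e := ha.trans (le_max_left _ _)
  -- the monic model
  obtain ⟨u, hu, hc⟩ := exists_u F hF0
  have hc' : lc F u ≠ 0 := hc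
  have hcLne : ((lc F u : ℤ) : L) ≠ 0 := by exact_mod_cast hc'
  obtain ⟨hev, htr, hgen, hpl⟩ := Y852.FFRed.ff_reduce F hirr u hc' hd1 π hker hsurj _ _ rfl rfl
  obtain ⟨α, hα⟩ : ∃ α : L, α = π (MvPolynomial.X 1) - (u : L) * π (MvPolynomial.X 0) := ⟨_, rfl⟩
  obtain ⟨β, hβ⟩ : ∃ β : L, β = ((lc F u : ℤ) : L) * π (MvPolynomial.X 0) := ⟨_, rfl⟩
  rw [← hα, ← hβ] at hev hgen hpl
  rw [← hα] at htr
  have hαA : α ∉ A := by
    intro h1
    have h2 : β ∈ A := mem_of_monic_root A α β (GG F u) (GG_monic hc') hev h1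
    exact hA ((hpl A hQ).2 ⟨h1, h2⟩)
  obtain ⟨fj, hfj⟩ : ∃ fj : Fin m → ℤ[X][X], ∀ j, fj j = fs u (lc F u) (n * D) D (f j) :=
    ⟨_, fun j => rfl⟩
  have hfL : ∀ j, ev α β (fj j) =
      ((lc F u : ℤ) : L) ^ (n * D) * π (MvPolynomial.map (Int.castRingHom ℚ) (f j)) := by
    intro j
    rw [hfj, ← eval₂_pi π (f j), hα, hβ]
    exact ev_fs u (lc F u) (n * D) D (f j) (hfD j) (Nat.le_mul_of_pos_left _ hn) _ _
  have hfZ : ∀ j, ev (y - u * x) (lc F u * x) (fj j) =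
      (lc F u) ^ (n * D) * MvPolynomial.eval ![x, y] (f j) := by
    intro j
    have h2 := ev_fs (S := ℤ) u (lc F u) (n * D) D (f j) (hfD j) (Nat.le_mul_of_pos_left _ hn) x y
    rw [eval₂_int, ← hfj] at h2
    simpa using h2
  have hev0 : ev (y - u * x) (lc F u * x) (GG F u) = 0 := by
    have h1 := ev_f2 (S := ℤ) u F x y
    rw [eval₂_int, hxy] at h1
    have h2 : ev (y - u * x) x (F2 F u) = 0 := h1
    rw [ev_GG hc' hd1, h2, mul_zero]
  -- coordinates of `d c_j`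
  choose bm hbm using fun j => hspan (d * c j)
  have hdcN : ∀ j (τ : k →+* ℂ), ‖τ ((d * c j : 𝓞 k) : k)‖ ≤ (((cD * N) ^ CD * N : ℕ) : ℝ) := by
    intro j τ
    push_cast
    rw [map_mul, norm_mul]
    apply mul_le_mul _ (hcN j τ) (norm_nonneg _) (by positivity)
    refine (hdN τ).trans ?_
    push_cast
    apply pow_le_pow_left₀ (by positivity)
    apply mul_le_mul_of_nonneg_left _ (by positivity)
    exact_mod_cast haeN
  obtain ⟨T, hT⟩ : ∃ T, T = Hω * ((cD * N) ^ CD * N) := ⟨_, rfl⟩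
  have hT1 : 1 ≤ T := by
    rw [hT]
    exact Nat.mul_pos hHω1 (Nat.mul_pos (Nat.pow_pos (Nat.mul_pos hcD hN1)) hN1)
  have hbT : ∀ j i, |(bm j i : ℝ)| ≤ T := by
    intro j i
    refine (coord_le hΔ (hdual ℂ) (d * c j) (bm j) (hbm j) _ (hdcN j) i).trans ?_
    rw [hT, Nat.cast_mul Hω]
    exact mul_le_mul_of_nonneg_right (hHω i) (Nat.cast_nonneg _)
  obtain ⟨Q, hQd⟩ : ∃ Q : Fin m → ℤ[X][X], ∀ i, Q i = ∑ j, C (C (bm j i)) * fj j :=
    ⟨_, fun i => rfl⟩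
  have hQev : ∀ {S : Type} [CommRing S] (p q : S) i, ev p q (Q i) =
      ∑ j, (bm j i : S) * ev p q (fj j) := by
    intro S _ p q i
    rw [hQd, map_sum]
    apply Finset.sum_congr rfl
    intro j _
    rw [map_mul, ev_C, evf_C]
  -- heights
  have hheights := fun j => heights n D F (f j) hFD (hfD j) u hu hc' hd1 N P E hP hE hN1 hFN
    (hfN j) 1 (by simpa using Nat.one_le_pow _ _ hN1)
  obtain ⟨hG1, hG2⟩ : pn (pn zn) (GG F u) ≤ ((N * P) ^ D : ℕ) ∧
      pn (pn zn) (GG F u) ≤ ((N * P) ^ E : ℕ) := by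
    have := heights n D F F hFD hFD u hu hc' hd1 N P E hP hE hN1 hFN
      hFN 1 (by simpa using Nat.one_le_pow _ _ hN1)
    exact ⟨this.1, this.2.1⟩
  obtain ⟨H, hH⟩ : ∃ H, H = (N * P) ^ E := ⟨_, rfl⟩
  have hH1 : 1 ≤ H := by rw [hH]; exact Nat.one_le_pow _ _ hNP1
  rw [← hH] at hG2
  obtain ⟨B, hB⟩ : ∃ B, B = (m + 1) * T * H ^ (D + 1) := ⟨_, rfl⟩
  have hB1 : 1 ≤ B := by
    rw [hB]
    exact Nat.mul_pos (Nat.mul_pos (by omega) hT1) (Nat.pow_pos hH1)
  have hgr : ∀ x s : ℂ, ev x s (GG F u) = 0 → ‖s‖ ≤ B * max 1 ‖x‖ ^ (2 * D) ∧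
      ∀ i, ‖ev x s (Q i)‖ ≤ B * max 1 ‖x‖ ^ (2 * D) := by
    intro x s hxs
    have h1 := grow D hD1 (GG F u) F.totalDegree (GG_monic hc') (GG_natDegree hc') (GG_TD hc')
      H hH1 hG2 fj (fun j => by rw [hfj]; exact fs_natDegree _ _ _ _ _)
      (fun j => by rw [hfj]; exact fs_ID _ _ _ _ _ (hfD j))
      (fun j => by rw [hfj, hH]; exact (hheights j).2.2.1) bm T hT1 hbT x s hxs
    rw [← hB] at h1
    refine ⟨h1.1, fun i => ?_⟩
    rw [hQd]
    exact h1.2 i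
  have hBle : B ≤ (c4 * N) ^ E3 := by
    have g1 : m + 1 ≤ c4 * N := by
      calc m + 1 ≤ c4 := by
            rw [hc4, mul_assoc, mul_assoc]
            exact Nat.le_mul_of_pos_right _ (Nat.mul_pos hHω1 (Nat.mul_pos hcD hP1))
        _ ≤ c4 * N := Nat.le_mul_of_pos_right _ hN1
    have g2 : Hω ≤ c4 * N := by
      calc Hω ≤ c4 := by
            rw [hc4, mul_assoc, mul_comm (m + 1), mul_assoc]
            exact Nat.le_mul_of_pos_right _ (Nat.mul_pos (by omega) (Nat.mul_pos hcD hP1))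
        _ ≤ c4 * N := Nat.le_mul_of_pos_right _ hN1
    have g3 : cD * N ≤ c4 * N := by
      apply Nat.mul_le_mul_right
      rw [hc4, mul_comm _ cD, mul_assoc]
      exact Nat.le_mul_of_pos_right _ (Nat.mul_pos (Nat.mul_pos (by omega) hHω1) hP1)
    have g4 : N * P ≤ c4 * N := by
      rw [mul_comm N P]
      apply Nat.mul_le_mul_right
      rw [hc4]
      exact Nat.le_mul_of_pos_left _ (Nat.mul_pos (Nat.mul_pos (by omega) hHω1) hcD)
    have g5 : N ≤ c4 * N := Nat.le_mul_of_pos_left _ hc41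
    calc B = (m + 1) * (Hω * ((cD * N) ^ CD * N)) * ((N * P) ^ E) ^ (D + 1) := by
          rw [hB, hT, hH]
      _ ≤ (c4 * N) * ((c4 * N) * ((c4 * N) ^ CD * (c4 * N))) * ((c4 * N) ^ E) ^ (D + 1) := by
          apply Nat.mul_le_mul
          · apply Nat.mul_le_mul g1
            apply Nat.mul_le_mul g2
            exact Nat.mul_le_mul (Nat.pow_le_pow_left g3 _) g5
          · exact Nat.pow_le_pow_left (Nat.pow_le_pow_left g4 _) _
      _ = (c4 * N) ^ E3 := by rw [hE3]; ring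
  -- the degree of the covering
  obtain ⟨U, hU⟩ : ∃ U : M, U = ∑ j, σ (c j) *
    algebraMap L M (π (MvPolynomial.map (Int.castRingHom ℚ) (f j))) := ⟨_, rfl⟩
  rw [← hU] at hord
  have hdegZ : ∀ Z : (k →+* M) → M, (∀ σ, Z σ ^ n = qs ω (fun i => ev α β (Q i)) σ) →
      n ≤ Module.finrank L (EE L ω' Z) := by
    intro Z hZ
    rcases Nat.lt_or_ge 1 n with hn2 | hn2
    swap
    · exact hn2.trans Module.finrank_pos
    have hU0 : U ≠ 0 := by
      intro h0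
      obtain ⟨p, hp, hpn⟩ := Nat.exists_prime_and_dvd (by omega : n ≠ 1)
      apply hord p hp hpn 0 (zero_mem _)
      rw [h0, zero_pow hp.ne_zero]
    refine hdeg_of Pool.Agent.K1H61.NF.t_DEG hn hΔ (hdual M) (fun i => ev α β (Q i)) σ U
      (((lc F u : ℤ) : M) ^ (n * D) * σ d) ?_ ?_ ?_ hU0 ?_ hord Z hZ
    · have h1 : IsAlgebraic ℚ ((lc F u : ℤ) : M) := by
        have h2 : ((lc F u : ℤ) : M) = algebraMap ℚ M ((lc F u : ℤ) : ℚ) := by
          rw [map_intCast]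
        rw [h2]
        exact isAlgebraic_algebraMap _
      exact (h1.pow _).mul (alg_emb σ _)
    · apply mul_ne_zero
      · apply pow_ne_zero
        exact_mod_cast hc'
      · rw [_root_.map_ne_zero]
        intro h0
        exact hd0 (NumberField.RingOfIntegers.ext h0)
    · rw [qs]
      have h1 : ∀ i, algebraMap L M (ev α β (Q i)) * σ (ω i) = ∑ j,
          (((lc F u : ℤ) : M) ^ (n * D) *
            algebraMap L M (π (MvPolynomial.map (Int.castRingHom ℚ) (f j)))) *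
            ((bm j i : M) * σ (ω i)) := by
        intro i
        rw [hQev, map_sum, Finset.sum_mul]
        apply Finset.sum_congr rfl
        intro j _
        rw [map_mul, hfL, map_mul, map_pow, map_intCast, map_intCast]
        ring
      rw [Finset.sum_congr rfl fun i _ => h1 i, Finset.sum_comm, hU, Finset.mul_sum]
      apply Finset.sum_congr rfl
      intro j _
      rw [← Finset.mul_sum, ← hom_sum (d * c j) (bm j) (hbm j) σ]
      push_cast
      rw [map_mul]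
      ring
    · rw [hU]
      refine sum_mem fun j _ => mul_mem ?_ ((Cmp L M).algebraMap_mem _)
      exact subset_adjoin _ _ (alg_emb σ _)
  -- the values at the place
  obtain ⟨w', hw'⟩ : ∃ w' : Fin m → A, ∀ i, w' i = ∑ j, (bm j i : A) * w j := ⟨_, fun i => rfl⟩
  have hw'1 : ∀ i, (w' i : L) = ev α β (Q i) * (t / ((lc F u : ℤ) : L) ^ D) ^ n := by
    intro i
    rw [hw', hQev, Finset.sum_mul]
    push_cast
    apply Finset.sum_congr rfl
    intro j _
    rw [hfL, hw, div_pow, ← pow_mul, mul_comm D n]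
    field_simp
  have hw'2 : ∀ (ι : IsLocalRing.ResidueField A →+* ℝ) (τ : k →+* ℂ),
      ∑ i, (ι (IsLocalRing.residue A (w' i)) : ℂ) * τ (ω i) =
        τ d * ∑ j, (ι (IsLocalRing.residue A (w j)) : ℂ) * τ (c j) := by
    intro ι τ
    have h1 : ∀ i, (ι (IsLocalRing.residue A (w' i)) : ℂ) * τ (ω i) = ∑ j,
        (ι (IsLocalRing.residue A (w j)) : ℂ) * ((bm j i : ℂ) * τ (ω i)) := by
      intro i
      rw [hw', map_sum, map_sum]
      push_cast
      rw [Finset.sum_mul]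
      apply Finset.sum_congr rfl
      intro j _
      rw [map_mul, map_mul, map_intCast, map_intCast]
      push_cast
      ring
    rw [Finset.sum_congr rfl fun i _ => h1 i, Finset.sum_comm, Finset.mul_sum]
    apply Finset.sum_congr rfl
    intro j _
    rw [← Finset.mul_sum, ← hom_sum (d * c j) (bm j) (hbm j) τ]
    push_cast
    rw [map_mul]
    ring
  have hw'3 : ∀ (ι : IsLocalRing.ResidueField A →+* ℝ) (τ : k →+* ℂ),
      ∑ i, (ι (IsLocalRing.residue A (w' i)) : ℂ) * τ (ω i) ≠ 0 := by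
    intro ι τ
    rw [hw'2]
    apply mul_ne_zero _ (hne ι τ)
    rw [_root_.map_ne_zero]
    intro h0
    exact hd0 (NumberField.RingOfIntegers.ext h0)
  -- the integer point
  obtain ⟨s, hs⟩ := hspan (((lc F u : ℤ) : 𝓞 k) ^ D * s0)
  have hpt : ∀ ρ : 𝓞 k →+* ℂ, (∑ j, (s j : ℂ) * ρ (ω j)) ^ n =
      ∑ i, ((ev (y - u * x) (lc F u * x) (Q i) : ℤ) : ℂ) * ρ (ω i) := by
    intro ρ
    have h1 : (∑ j, (s j : 𝓞 k) * ω j) ^ n =
        ∑ i, ((ev (y - u * x) (lc F u * x) (Q i) : ℤ) : 𝓞 k) * ω i := by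
      rw [← hs]
      have h2 : ∀ i, ((ev (y - u * x) (lc F u * x) (Q i) : ℤ) : 𝓞 k) * ω i =
          ∑ j, (((lc F u : ℤ) : 𝓞 k) ^ (n * D) *
            ((MvPolynomial.eval ![x, y] (f j) : ℤ) : 𝓞 k)) * ((bm j i : 𝓞 k) * ω i) := by
        intro i
        rw [hQev]
        push_cast
        rw [Finset.sum_mul]
        apply Finset.sum_congr rfl
        intro j _
        rw [hfZ]
        push_cast
        ring
      rw [Finset.sum_congr rfl fun i _ => h2 i, Finset.sum_comm]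
      have h3 : ∀ j, ∑ i, (((lc F u : ℤ) : 𝓞 k) ^ (n * D) *
            ((MvPolynomial.eval ![x, y] (f j) : ℤ) : 𝓞 k)) * ((bm j i : 𝓞 k) * ω i) =
          ((lc F u : ℤ) : 𝓞 k) ^ (n * D) *
            (d * (c j * ((MvPolynomial.eval ![x, y] (f j) : ℤ) : 𝓞 k))) := by
        intro j
        rw [← Finset.mul_sum, ← hbm j]
        ring
      rw [Finset.sum_congr rfl fun j _ => h3 j, ← Finset.mul_sum, ← Finset.mul_sum, hds, mul_pow,
        ← pow_mul, mul_comm D n]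
    have h2 := congrArg ρ h1
    rw [map_pow, map_sum, map_sum] at h2
    simpa only [map_mul, map_intCast] using h2
  have hGdeg : (GG F u).natDegree ≤ D + 1 := by rw [GG_natDegree hc']; omega
  have hfinal : ∀ K1 : ℕ, 1 ≤ K1 → (y - u * x).natAbs ≤ (K1 * (T0 * B)) ^ C0 →
      max x.natAbs y.natAbs ≤ (K1 * c5 * P * N) ^ C3 := by
    intro K1 hK1 h1
    have h2 : (y - u * x).natAbs ≤ ((K1 * c5) * (N * P) ^ E3) ^ C0 := by
      refine h1.trans (Nat.pow_le_pow_left ?_ _)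
      rw [hc5]
      calc K1 * (T0 * B) ≤ K1 * (T0 * (c4 * N) ^ E3) :=
            Nat.mul_le_mul_left _ (Nat.mul_le_mul_left _ hBle)
        _ ≤ K1 * (T0 * (c4 * (N * P)) ^ E3) := by
            apply Nat.mul_le_mul_left
            apply Nat.mul_le_mul_left
            apply Nat.pow_le_pow_left
            apply Nat.mul_le_mul_left
            exact Nat.le_mul_of_pos_right _ hP1
        _ = K1 * (T0 * c4 ^ E3) * (N * P) ^ E3 := by rw [mul_pow]; ring
    have h3 := back D hD1 F hFD u hu hc' hd1 N P E3 C0 (K1 * c5) hP hN1 hE31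
      (Nat.mul_pos hK1 hc51) hG1 x y hxy h2
    rw [← hC3] at h3
    exact h3
  rcases hcore k hkm ω ω' Δ hΔ hdual L α β htr (GG F u) (GG_monic hc') hGdeg hev
    (fun W hW => ker_dvd α β htr (GG F u) (GG_monic hc') (GG_prime hc' hd1 hirr).irreducible hev
      W hW) (gen_int α β hgen) Q B hB1 hgr A hQ hαA (t / ((lc F u : ℤ) : L) ^ D) w' hw'1 hw'3 M
    hdegZ (y - u * x) (lc F u * x) s hev0 hpt with h1 | ⟨ι, K, h1, h2, h3, h4⟩
  · left
    rw [← hT0] at h1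
    refine (hfinal C0 hC0 h1).trans ?_
    refine (Nat.pow_le_pow_left (Nat.mul_le_mul_right N (Nat.le_add_left _ (C2 + cD))) _).trans ?_
    exact Nat.pow_le_pow_right hpos (by omega)
  · right
    refine ⟨fun A' => by rw [hAA]; exact hA0 A', d, s0, ι, K, hd0, ?_, hds1, ?_, h2, h3, ?_⟩
    · intro τ
      refine (hdN τ).trans ?_
      have g1 : (1 : ℝ) ≤ ((cD * max a e : ℕ) : ℝ) := by
        exact_mod_cast Nat.mul_pos hcD hae1
      refine (pow_le_pow_right₀ g1 (by omega : CD ≤ C2 + CD + C3)).trans ?_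
      apply pow_le_pow_left₀ (by positivity)
      exact_mod_cast Nat.mul_le_mul_right (max a e) (by omega : cD ≤ C2 + cD + C0 * c5 * P)
    · have h5 : (fun τ : k →+* ℂ => ∑ i, (ι (IsLocalRing.residue A (w' i)) : ℂ) * τ (ω i)) =
          fun τ => τ d * ∑ j, (ι (IsLocalRing.residue A (w j)) : ℂ) * τ (c j) :=
        funext fun τ => hw'2 ι τ
      rw [← h5]
      exact h1
    · rcases h4 with h4 | h4
      · exact Or.inl h4
      · right
        rw [← hT0] at h4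
        refine (hfinal (ck K) (hck K) h4).trans ?_
        apply Nat.pow_le_pow_right _ (by omega)
        exact Nat.mul_pos (Nat.mul_pos (Nat.mul_pos (hck K) hc51) hP1) hN1

end Pool.Agent.K1H93.NF
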