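import Pool.Agent.K1H93.NF.Cvr

set_option autoImplicit false

/-! The covering at a rational place. -/

open Polynomial NumberField

namespace Pool.Agent.K1H93.NF

section

variable {L M : Type} [Field L] [Field M] [Algebra L M]

lemma exists_O (A : ValuationSubring L) :
    ∃ O : ValuationSubring M, ∀ z : L, algebraMap L M z ∈ O ↔ z ∈ A := by
  obtain ⟨O, h, hloc⟩ := IsLocalRing.exists_factor_valuationRing
    ((algebraMap L M).comp (A.subtype : A →+* L))
  refine ⟨O, fun z => ⟨fun hz => ?_, fun hz => h ⟨z, hz⟩⟩⟩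
  by_contra hcon
  have hz0 : z ≠ 0 := by
    rintro rfl
    exact hcon A.zero_mem
  have hz1 : z⁻¹ ∈ A := (A.mem_or_inv_mem z).resolve_left hcon
  have hu : IsUnit ((((algebraMap L M).comp (A.subtype : A →+* L)).codRestrict O.toSubring h)
      ⟨z⁻¹, hz1⟩) := by
    refine IsUnit.of_mul_eq_one ⟨algebraMap L M z, hz⟩ ?_
    apply Subtype.ext
    change algebraMap L M z⁻¹ * algebraMap L M z = 1
    rw [← map_mul, inv_mul_cancel₀ hz0, map_one]
  have h2 := hloc.map_nonunit _ hu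
  obtain ⟨y, hy⟩ := h2.exists_right_inv
  have h3 : z⁻¹ * (y : L) = 1 := congrArg Subtype.val hy
  apply hcon
  have h4 : (y : L) = z := by
    field_simp at h3
    exact h3
  rw [← h4]
  exact y.2

end

section

variable {M : Type} [Field M] [CharZero M]

lemma alg_mem (O : ValuationSubring M) (hQ : ∀ q : ℚ, (q : M) ∈ O) {z : M}
    (hz : ∃ p : ℚ[X], p.Monic ∧ p.eval₂ (algebraMap ℚ M) z = 0) : z ∈ O := by
  obtain ⟨p, hp, hpz⟩ := hz
  have h1 : IsIntegral O z := by
    let f : ℚ →+* O := (algebraMap ℚ M).codRestrict O.toSubring (fun q => by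
      have := hQ q
      rwa [← eq_ratCast (algebraMap ℚ M) q] at this)
    refine ⟨p.map f, hp.map _, ?_⟩
    rw [eval₂_map, ← hpz]
    congr 1
  obtain ⟨y, hy⟩ := IsIntegrallyClosed.isIntegral_iff.1 h1
  rw [← hy]
  exact y.2

/-- algebraic numbers have value one -/
lemma val_alg (O : ValuationSubring M) (hQ : ∀ q : ℚ, (q : M) ∈ O) {z : M}
    (hz : IsAlgebraic ℚ z) (h0 : z ≠ 0) : O.valuation z = 1 := by
  have key : ∀ z : M, IsAlgebraic ℚ z → O.valuation z ≤ 1 := by
    intro z hz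
    rw [ValuationSubring.valuation_le_one_iff]
    exact alg_mem O hQ hz.isIntegral
  apply le_antisymm (key z hz)
  have h1 := key z⁻¹ hz.inv
  rw [map_inv₀] at h1
  have h2 : O.valuation z ≠ 0 := (Valuation.ne_zero_iff _).2 h0
  exact (inv_le_one₀ (zero_lt_iff.2 h2)).1 h1

variable {k : Type} [Field k] [NumberField k]

lemma alg_emb (σ : k →+* M) (x : k) : IsAlgebraic ℚ (σ x) := by
  have h1 : IsIntegral ℚ x := Algebra.IsIntegral.isIntegral x
  obtain ⟨p, hp, hpx⟩ := h1
  have h2 : IsIntegral ℚ (σ x) := by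
    refine ⟨p, hp, ?_⟩
    have h3 := hom_eval₂ p (algebraMap ℚ k) σ x
    rw [hpx, map_zero] at h3
    rw [h3]
    congr 1
    exact Subsingleton.elim _ _
  exact h2.isAlgebraic

variable {m : ℕ} {L : Type} [Field L] [Algebra L M]

/-- the data of a place: `w i = q i * t ^ n` is integral and `∑ w i ω i` is a unit -/
structure AtPlace (n : ℕ) (O : ValuationSubring M) (ω : Fin m → 𝓞 k) (q : Fin m → L) (t : L) :
    Prop where
  rat : ∀ x : ℚ, (x : M) ∈ O
  ne : ∀ σ : k →+* M, O.valuation (algebraMap L M t ^ n * qs ω q σ) = 1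

lemma AtPlace.val_Z {n : ℕ} (hn : 0 < n) {O : ValuationSubring M} {ω : Fin m → 𝓞 k}
    {q : Fin m → L} {t : L} (h : AtPlace n O ω q t) (σ : k →+* M) {Z : M}
    (hZ : Z ^ n = qs ω q σ) : O.valuation (algebraMap L M t * Z) = 1 := by
  have h1 := h.ne σ
  rw [← hZ, ← mul_pow, map_pow] at h1
  exact (pow_eq_one_iff_of_nonneg zero_le' (by omega)).1 h1

/-- different roots are different at the place -/
lemma AtPlace.sep {n : ℕ} (hn : 0 < n) {O : ValuationSubring M} {ω : Fin m → 𝓞 k}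
    {q : Fin m → L} {t : L} (h : AtPlace n O ω q t) (σ : k →+* M) {Z Z' : M}
    (hZ : Z ^ n = qs ω q σ) (hZ' : Z' ^ n = qs ω q σ)
    (hlt : O.valuation (algebraMap L M t * (Z - Z')) < 1) : Z = Z' := by
  by_contra hne
  have h1 := h.val_Z hn σ hZ
  have hZ0 : Z ≠ 0 := by
    rintro rfl
    rw [mul_zero, map_zero] at h1
    exact zero_ne_one h1
  have hζ : (Z' / Z) ^ n = 1 := by
    rw [div_pow, hZ, hZ', div_self]
    rw [← hZ]
    exact pow_ne_zero _ hZ0
  have h2 : O.valuation (1 - Z' / Z) = 1 := by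
    apply val_alg O h.rat
    · have h3 : IsIntegral ℚ (Z' / Z) := by
        refine ⟨X ^ n - 1, monic_X_pow_sub_C 1 (by omega), ?_⟩
        rw [eval₂_sub, eval₂_pow, eval₂_X, eval₂_one, hζ, sub_self]
      exact (isIntegral_one.sub h3).isAlgebraic
    · intro h0
      apply hne
      rw [sub_eq_zero, eq_div_iff hZ0, one_mul] at h0
      exact h0
  have h3 : algebraMap L M t * (Z - Z') = (algebraMap L M t * Z) * (1 - Z' / Z) := by
    field_simp
  rw [h3, map_mul, h1, h2, mul_one] at hlt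
  exact lt_irrefl _ hlt

variable [IsAlgClosed M] [Algebra.IsAlgebraic L M]

/-- the embeddings of the covering are separated at the place -/
theorem AtPlace.separate {n : ℕ} (hn : 0 < n) {O : ValuationSubring M} {ω ω' : Fin m → 𝓞 k}
    {Δ : ℕ} (hΔ : 1 ≤ Δ) (hd : DualId M ω ω' Δ)
    {q : Fin m → L} {t : L} (h : AtPlace n O ω q t) (Z : (k →+* M) → M)
    (hZ : ∀ σ, Z σ ^ n = qs ω q σ) (ψ ψ' : EE L ω' Z →ₐ[L] M) (hne : ψ ≠ ψ') :
    ∃ i, ¬ O.valuation (ψ (algebraMap L (EE L ω' Z) t * ⟨th ω' Z i, th_mem ω' Z i⟩) -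
      ψ' (algebraMap L (EE L ω' Z) t * ⟨th ω' Z i, th_mem ω' Z i⟩)) < 1 := by
  by_contra hcon
  push Not at hcon
  apply hne
  obtain ⟨-, -, Z1, h1, h2⟩ := emb_EE (L := L) ω ω' q Z hZ ψ
  obtain ⟨-, -, Z2, h3, h4⟩ := emb_EE (L := L) ω ω' q Z hZ ψ'
  have h5 : Z1 = Z2 := by
    funext τ
    apply h.sep hn τ (h1 τ) (h3 τ)
    have hΔ1 : O.valuation (Δ : M) = 1 := by
      have h6 : ((Δ : ℚ) : M) = (Δ : M) := by push_cast; rfl
      apply val_alg O h.rat
      · rw [← h6, ← eq_ratCast (algebraMap ℚ M)]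
        exact isAlgebraic_algebraMap _
      · exact_mod_cast (by omega : Δ ≠ 0)
    have h6 : (Δ : M) * (algebraMap L M t * (Z1 τ - Z2 τ)) =
        ∑ i, (ψ (algebraMap L (EE L ω' Z) t * ⟨th ω' Z i, th_mem ω' Z i⟩) -
      ψ' (algebraMap L (EE L ω' Z) t * ⟨th ω' Z i, th_mem ω' Z i⟩)) * τ (ω i) := by
      have e1 := th_mul hd Z1 τ
      have e2 := th_mul hd Z2 τ
      have e3 : (Δ : M) * (algebraMap L M t * (Z1 τ - Z2 τ)) =
          algebraMap L M t * ((Δ : M) * Z1 τ - Δ * Z2 τ) := by ring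
      rw [e3, ← e1, ← e2, ← Finset.sum_sub_distrib, Finset.mul_sum]
      apply Finset.sum_congr rfl
      intro i _
      rw [map_mul, map_mul, AlgHom.commutes, AlgHom.commutes, h2, h4]
      ring
    have h7 : O.valuation ((Δ : M) * (algebraMap L M t * (Z1 τ - Z2 τ))) < 1 := by
      rw [h6]
      apply Valuation.map_sum_lt _ (by exact one_ne_zero)
      intro i _
      rw [map_mul]
      have h8 : O.valuation (τ (ω i)) ≤ 1 := by
        rw [ValuationSubring.valuation_le_one_iff]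
        exact alg_mem O h.rat (alg_emb τ _).isIntegral
      exact (mul_le_mul_right h8 _).trans_lt (by rw [mul_one]; exact hcon i)
    rwa [map_mul, hΔ1, one_mul] at h7
  apply ext_EE
  intro i
  rw [h2, h4, h5]

end

end Pool.Agent.K1H93.NF
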